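import Mathlib

/-!
# Algebras of functions on a group which are stable under translations
-/

set_option autoImplicit false

open Module Submodule

namespace Pool.Agent.Q280.TG

/-- An algebra `R` of functions with values in `K` on a group `G`, stable under translations, inversion and a set of
further operators `cj`, in which every element lies in a space of finite dimension which is stable as well. -/
structure Fn (K G E R : Type) [Field K] [Group G] [CommRing R] [Algebra K R] where
  v : R →ₐ[K] (G → K)
  inj : Function.Injective v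
  lt : G → R →ₐ[K] R
  rt : G → R →ₐ[K] R
  iv : R →ₐ[K] R
  cj : E → R →ₐ[K] R
  v_lt : ∀ g f x, v (lt g f) x = v f (g * x)
  v_rt : ∀ g f x, v (rt g f) x = v f (x * g)
  v_iv : ∀ f x, v (iv f) x = v f x⁻¹
  cj_inj : ∀ e, Function.Injective (cj e)
  fin : ∀ f, ∃ W : Submodule K R, FiniteDimensional K W ∧ f ∈ W ∧ (∀ g, ∀ w ∈ W, lt g w ∈ W) ∧
    (∀ g, ∀ w ∈ W, rt g w ∈ W) ∧ (∀ w ∈ W, iv w ∈ W) ∧ ∀ e, ∀ w ∈ W, cj e w ∈ W

variable {K G E R : Type} [Field K] [Group G] [CommRing R] [Algebra K R] (S : Fn K G E R)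

namespace Fn

theorem ext {f g : R} (h : ∀ x, S.v f x = S.v g x) : f = g := S.inj (funext h)

theorem lt_lt (g h : G) (f : R) : S.lt g (S.lt h f) = S.lt (h * g) f := S.ext fun x => by
  rw [S.v_lt, S.v_lt, S.v_lt, mul_assoc]

theorem rt_rt (g h : G) (f : R) : S.rt g (S.rt h f) = S.rt (g * h) f := S.ext fun x => by
  rw [S.v_rt, S.v_rt, S.v_rt, mul_assoc]

theorem lt_rt (g h : G) (f : R) : S.lt g (S.rt h f) = S.rt h (S.lt g f) := S.ext fun x => by
  rw [S.v_lt, S.v_rt, S.v_rt, S.v_lt, mul_assoc]

theorem lt_one (f : R) : S.lt 1 f = f := S.ext fun x => by rw [S.v_lt, one_mul]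

theorem rt_one (f : R) : S.rt 1 f = f := S.ext fun x => by rw [S.v_rt, mul_one]

theorem lt_inj (g : G) : Function.Injective (S.lt g) := fun f h e => by
  rw [← S.lt_one f, ← S.lt_one h, ← mul_inv_cancel g, ← S.lt_lt, ← S.lt_lt, e]

theorem rt_inj (g : G) : Function.Injective (S.rt g) := fun f h e => by
  rw [← S.rt_one f, ← S.rt_one h, ← inv_mul_cancel g, ← S.rt_rt, ← S.rt_rt, e]

theorem v_algebraMap (c : K) (x : G) : S.v (algebraMap K R c) x = c := by
  rw [AlgHom.commutes]
  rfl

theorem v_smul (c : K) (f : R) (x : G) : S.v (c • f) x = c * S.v f x := by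
  rw [map_smul]
  rfl

/-- the value at a point as a homomorphism -/
def at' (x : G) : R →ₐ[K] K := (Pi.evalAlgHom K (fun _ : G => K) x).comp S.v

theorem at'_apply (x : G) (f : R) : S.at' x f = S.v f x := rfl

/-- points at which independent functions have independent values -/
theorem exists_pts {d : ℕ} {b : Fin d → R} (hb : LinearIndependent K b) :
    ∃ q : Fin d → G, (Matrix.of fun i j => S.v (b i) (q j)).det ≠ 0 := by
  classical
  -- the vectors of values span the space
  have h1 : span K (Set.range fun x : G => fun i : Fin d => S.v (b i) x) = ⊤ := by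
    by_contra hne
    obtain ⟨f, hf, hf'⟩ := Submodule.exists_le_ker_of_lt_top _ (lt_top_iff_ne_top.mpr hne)
    obtain ⟨c, hc⟩ : ∃ c : Fin d → K, ∀ w, f w = ∑ i, w i * c i := by
      refine ⟨fun i => f (Pi.single i 1), fun w => ?_⟩
      conv_lhs => rw [← LinearMap.sum_single_apply (fun _ => K) w, map_sum]
      refine Finset.sum_congr rfl fun i _ => ?_
      have : (Pi.single i (w i) : Fin d → K) = w i • Pi.single i (1 : K) := by
        ext j
        by_cases h : j = i
        · subst h
          simp
        · simp [Pi.single_eq_of_ne h]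
      rw [this, map_smul, smul_eq_mul]
    have h2 : ∑ i, c i • b i = 0 := S.ext fun x => by
      rw [map_sum, Finset.sum_apply, map_zero, Pi.zero_apply]
      have h3 := hf' (Submodule.subset_span ⟨x, rfl⟩)
      rw [LinearMap.mem_ker, hc] at h3
      rw [← h3]
      refine Finset.sum_congr rfl fun i _ => ?_
      rw [S.v_smul, mul_comm]
    have h3 := Fintype.linearIndependent_iff.mp hb c h2
    apply hf
    ext w
    simp [h3, hc]
  obtain ⟨t, ht1, ht2, ht3⟩ := exists_linearIndependent K (Set.range fun x : G => fun i : Fin d => S.v (b i) x)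
  rw [h1] at ht2
  let B := Basis.mk ht3 (by rw [Subtype.range_coe, ht2])
  have : Fintype t := FiniteDimensional.fintypeBasisIndex B
  have hcard : Fintype.card t = d := by
    rw [← finrank_eq_card_basis B, finrank_fin_fun]
  let e : Fin d ≃ t := (Fintype.equivFinOfCardEq hcard).symm
  choose q hq using fun j : Fin d => ht1 (e j).2
  refine ⟨q, ?_⟩
  have h4 : LinearIndependent K (fun j : Fin d => fun i : Fin d => S.v (b i) (q j)) := by
    have h5 : (fun j : Fin d => fun i : Fin d => S.v (b i) (q j)) = (fun x : t => (x : Fin d → K)) ∘ e :=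
      funext fun j => hq j
    rw [h5]
    exact ht3.comp _ e.injective
  have h6 := (Matrix.linearIndependent_rows_iff_isUnit (A := Matrix.of fun j i => S.v (b i) (q j))).mp h4
  rw [Matrix.isUnit_iff_isUnit_det, isUnit_iff_ne_zero, ← Matrix.det_transpose] at h6
  exact h6

/-- a basis of a finite dimensional space -/
theorem exists_bas (W : Submodule K R) [FiniteDimensional K W] :
    ∃ (d : ℕ) (b : Fin d → R), LinearIndependent K b ∧ (∀ i, b i ∈ W) ∧ span K (Set.range b) = W := by
  let b := finBasis K W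
  have hb : LinearIndependent K (fun i => (b i : R)) := b.linearIndependent.map' W.subtype (Submodule.ker_subtype _)
  refine ⟨_, fun i => (b i : R), hb, fun i => (b i).2, ?_⟩
  have h3 : Set.range (fun i => (b i : R)) = W.subtype '' Set.range b := by
    rw [← Set.range_comp]
    rfl
  rw [h3, Submodule.span_image, b.span_eq, Submodule.map_top, Submodule.range_subtype]

theorem fin_rt (f : R) : FiniteDimensional K (span K (Set.range fun g : G => S.rt g f)) := by
  obtain ⟨W, h1, h2, h3, h4, -⟩ := S.fin f
  refine Submodule.finiteDimensional_of_le (S₂ := W) (span_le.mpr ?_)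
  rintro _ ⟨g, rfl⟩
  exact h4 g f h2

theorem fin_lt (f : R) : FiniteDimensional K (span K (Set.range fun g : G => S.lt g f)) := by
  obtain ⟨W, h1, h2, h3, h4, -⟩ := S.fin f
  refine Submodule.finiteDimensional_of_le (S₂ := W) (span_le.mpr ?_)
  rintro _ ⟨g, rfl⟩
  exact h3 g f h2

/-- coefficients: if all right translates of `f` are in the span of `b` then they are combinations of the `b k` with
coefficients in the span of the left translates of `f` -/
theorem coef_rt {d : ℕ} {b : Fin d → R} (hb : LinearIndependent K b) {f : R}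
    (hf : ∀ g, S.rt g f ∈ span K (Set.range b)) :
    ∃ c : Fin d → R, (∀ k, c k ∈ span K (Set.range fun g : G => S.lt g f)) ∧
      ∀ g, S.rt g f = ∑ k, S.v (c k) g • b k := by
  classical
  obtain ⟨q, hq⟩ := S.exists_pts hb
  obtain ⟨M, hM⟩ : ∃ M : Matrix (Fin d) (Fin d) K, M = Matrix.of fun i j => S.v (b i) (q j) := ⟨_, rfl⟩
  have hMu : IsUnit M.det := by
    rw [hM]
    exact isUnit_iff_ne_zero.mpr hq
  refine ⟨fun k => ∑ j, M⁻¹ j k • S.lt (q j) f, fun k => ?_, fun g => ?_⟩
  · exact sum_mem fun j _ => smul_mem _ _ (subset_span ⟨q j, rfl⟩)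
  · obtain ⟨γ, hγ⟩ := (mem_span_range_iff_exists_fun K).mp (hf g)
    rw [← hγ]
    refine Finset.sum_congr rfl fun k _ => ?_
    congr 1
    -- the values at the points
    have h1 : ∀ j, S.v (S.lt (q j) f) g = ∑ i, γ i * M i j := fun j => by
      rw [S.v_lt, ← S.v_rt, ← hγ, map_sum, Finset.sum_apply]
      refine Finset.sum_congr rfl fun i _ => ?_
      rw [S.v_smul, hM]
      rfl
    rw [map_sum, Finset.sum_apply]
    have h2 : ∀ j, S.v (M⁻¹ j k • S.lt (q j) f) g = ∑ i, γ i * (M i j * M⁻¹ j k) := fun j => by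
      rw [S.v_smul, h1, Finset.mul_sum]
      exact Finset.sum_congr rfl fun i _ => by ring
    simp only [h2]
    rw [Finset.sum_comm]
    have h3 : ∀ i, ∑ j, γ i * (M i j * M⁻¹ j k) = γ i * (1 : Matrix (Fin d) (Fin d) K) i k := fun i => by
      rw [← Finset.mul_sum, ← Matrix.mul_apply, Matrix.mul_nonsing_inv _ hMu]
    simp only [h3]
    rw [Finset.sum_eq_single k]
    · rw [Matrix.one_apply_eq, mul_one]
    · intro i _ hi
      rw [Matrix.one_apply_ne hi, mul_zero]
    · intro h
      exact absurd (Finset.mem_univ k) h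

/-- the comultiplication of an element -/
theorem comul (f : R) : ∃ (d : ℕ) (b c : Fin d → R), (∀ k, b k ∈ span K (Set.range fun g : G => S.rt g f)) ∧
    (∀ k, c k ∈ span K (Set.range fun g : G => S.lt g f)) ∧ ∀ g, S.rt g f = ∑ k, S.v (c k) g • b k := by
  have := S.fin_rt f
  obtain ⟨_, b, h1, h2, h3⟩ := exists_bas (span K (Set.range fun g : G => S.rt g f))
  obtain ⟨c, h4, h5⟩ := S.coef_rt h1 (f := f) fun g => by
    rw [h3]
    exact subset_span ⟨g, rfl⟩
  exact ⟨_, b, c, h2, h4, h5⟩

end Fn

end Pool.Agent.Q280.TG
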