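import Pool.Agent.Q280.TG.A

/-!
# Invariants of normal subgroups: rational invariants are quotients of invariants
-/

set_option autoImplicit false

open Module Submodule

namespace Pool.Agent.Q280.TG.Fn

variable {K G E R : Type} [Field K] [Group G] [CommRing R] [Algebra K R] (S : Fn K G E R)

/-- subalgebras stable under translations and inversion -/
structure IsCat (A : Subalgebra K R) : Prop where
  lt : ∀ g, ∀ f ∈ A, S.lt g f ∈ A
  rt : ∀ g, ∀ f ∈ A, S.rt g f ∈ A
  iv : ∀ f ∈ A, S.iv f ∈ A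

variable {S}

theorem IsCat.span_rt {A : Subalgebra K R} (hA : S.IsCat A) {f : R} (hf : f ∈ A) :
    span K (Set.range fun g : G => S.rt g f) ≤ Subalgebra.toSubmodule A := by
  rw [span_le]
  rintro _ ⟨g, rfl⟩
  exact hA.rt g f hf

theorem IsCat.span_lt {A : Subalgebra K R} (hA : S.IsCat A) {f : R} (hf : f ∈ A) :
    span K (Set.range fun g : G => S.lt g f) ≤ Subalgebra.toSubmodule A := by
  rw [span_le]
  rintro _ ⟨g, rfl⟩
  exact hA.lt g f hf

/-- some translate of a nonzero element is not killed by a homomorphism -/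
theorem IsCat.exists_rt {A : Subalgebra K R} (hA : S.IsCat A) {F : Type} [Semiring F] [Algebra K F] [Nontrivial F]
    (φ : A →ₐ[K] F) {c : R} (hc : c ∈ A) (h0 : c ≠ 0) : ∃ q : G, φ ⟨S.rt q c, hA.rt q c hc⟩ ≠ 0 := by
  by_contra hcon
  push Not at hcon
  obtain ⟨d, b, γ, hb, hγ, h⟩ := S.comul c
  have hbA : ∀ k, b k ∈ A := fun k => hA.span_rt hc (hb k)
  have hγA : ∀ k, γ k ∈ A := fun k => hA.span_lt hc (hγ k)
  -- `φ` kills the `b k`
  have h1 : ∀ x (hx : x ∈ span K (Set.range fun g : G => S.rt g c)), φ ⟨x, hA.span_rt hc hx⟩ = 0 := by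
    intro x hx
    induction hx using Submodule.span_induction with
    | mem x hx =>
      obtain ⟨g, rfl⟩ := hx
      exact hcon g
    | zero => exact map_zero φ
    | add x y hx hy ihx ihy =>
      have : (⟨x + y, hA.span_rt hc (add_mem hx hy)⟩ : A) = ⟨x, hA.span_rt hc hx⟩ + ⟨y, hA.span_rt hc hy⟩ := rfl
      rw [this, map_add, ihx, ihy, add_zero]
    | smul a x hx ihx =>
      have : (⟨a • x, hA.span_rt hc (smul_mem _ _ hx)⟩ : A) = a • ⟨x, hA.span_rt hc hx⟩ := rfl
      rw [this, map_smul, ihx, smul_zero]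
  apply h0
  refine S.ext fun y => ?_
  rw [map_zero, Pi.zero_apply]
  -- the constant `c(y)`
  have h2 : algebraMap K R (S.v c y) = ∑ k, b k * S.iv (S.rt y (γ k)) := S.ext fun x => by
    rw [S.v_algebraMap, map_sum, Finset.sum_apply]
    have h3 : S.v c y = S.v (S.rt (x⁻¹ * y) c) x := by
      rw [S.v_rt, mul_inv_cancel_left]
    rw [h3, h, map_sum, Finset.sum_apply]
    refine Finset.sum_congr rfl fun k _ => ?_
    rw [S.v_smul, map_mul, Pi.mul_apply, S.v_iv, S.v_rt, mul_comm]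
  have h4 : (⟨algebraMap K R (S.v c y), A.algebraMap_mem _⟩ : A) =
      ∑ k, (⟨b k, hbA k⟩ : A) * ⟨S.iv (S.rt y (γ k)), hA.iv _ (hA.rt _ _ (hγA k))⟩ := by
    apply Subtype.ext
    rw [AddSubmonoidClass.coe_finsetSum]
    exact h2
  have h5 := congrArg φ h4
  rw [map_sum] at h5
  simp only [map_mul, h1 _ (hb _), zero_mul, Finset.sum_const_zero] at h5
  have h6 : (⟨algebraMap K R (S.v c y), A.algebraMap_mem _⟩ : A) = algebraMap K A (S.v c y) := rfl
  rw [h6, AlgHom.commutes] at h5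
  exact (map_eq_zero (algebraMap K F)).mp h5

variable (S)

theorem exists_rt {F : Type} [Semiring F] [Algebra K F] [Nontrivial F] (φ : R →ₐ[K] F) {c : R} (h0 : c ≠ 0) :
    ∃ q : G, φ (S.rt q c) ≠ 0 :=
  IsCat.exists_rt (S := S) (A := ⊤) ⟨fun _ _ _ => trivial, fun _ _ _ => trivial, fun _ _ => trivial⟩
    (φ.comp (Subalgebra.val _)) trivial h0

/-- the invariants of a group of left translations -/
def Inv (N : Subgroup G) : Subalgebra K R where
  carrier := {f | ∀ n ∈ N, S.lt n f = f}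
  mul_mem' := fun {a b} ha hb n hn => by rw [map_mul, ha n hn, hb n hn]
  add_mem' := fun {a b} ha hb n hn => by rw [map_add, ha n hn, hb n hn]
  algebraMap_mem' := fun c n _ => AlgHom.commutes _ c

theorem mem_Inv {N : Subgroup G} {f : R} : f ∈ S.Inv N ↔ ∀ n ∈ N, S.lt n f = f := Iff.rfl

theorem Inv_lt {N : Subgroup G} [N.Normal] {f : R} (hf : f ∈ S.Inv N) (g : G) : S.lt g f ∈ S.Inv N := fun n hn => by
  have h1 : g * n * g⁻¹ ∈ N := Subgroup.Normal.conj_mem ‹_› n hn g
  rw [S.lt_lt]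
  have h2 : g * n = (g * n * g⁻¹) * g := by group
  rw [h2, ← S.lt_lt, hf _ h1]

theorem Inv_sup {N₁ N₂ : Subgroup G} : S.Inv (N₁ ⊔ N₂) = S.Inv N₁ ⊓ S.Inv N₂ := by
  ext f
  constructor
  · exact fun h => ⟨fun n hn => h n (le_sup_left (a := N₁) (b := N₂) hn), fun n hn => h n (le_sup_right (a := N₁) hn)⟩
  · rintro ⟨h1, h2⟩
    obtain ⟨T, hT⟩ : ∃ T : Subgroup G, ∀ g, g ∈ T ↔ S.lt g f = f :=
      ⟨{ carrier := {g | S.lt g f = f}
         mul_mem' := fun {a b} ha hb => by
           rw [Set.mem_ofPred_eq] at ha hb ⊢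
           rw [← S.lt_lt, ha, hb]
         one_mem' := S.lt_one f
         inv_mem' := fun {a} ha => by
           rw [Set.mem_ofPred_eq] at ha ⊢
           apply S.lt_inj a
           rw [S.lt_lt, inv_mul_cancel, S.lt_one, ha] }, fun _ => Iff.rfl⟩
    have h3 : N₁ ⊔ N₂ ≤ T := sup_le (fun n hn => (hT n).mpr (h1 n hn)) (fun n hn => (hT n).mpr (h2 n hn))
    exact fun n hn => (hT n).mp (h3 hn)

/-! ### Semi-invariants -/

variable {S}

/-- the determinant of a matrix which is transformed by a matrix of constants -/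
theorem lt_det {d : ℕ} {X : Matrix (Fin d) (Fin d) R} {C : Matrix (Fin d) (Fin d) K} {g : G}
    (h : ∀ i j, S.lt g (X i j) = ∑ k, C i k • X k j) : S.lt g X.det = C.det • X.det := by
  have h1 : (S.lt g).toRingHom.mapMatrix X = (C.map (algebraMap K R)) * X := by
    ext i j
    rw [Matrix.mul_apply]
    refine (h i j).trans (Finset.sum_congr rfl fun k _ => ?_)
    rw [Matrix.map_apply, Algebra.smul_def]
  have h2 : S.lt g X.det = ((S.lt g).toRingHom.mapMatrix X).det := by
    rw [← RingHom.map_det]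
    rfl
  rw [h2, h1, Matrix.det_mul, Algebra.smul_def]
  congr 1
  exact ((algebraMap K R).map_det C).symm

variable [IsDomain R]

/-- the character of a semi-invariant is invariant under conjugation -/
theorem char_inv {N : Subgroup G} [N.Normal] {s : R} (hs : s ≠ 0) {χ : G → K} (h : ∀ n ∈ N, S.lt n s = χ n • s)
    (g : G) {n : G} (hn : n ∈ N) : χ (g * n * g⁻¹) = χ n := by
  classical
  -- the action on the translates
  have h1 : ∀ m ∈ N, ∀ x : G, S.lt m (S.lt x s) = χ (x * m * x⁻¹) • S.lt x s := fun m hm x => by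
    have h2 : x * m * x⁻¹ ∈ N := Subgroup.Normal.conj_mem ‹_› m hm x
    rw [S.lt_lt]
    have h3 : x * m = (x * m * x⁻¹) * x := by group
    conv_lhs => rw [h3, ← S.lt_lt, h _ h2, map_smul]
  -- only finitely many values
  have key : ∀ m ∈ N, ∃ μ : K, ∀ x, S.v s x ≠ 0 → χ (x * m * x⁻¹) = μ := by
    intro m hm
    have hV := S.fin_lt s
    set V := span K (Set.range fun g : G => S.lt g s) with hVdef
    have hst : ∀ w ∈ V, S.lt m w ∈ V := by
      intro w hw
      induction hw using Submodule.span_induction with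
      | mem w hw =>
        obtain ⟨x, rfl⟩ := hw
        change S.lt m (S.lt x s) ∈ V
        rw [S.lt_lt]
        exact subset_span ⟨_, rfl⟩
      | zero =>
        rw [map_zero]
        exact zero_mem _
      | add x y _ _ ihx ihy =>
        rw [map_add]
        exact add_mem ihx ihy
      | smul a x _ ihx =>
        rw [map_smul]
        exact smul_mem _ _ ihx
    let T : End K V := ((S.lt m).toLinearMap).restrict hst
    have hfin : {μ : K | T.HasEigenvalue μ}.Finite := Module.End.finite_hasEigenvalue T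
    have hev : ∀ x, χ (x * m * x⁻¹) ∈ {μ : K | T.HasEigenvalue μ} := by
      intro x
      refine Module.End.hasEigenvalue_of_hasEigenvector (x := ⟨S.lt x s, subset_span ⟨x, rfl⟩⟩) ⟨?_, ?_⟩
      · rw [Module.End.mem_eigenspace_iff]
        exact Subtype.ext (h1 m hm x)
      · intro h0
        have h2 : S.lt x s = 0 := congrArg Subtype.val h0
        exact hs (S.lt_inj x (by rw [h2, map_zero]))
    have h2 : ∏ μ ∈ hfin.toFinset, (S.rt m s - μ • s) = 0 := S.ext fun x => by
      rw [map_prod, Finset.prod_apply, map_zero, Pi.zero_apply]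
      refine Finset.prod_eq_zero (hfin.mem_toFinset.mpr (hev x)) ?_
      have h3 : x * m * x⁻¹ ∈ N := Subgroup.Normal.conj_mem ‹_› m hm x
      have h4 : S.v (S.lt (x * m * x⁻¹) s) x = χ (x * m * x⁻¹) * S.v s x := by rw [h _ h3, S.v_smul]
      rw [S.v_lt, inv_mul_cancel_right] at h4
      rw [map_sub, Pi.sub_apply, S.v_rt, S.v_smul, h4, sub_self]
    obtain ⟨μ, -, hμ⟩ := Finset.prod_eq_zero_iff.mp h2
    refine ⟨μ, fun x hx => ?_⟩
    have h3 : x * m * x⁻¹ ∈ N := Subgroup.Normal.conj_mem ‹_› m hm x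
    have h4 : S.v (S.lt (x * m * x⁻¹) s) x = χ (x * m * x⁻¹) * S.v s x := by rw [h _ h3, S.v_smul]
    rw [S.v_lt, inv_mul_cancel_right] at h4
    have h5 : S.v (S.rt m s - μ • s) x = 0 := by rw [hμ, map_zero]; rfl
    rw [map_sub, Pi.sub_apply, S.v_rt, S.v_smul, h4, ← sub_mul] at h5
    exact sub_eq_zero.mp ((mul_eq_zero.mp h5).resolve_right hx)
  -- a point at which `s` and `s(g ·)` do not vanish
  have h2 : s * S.lt g s ≠ 0 := mul_ne_zero hs fun h0 => hs (S.lt_inj g (by rw [h0, map_zero]))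
  obtain ⟨x, hx⟩ : ∃ x, S.v (s * S.lt g s) x ≠ 0 := by
    by_contra hcon
    push Not at hcon
    exact h2 (S.ext fun x => by rw [hcon, map_zero]; rfl)
  rw [map_mul, Pi.mul_apply, S.v_lt] at hx
  have hm : x⁻¹ * n * x ∈ N := by
    have := Subgroup.Normal.conj_mem ‹_› n hn x⁻¹
    rwa [inv_inv] at this
  obtain ⟨μ, hμ⟩ := key _ hm
  have h3 := hμ x (left_ne_zero_of_mul hx)
  have h4 := hμ (g * x) (right_ne_zero_of_mul hx)
  have e1 : x * (x⁻¹ * n * x) * x⁻¹ = n := by group
  have e2 : g * x * (x⁻¹ * n * x) * (g * x)⁻¹ = g * n * g⁻¹ := by group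
  rw [e1] at h3
  rw [e2] at h4
  rw [h3, h4]

/-- a power of the character of a semi-invariant is the restriction of a character of the whole group -/
theorem char_ext {N : Subgroup G} [N.Normal] {s : R} (hs : s ≠ 0) {χ : G → K} (h : ∀ n ∈ N, S.lt n s = χ n • s) :
    ∃ (m : ℕ) (u : R), 0 < m ∧ u ≠ 0 ∧ (∀ n ∈ N, χ n ^ m • S.lt n u = u) ∧ (∀ x, S.v u x ≠ 0) ∧
      ∀ C : Subalgebra K R, S.IsCat C → s ∈ C → u ∈ C := by
  classical
  have hV := S.fin_lt s
  obtain ⟨d, b, h1, h2, h3⟩ := exists_bas (span K (Set.range fun g : G => S.lt g s))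
  have hd0 : 0 < d := by
    by_contra hd
    obtain rfl : d = 0 := by omega
    have h4 : s ∈ span K (Set.range fun g : G => S.lt g s) := subset_span ⟨1, S.lt_one s⟩
    rw [← h3, Set.range_eq_empty, span_empty, mem_bot] at h4
    exact hs h4
  -- the translates of `b`
  have h4 : ∀ g i, S.lt g (b i) ∈ span K (Set.range b) := by
    intro g i
    rw [h3]
    have h5 := h2 i
    generalize b i = w at h5
    induction h5 using Submodule.span_induction with
    | mem w hw =>
      obtain ⟨x, rfl⟩ := hw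
      change S.lt g (S.lt x s) ∈ _
      rw [S.lt_lt]
      exact subset_span ⟨_, rfl⟩
    | zero =>
      rw [map_zero]
      exact zero_mem _
    | add x y _ _ ihx ihy =>
      rw [map_add]
      exact add_mem ihx ihy
    | smul a x _ ihx =>
      rw [map_smul]
      exact smul_mem _ _ ihx
  -- `N` acts on `b` by the character
  have h5 : ∀ n ∈ N, ∀ i, S.lt n (b i) = χ n • b i := by
    intro n hn i
    have h6 := h2 i
    generalize b i = w at h6
    induction h6 using Submodule.span_induction with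
    | mem w hw =>
      obtain ⟨x, rfl⟩ := hw
      have h7 : x * n * x⁻¹ ∈ N := Subgroup.Normal.conj_mem ‹_› n hn x
      change S.lt n (S.lt x s) = χ n • S.lt x s
      rw [S.lt_lt]
      have h8 : x * n = (x * n * x⁻¹) * x := by group
      conv_lhs => rw [h8, ← S.lt_lt, h _ h7, map_smul, char_inv hs h x hn]
    | zero => rw [map_zero, smul_zero]
    | add x y _ _ ihx ihy => rw [map_add, ihx, ihy, smul_add]
    | smul a x _ ihx => rw [map_smul, ihx, smul_comm]
  obtain ⟨q, hq⟩ := S.exists_pts h1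
  obtain ⟨Ψ, hΨ⟩ : ∃ Ψ : R, Ψ = (Matrix.of fun i j => S.rt (q j) (b i)).det := ⟨_, rfl⟩
  have hΨ1 : S.v Ψ 1 ≠ 0 := by
    have h6 : S.v Ψ 1 = (Matrix.of fun i j => S.v (b i) (q j)).det := by
      rw [hΨ, ← S.at'_apply, AlgHom.map_det]
      congr 1
      ext i j
      change S.v (S.rt (q j) (b i)) 1 = _
      rw [S.v_rt, one_mul]
      rfl
    rwa [h6]
  -- `Ψ` is a character up to a constant
  have h6 : ∀ g, S.lt g Ψ = (S.v Ψ g / S.v Ψ 1) • Ψ := by
    intro g
    choose C hC using fun i => (mem_span_range_iff_exists_fun K).mp (h4 g i)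
    have h7 : S.lt g Ψ = (Matrix.of C).det • Ψ := by
      rw [hΨ]
      refine lt_det fun i j => ?_
      change S.lt g (S.rt (q j) (b i)) = ∑ k, C i k • S.rt (q j) (b k)
      rw [S.lt_rt, ← hC, map_sum]
      exact Finset.sum_congr rfl fun k _ => map_smul _ _ _
    have h8 : S.v Ψ g = (Matrix.of C).det * S.v Ψ 1 := by
      rw [← S.v_smul, ← h7, S.v_lt, mul_one]
    rw [h7, h8, mul_div_cancel_right₀ _ hΨ1]
  have h7 : ∀ n ∈ N, S.v Ψ n = χ n ^ d * S.v Ψ 1 := by
    intro n hn
    have h8 : S.lt n Ψ = (Matrix.diagonal fun _ : Fin d => χ n).det • Ψ := by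
      rw [hΨ]
      refine lt_det fun i j => ?_
      change S.lt n (S.rt (q j) (b i)) = ∑ k, (Matrix.diagonal fun _ : Fin d => χ n) i k • S.rt (q j) (b k)
      rw [S.lt_rt, h5 n hn i, map_smul, Finset.sum_eq_single i]
      · rw [Matrix.diagonal_apply_eq]
      · intro k _ hk
        rw [Matrix.diagonal_apply_ne _ hk.symm, zero_smul]
      · intro h
        exact absurd (Finset.mem_univ i) h
    rw [Matrix.det_diagonal, Finset.prod_const, Finset.card_univ, Fintype.card_fin] at h8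
    rw [← S.v_smul, ← h8, S.v_lt, mul_one]
  have hΨn : ∀ x, S.v Ψ x ≠ 0 := by
    intro x h0
    have h8 := congrArg (fun f => S.v f x⁻¹) (h6 x)
    simp only [S.v_lt, S.v_smul, mul_inv_cancel, h0, zero_div, zero_mul] at h8
    exact hΨ1 h8
  refine ⟨d, S.iv Ψ, hd0, fun h0 => hΨ1 ?_, fun n hn => S.ext fun x => ?_, fun x => ?_, fun C hC hsC => ?_⟩
  · have h8 := congrArg (fun f => S.v f 1) h0
    simpa [S.v_iv] using h8
  · rw [S.v_smul, S.v_lt, S.v_iv, S.v_iv, mul_inv_rev]
    -- the value at `x⁻¹ n⁻¹`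
    have h8 : S.v Ψ (x⁻¹ * n⁻¹) = S.v Ψ x⁻¹ / S.v Ψ 1 * S.v Ψ n⁻¹ := by
      rw [← S.v_smul, ← h6, S.v_lt]
    have h9 : S.v Ψ 1 = S.v Ψ n / S.v Ψ 1 * S.v Ψ n⁻¹ := by
      rw [← S.v_smul, ← h6, S.v_lt, mul_inv_cancel]
    rw [h7 n hn, mul_div_cancel_right₀ _ hΨ1] at h9
    rw [h8]
    field_simp
    linear_combination (-S.v Ψ x⁻¹) * h9
  · rw [S.v_iv]
    exact hΨn _
  · refine hC.iv _ ?_
    rw [hΨ, Matrix.det_apply]
    refine sum_mem fun σ _ => ?_
    have h8 : ∏ i, (Matrix.of fun i j => S.rt (q j) (b i)) (σ i) i ∈ C :=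
      prod_mem fun i _ => hC.rt _ _ (hC.span_lt hsC (h2 _))
    exact zsmul_mem h8 _

/-- **Rational invariants of a normal subgroup are quotients of invariants.** -/
theorem quotient_inv {N : Subgroup G} [N.Normal] {a b : R} (hb : b ≠ 0) (h : ∀ n ∈ N, a * S.lt n b = b * S.lt n a) :
    ∃ P ∈ S.Inv N, ∃ Q ∈ S.Inv N, Q ≠ 0 ∧ a * Q = b * P := by
  classical
  have hV := S.fin_lt b
  -- the span of the translates by elements of `N`
  set W := span K (Set.range fun n : N => S.lt (n : G) b) with hW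
  have hWf : FiniteDimensional K W := by
    refine Submodule.finiteDimensional_of_le (S₂ := span K (Set.range fun g : G => S.lt g b)) (span_mono ?_)
    rintro _ ⟨n, rfl⟩
    exact ⟨n, rfl⟩
  obtain ⟨d, w, h1, h2, h3⟩ := exists_bas W
  have hd0 : 0 < d := by
    by_contra hd
    obtain rfl : d = 0 := by omega
    have h4 : b ∈ W := subset_span ⟨1, S.lt_one b⟩
    rw [← h3, Set.range_eq_empty, span_empty, mem_bot] at h4
    exact hb h4
  -- the numerators
  have h4 : ∀ x ∈ W, ∃ y, y * b = a * x := by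
    intro x hx
    induction hx using Submodule.span_induction with
    | mem x hx =>
      obtain ⟨n, rfl⟩ := hx
      exact ⟨S.lt n a, by rw [h n n.2, mul_comm]⟩
    | zero => exact ⟨0, by rw [zero_mul, mul_zero]⟩
    | add x y _ _ ihx ihy =>
      obtain ⟨x', hx'⟩ := ihx
      obtain ⟨y', hy'⟩ := ihy
      exact ⟨x' + y', by rw [add_mul, hx', hy', mul_add]⟩
    | smul c x _ ihx =>
      obtain ⟨x', hx'⟩ := ihx
      exact ⟨c • x', by rw [smul_mul_assoc, hx', mul_smul_comm]⟩
  choose y hy using fun i => h4 (w i) (h2 i)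
  -- the translates of `w`
  have h5 : ∀ n ∈ N, ∀ i, S.lt n (w i) ∈ span K (Set.range w) := by
    intro n hn i
    rw [h3]
    have h6 := h2 i
    generalize w i = x at h6
    induction h6 using Submodule.span_induction with
    | mem x hx =>
      obtain ⟨m, rfl⟩ := hx
      change S.lt n (S.lt m b) ∈ _
      rw [S.lt_lt]
      exact subset_span ⟨⟨m * n, mul_mem m.2 hn⟩, rfl⟩
    | zero =>
      rw [map_zero]
      exact zero_mem _
    | add x y _ _ ihx ihy =>
      rw [map_add]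
      exact add_mem ihx ihy
    | smul a x _ ihx =>
      rw [map_smul]
      exact smul_mem _ _ ihx
  have hC : ∀ n : N, ∃ C : Matrix (Fin d) (Fin d) K, ∀ i, S.lt (n : G) (w i) = ∑ k, C i k • w k := by
    intro n
    choose C hC using fun i => (mem_span_range_iff_exists_fun K).mp (h5 n n.2 i)
    exact ⟨Matrix.of C, fun i => (hC i).symm⟩
  choose C hC using hC
  have hCy : ∀ (n : N) i, S.lt (n : G) (y i) = ∑ k, C n i k • y k := by
    intro n i
    have hbn : S.lt (n : G) b ≠ 0 := fun h0 => hb (S.lt_inj _ (by rw [h0, map_zero]))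
    have e1 : S.lt (n : G) (y i) * S.lt (n : G) b = S.lt (n : G) a * S.lt (n : G) (w i) := by
      rw [← map_mul, hy, map_mul]
    have e2 : S.lt (n : G) (y i) * b = a * S.lt (n : G) (w i) := by
      apply mul_left_cancel₀ hbn
      linear_combination b * e1 - S.lt (n : G) (w i) * h n n.2
    apply mul_right_cancel₀ hb
    rw [e2, hC, Finset.mul_sum, Finset.sum_mul]
    refine Finset.sum_congr rfl fun k _ => ?_
    rw [smul_mul_assoc, hy, mul_smul_comm]
  -- determinants
  obtain ⟨q, hq⟩ := S.exists_pts h1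
  obtain ⟨j₀⟩ : Nonempty (Fin d) := ⟨⟨0, hd0⟩⟩
  obtain ⟨X, hX⟩ : ∃ X : Matrix (Fin d) (Fin d) R, X = Matrix.of fun i j => S.rt (q j) (w i) := ⟨_, rfl⟩
  obtain ⟨X', hX'⟩ : ∃ X' : Matrix (Fin d) (Fin d) R, X' = X.updateCol j₀ fun i => S.rt (q j₀) (y i) := ⟨_, rfl⟩
  have hdet : X.det ≠ 0 := by
    intro h0
    apply hq
    have h6 : S.v X.det 1 = (Matrix.of fun i j => S.v (w i) (q j)).det := by
      rw [← S.at'_apply, AlgHom.map_det]
      congr 1
      ext i j
      rw [hX]
      change S.v (S.rt (q j) (w i)) 1 = _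
      rw [S.v_rt, one_mul]
      rfl
    rw [← h6, h0, map_zero]
    rfl
  have hX1 : ∀ n : N, S.lt (n : G) X.det = (C n).det • X.det := by
    intro n
    refine lt_det fun i j => ?_
    rw [hX]
    change S.lt (n : G) (S.rt (q j) (w i)) = ∑ k, C n i k • S.rt (q j) (w k)
    rw [S.lt_rt, hC, map_sum]
    exact Finset.sum_congr rfl fun k _ => map_smul _ _ _
  have hX2 : ∀ n : N, S.lt (n : G) X'.det = (C n).det • X'.det := by
    intro n
    refine lt_det fun i j => ?_
    rw [hX']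
    by_cases hj : j = j₀
    · subst hj
      simp only [Matrix.updateCol_self]
      rw [S.lt_rt, hCy, map_sum]
      exact Finset.sum_congr rfl fun k _ => map_smul _ _ _
    · simp only [Matrix.updateCol_ne hj]
      rw [hX]
      change S.lt (n : G) (S.rt (q j) (w i)) = ∑ k, C n i k • S.rt (q j) (w k)
      rw [S.lt_rt, hC, map_sum]
      exact Finset.sum_congr rfl fun k _ => map_smul _ _ _
  have hXX : X'.det * S.rt (q j₀) b = X.det * S.rt (q j₀) a := by
    have e1 : (X.updateCol j₀ fun i => S.rt (q j₀) (y i) * S.rt (q j₀) b).det = S.rt (q j₀) b * X'.det := by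
      rw [hX', ← Matrix.det_updateCol_smul]
      congr 2
      ext i
      rw [Pi.smul_apply, smul_eq_mul, mul_comm]
    have e2 : (X.updateCol j₀ fun i => S.rt (q j₀) a * S.rt (q j₀) (w i)).det = S.rt (q j₀) a * X.det := by
      have e3 : (fun i => S.rt (q j₀) a * S.rt (q j₀) (w i)) = S.rt (q j₀) a • fun i => X i j₀ := by
        ext i
        rw [hX]
        rfl
      rw [e3, Matrix.det_updateCol_smul, Matrix.updateCol_eq_self]
    have e4 : (fun i => S.rt (q j₀) (y i) * S.rt (q j₀) b) = fun i => S.rt (q j₀) a * S.rt (q j₀) (w i) := by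
      ext i
      rw [← map_mul, ← map_mul, hy]
    rw [e4, e2] at e1
    rw [mul_comm, ← e1, mul_comm]
  -- the semi-invariants
  obtain ⟨s, hs⟩ : ∃ s, s = S.rt (q j₀)⁻¹ X.det := ⟨_, rfl⟩
  obtain ⟨s', hs'⟩ : ∃ s', s' = S.rt (q j₀)⁻¹ X'.det := ⟨_, rfl⟩
  have hs0 : s ≠ 0 := by
    rw [hs]
    exact fun h0 => hdet (S.rt_inj _ (by rw [h0, map_zero]))
  have hss : s' * b = s * a := by
    have h6 := congrArg (S.rt (q j₀)⁻¹) hXX
    rw [map_mul, map_mul, ← hs, ← hs', S.rt_rt, S.rt_rt, inv_mul_cancel, S.rt_one, S.rt_one] at h6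
    exact h6
  obtain ⟨χ, hχ⟩ : ∃ χ : G → K, ∀ n : N, χ n = (C n).det :=
    ⟨fun g => if hg : g ∈ N then (C ⟨g, hg⟩).det else 0, fun n => dif_pos n.2⟩
  have hs1 : ∀ n ∈ N, S.lt n s = χ n • s := by
    intro n hn
    have h6 := hX1 ⟨n, hn⟩
    rw [hs, S.lt_rt, h6, map_smul, ← hχ ⟨n, hn⟩]
  have hs2 : ∀ n ∈ N, S.lt n s' = χ n • s' := by
    intro n hn
    have h6 := hX2 ⟨n, hn⟩
    rw [hs', S.lt_rt, h6, map_smul, ← hχ ⟨n, hn⟩]
  obtain ⟨m, u, hm, hu, hu1, -, -⟩ := char_ext hs0 hs1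
  obtain ⟨m', rfl⟩ : ∃ m', m = m' + 1 := ⟨m - 1, by omega⟩
  refine ⟨s' * s ^ m' * u, fun n hn => ?_, s ^ (m' + 1) * u, fun n hn => ?_, mul_ne_zero (pow_ne_zero _ hs0) hu, ?_⟩
  · conv_rhs => rw [← hu1 n hn]
    rw [map_mul, map_mul, map_pow, hs1 n hn, hs2 n hn]
    simp only [smul_pow, Algebra.smul_mul_assoc, Algebra.mul_smul_comm, smul_smul, pow_succ]
  · conv_rhs => rw [← hu1 n hn]
    rw [map_mul, map_pow, hs1 n hn]
    simp only [smul_pow, Algebra.smul_mul_assoc, Algebra.mul_smul_comm]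
  · rw [pow_succ]
    linear_combination (-s ^ m' * u) * hss

end Pool.Agent.Q280.TG.Fn
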