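import Mathlib

/-!
# Extension of homomorphisms to an algebraically closed field
-/

set_option autoImplicit false
set_option linter.unusedSectionVars false

open Polynomial

namespace Pool.Agent.Q280.TG

section Step

variable {K A B : Type} [Field K] [CommRing A] [CommRing B] [IsDomain A] [IsDomain B] [Algebra K A] [Algebra K B]
  [Algebra A B] [IsScalarTower K A B]

/-- pseudo-division -/
theorem pseudo (f : A[X]) (hf : 0 < f.natDegree) (g : A[X]) :
    ∃ (k : ℕ) (q r : A[X]), C (f.leadingCoeff ^ k) * g = q * f + r ∧ r.natDegree < f.natDegree := by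
  induction hn : g.natDegree using Nat.strong_induction_on generalizing g with
  | _ n ih =>
    by_cases h1 : n < f.natDegree
    · exact ⟨0, 0, g, by simp, by rw [hn]; exact h1⟩
    · push Not at h1
      obtain ⟨g', hg'⟩ : ∃ g' : A[X], g' = C f.leadingCoeff * g - C g.leadingCoeff * X ^ (n - f.natDegree) * f :=
        ⟨_, rfl⟩
      have h2 : g'.natDegree < n := by
        have hn0 : 0 < n := lt_of_lt_of_le hf h1
        have h3 : g'.natDegree ≤ n := by
          rw [hg']
          refine (natDegree_sub_le _ _).trans (max_le ?_ ?_)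
          · refine (natDegree_C_mul_le _ _).trans ?_
            rw [hn]
          · refine (natDegree_mul_le).trans ?_
            have := natDegree_C_mul_X_pow_le g.leadingCoeff (n - f.natDegree)
            omega
        have h4 : g'.coeff n = 0 := by
          rw [hg', coeff_sub, coeff_C_mul, mul_assoc, coeff_C_mul]
          have h5 : (X ^ (n - f.natDegree) * f).coeff n = f.leadingCoeff := by
            rw [coeff_X_pow_mul', if_pos (by omega)]
            congr 1
            omega
          rw [h5, ← hn, coeff_natDegree]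
          ring
        rcases h3.lt_or_eq with h5 | h5
        · exact h5
        · have h6 : g'.leadingCoeff = 0 := by rw [leadingCoeff, h5, h4]
          rw [leadingCoeff_eq_zero] at h6
          rw [h6, natDegree_zero]
          exact hn0
      obtain ⟨k, q, r, h3, h4⟩ := ih _ h2 g' rfl
      refine ⟨k + 1, q + C (f.leadingCoeff ^ k) * (C g.leadingCoeff * X ^ (n - f.natDegree)), r, ?_, h4⟩
      have h5 : C (f.leadingCoeff ^ (k + 1)) * g =
          C (f.leadingCoeff ^ k) * g' +
            C (f.leadingCoeff ^ k) * (C g.leadingCoeff * X ^ (n - f.natDegree)) * f := by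
        rw [hg', pow_succ, C_mul]
        ring
      rw [h5, h3]
      ring

/-- a homomorphism on the polynomials -/
noncomputable def th (φ : A →ₐ[K] K) (t : K) : A[X] →ₐ[K] K := (aeval t : K[X] →ₐ[K] K).comp (mapAlgHom φ)

theorem th_apply (φ : A →ₐ[K] K) (t : K) (p : A[X]) : th φ t p = (p.map (φ : A →+* K)).eval t := by
  rw [th, AlgHom.comp_apply, coe_mapAlgHom, coe_aeval_eq_eval]

theorem th_C (φ : A →ₐ[K] K) (t : K) (a : A) : th φ t (C a) = φ a := by
  rw [th_apply, map_C, eval_C]
  rfl

/-- extension when the relations are respected -/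
theorem exists_ext {x : B} (hx : Function.Surjective (aeval (R := A) x)) (φ : A →ₐ[K] K) (t : K)
    (h : ∀ p : A[X], aeval x p = 0 → th φ t p = 0) :
    ∃ ψ : B →ₐ[K] K, ∀ p : A[X], ψ (aeval x p) = th φ t p := by
  have hs : Function.Surjective ((aeval (R := A) x).restrictScalars K) := hx
  refine ⟨AlgHom.liftOfSurjective ((aeval (R := A) x).restrictScalars K) hs (th φ t) h, fun p => ?_⟩
  exact AlgHom.liftOfSurjective_apply ((aeval (R := A) x).restrictScalars K) hs (th φ t) h p

/-- **The step**: homomorphisms extend generically to an algebra with one more generator. -/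
theorem step [IsAlgClosed K] (hinj : Function.Injective (algebraMap A B)) {x : B}
    (hx : Function.Surjective (aeval (R := A) x)) (b : B) (hb : b ≠ 0) :
    ∃ a : A, a ≠ 0 ∧ ∀ φ : A →ₐ[K] K, φ a ≠ 0 →
      ∃ ψ : B →ₐ[K] K, (∀ y : A, ψ (algebraMap A B y) = φ y) ∧ ψ b ≠ 0 := by
  have hinf : Infinite K := IsAlgClosed.instInfinite
  by_cases halg : Function.Injective (aeval (R := A) x)
  · obtain ⟨p, rfl⟩ := hx b
    have hp : p ≠ 0 := by
      rintro rfl
      exact hb (map_zero _)
    refine ⟨p.leadingCoeff, leadingCoeff_ne_zero.mpr hp, fun φ hφ => ?_⟩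
    have h1 : p.map (φ : A →+* K) ≠ 0 := by
      intro h0
      have h2 := congrArg (fun q => q.coeff p.natDegree) h0
      simp only [coeff_map, coeff_zero] at h2
      exact hφ h2
    obtain ⟨t, ht⟩ : ∃ t, (p.map (φ : A →+* K)).eval t ≠ 0 := by
      by_contra hcon
      push Not at hcon
      exact h1 (Polynomial.funext fun t => by rw [hcon, eval_zero])
    obtain ⟨ψ, hψ⟩ := exists_ext hx φ t fun q hq => by
      have : q = 0 := halg (by rw [hq, map_zero])
      rw [this, map_zero]
    refine ⟨ψ, fun y => ?_, ?_⟩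
    · have := hψ (C y)
      rwa [aeval_C, th_C] at this
    · rw [hψ, th_apply]
      exact ht
  · -- a polynomial of smallest degree
    have h0 : ∃ f : A[X], f ≠ 0 ∧ aeval x f = 0 := by
      rw [injective_iff_map_eq_zero] at halg
      push Not at halg
      obtain ⟨f, hf1, hf2⟩ := halg
      exact ⟨f, hf2, hf1⟩
    have hxalg : IsAlgebraic A x := h0
    have hex : ∃ n : ℕ, ∃ f : A[X], f ≠ 0 ∧ aeval x f = 0 ∧ f.natDegree = n := by
      obtain ⟨f, hf1, hf2⟩ := h0
      exact ⟨_, f, hf1, hf2, rfl⟩
    classical
    obtain ⟨f, hf1, hf2, hf3⟩ := Nat.find_spec hex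
    have hmin : ∀ g : A[X], aeval x g = 0 → g.natDegree < f.natDegree → g = 0 := by
      intro g hg1 hg2
      by_contra hg
      rw [hf3] at hg2
      exact Nat.find_min hex hg2 ⟨g, hg, hg1, rfl⟩
    have hdeg : 0 < f.natDegree := by
      rw [Nat.pos_iff_ne_zero]
      intro h1
      rw [natDegree_eq_zero] at h1
      obtain ⟨c, rfl⟩ := h1
      rw [aeval_C] at hf2
      have : c = 0 := hinj (by rw [hf2, map_zero])
      rw [this, C_0] at hf1
      exact hf1 rfl
    -- a relation for `b`
    have hbalg : IsAlgebraic A b := by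
      obtain ⟨p, rfl⟩ := hx b
      have h1 : x ∈ Subalgebra.algebraicClosure A B := hxalg
      have h2 : aeval x p ∈ Subalgebra.algebraicClosure A B := by
        have h3 : aeval x p ∈ Algebra.adjoin A {x} := aeval_mem_adjoin_singleton A x
        exact (Algebra.adjoin_le (Set.singleton_subset_iff.mpr h1)) h3
      exact h2
    obtain ⟨h, hh1, hh2⟩ := hbalg.exists_nonzero_coeff_and_aeval_eq_zero (mem_nonZeroDivisors_of_ne_zero hb)
    refine ⟨f.leadingCoeff * h.coeff 0, mul_ne_zero (leadingCoeff_ne_zero.mpr hf1) hh1, fun φ hφ => ?_⟩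
    rw [map_mul] at hφ
    have hφ1 := left_ne_zero_of_mul hφ
    have hφ2 := right_ne_zero_of_mul hφ
    have h1 : (f.map (φ : A →+* K)).natDegree = f.natDegree :=
      natDegree_map_of_leadingCoeff_ne_zero _ hφ1
    obtain ⟨t, ht⟩ := IsAlgClosed.exists_root (f.map (φ : A →+* K)) (by
      intro h2
      have h3 := natDegree_eq_of_degree_eq_some (n := 0) (by rw [h2]; rfl)
      rw [h1] at h3
      omega)
    obtain ⟨ψ, hψ⟩ := exists_ext hx φ t fun g hg => by
      obtain ⟨k, q, r, h2, h3⟩ := pseudo f hdeg g
      have h4 : r = 0 := by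
        refine hmin r ?_ h3
        have h5 := congrArg (aeval x) h2
        rw [map_mul, hg, mul_zero, map_add, map_mul, hf2, mul_zero, zero_add] at h5
        exact h5.symm
      rw [h4, add_zero] at h2
      have h5 := congrArg (th φ t) h2
      rw [map_mul, map_mul, th_C, map_pow, th_apply (p := f), ht, mul_zero] at h5
      exact (mul_eq_zero.mp h5).resolve_left (pow_ne_zero _ hφ1)
    have hψA : ∀ y : A, ψ (algebraMap A B y) = φ y := fun y => by
      have := hψ (C y)
      rwa [aeval_C, th_C] at this
    refine ⟨ψ, hψA, fun h0 => hφ2 ?_⟩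
    have h6 : ψ (aeval b h) = (h.map (φ : A →+* K)).eval (ψ b) := by
      rw [aeval_def, eval_map]
      have h7 : (ψ : B →+* K).comp (algebraMap A B) = (φ : A →+* K) := RingHom.ext hψA
      have h8 := hom_eval₂ h (algebraMap A B) (ψ : B →+* K) b
      rw [h7] at h8
      exact h8
    rw [hh2, map_zero, h0, ← coeff_zero_eq_eval_zero, coeff_map] at h6
    exact h6.symm

end Step

end Pool.Agent.Q280.TG
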