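import Pool.Agent.Q280.TG.B
import Pool.Agent.Q280.TG.C

/-!
# Extension of points of quotients of a group
-/

set_option autoImplicit false
set_option linter.unusedSectionVars false

open Module Submodule

namespace Pool.Agent.Q280.TG

section Ext

variable {K R : Type} [Field K] [CommRing R] [Algebra K R]

/-- homomorphisms on `A` extend generically to `C` -/
def Ext (A C : Subalgebra K R) : Prop :=
  ∃ h : A ≤ C, ∀ b : C, b ≠ 0 → ∃ a : A, a ≠ 0 ∧ ∀ φ : A →ₐ[K] K, φ a ≠ 0 →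
    ∃ ψ : C →ₐ[K] K, ψ.comp (Subalgebra.inclusion h) = φ ∧ ψ b ≠ 0

theorem Ext.refl (A : Subalgebra K R) : Ext A A := ⟨le_rfl, fun b hb => ⟨b, hb, fun φ hφ => ⟨φ, by ext; rfl, hφ⟩⟩⟩

theorem Ext.trans {A B C : Subalgebra K R} (h1 : Ext A B) (h2 : Ext B C) : Ext A C := by
  obtain ⟨h1, h1'⟩ := h1
  obtain ⟨h2, h2'⟩ := h2
  refine ⟨h1.trans h2, fun c hc => ?_⟩
  obtain ⟨b, hb, hb'⟩ := h2' c hc
  obtain ⟨a, ha, ha'⟩ := h1' b hb
  refine ⟨a, ha, fun φ hφ => ?_⟩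
  obtain ⟨ψ, hψ1, hψ2⟩ := ha' φ hφ
  obtain ⟨χ, hχ1, hχ2⟩ := hb' ψ hψ2
  refine ⟨χ, ?_, hχ2⟩
  rw [← hψ1, ← hχ1]
  ext
  rfl

variable [IsAlgClosed K] [IsDomain R]

theorem Ext.step (A : Subalgebra K R) (x : R) : Ext A (Algebra.adjoin K ((A : Set R) ∪ {x})) := by
  obtain ⟨C, hC⟩ : ∃ C, C = Algebra.adjoin K ((A : Set R) ∪ {x}) := ⟨_, rfl⟩
  rw [← hC]
  have hAC : A ≤ C := by
    rw [hC]
    exact fun y hy => Algebra.subset_adjoin (Or.inl hy)
  have hxC : x ∈ C := by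
    rw [hC]
    exact Algebra.subset_adjoin (Or.inr rfl)
  refine ⟨hAC, fun b hb => ?_⟩
  let _ : Algebra A C := (Subalgebra.inclusion hAC).toAlgebra
  have _ : IsScalarTower K A C := IsScalarTower.of_algebraMap_eq fun _ => rfl
  have hsurj : Function.Surjective (Polynomial.aeval (R := A) (⟨x, hxC⟩ : C)) := by
    have key : ∀ y, y ∈ Algebra.adjoin K ((A : Set R) ∪ {x}) → ∀ hy : y ∈ C,
        ∃ p : Polynomial A, Polynomial.aeval (⟨x, hxC⟩ : C) p = ⟨y, hy⟩ := by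
      intro y hy
      induction hy using Algebra.adjoin_induction with
      | mem y hy =>
        intro hyC
        rcases hy with hy | hy
        · exact ⟨Polynomial.C ⟨y, hy⟩, by rw [Polynomial.aeval_C]; rfl⟩
        · obtain rfl : y = x := hy
          exact ⟨Polynomial.X, by rw [Polynomial.aeval_X]⟩
      | algebraMap r =>
        intro hyC
        exact ⟨Polynomial.C (algebraMap K A r), by rw [Polynomial.aeval_C]; rfl⟩
      | add y z hy hz ihy ihz =>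
        intro hyC
        obtain ⟨p, hp⟩ := ihy (by rw [hC]; exact hy)
        obtain ⟨q, hq⟩ := ihz (by rw [hC]; exact hz)
        exact ⟨p + q, by rw [map_add, hp, hq]; rfl⟩
      | mul y z hy hz ihy ihz =>
        intro hyC
        obtain ⟨p, hp⟩ := ihy (by rw [hC]; exact hy)
        obtain ⟨q, hq⟩ := ihz (by rw [hC]; exact hz)
        exact ⟨p * q, by rw [map_mul, hp, hq]; rfl⟩
    rintro ⟨y, hy⟩
    exact key y (by rw [← hC]; exact hy) hy
  obtain ⟨a, ha, h⟩ := TG.step (K := K) (A := A) (B := C) (Subalgebra.inclusion_injective hAC) hsurj b hb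
  refine ⟨a, ha, fun φ hφ => ?_⟩
  obtain ⟨ψ, h1, h2⟩ := h φ hφ
  exact ⟨ψ, by ext y; exact h1 y, h2⟩

theorem Ext.fin (A : Subalgebra K R) {F : Set R} (hF : F.Finite) : Ext A (Algebra.adjoin K ((A : Set R) ∪ F)) := by
  induction F, hF using Set.Finite.induction_on with
  | empty =>
    rw [Set.union_empty, Algebra.adjoin_eq]
    exact Ext.refl A
  | @insert x F _ _ ih =>
    have h1 := Ext.step (Algebra.adjoin K ((A : Set R) ∪ F)) x
    have h2 : Algebra.adjoin K ((Algebra.adjoin K ((A : Set R) ∪ F) : Set R) ∪ {x}) =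
        Algebra.adjoin K ((A : Set R) ∪ insert x F) := by
      apply le_antisymm
      · refine Algebra.adjoin_le (Set.union_subset ?_ ?_)
        · exact Algebra.adjoin_mono (Set.union_subset_union_right _ (Set.subset_insert _ _))
        · rintro _ rfl
          exact Algebra.subset_adjoin (Or.inr (Set.mem_insert _ _))
      · refine Algebra.adjoin_mono (Set.union_subset ?_ (Set.insert_subset_iff.mpr ⟨?_, ?_⟩))
        · exact fun y hy => Or.inl (Algebra.subset_adjoin (Or.inl hy))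
        · exact Or.inr rfl
        · exact fun y hy => Or.inl (Algebra.subset_adjoin (Or.inr hy))
    rw [h2] at h1
    exact ih.trans h1

end Ext

namespace Fn

variable {K G E R : Type} [Field K] [Group G] [CommRing R] [Algebra K R] (S : Fn K G E R)

/-- the stable spaces of finite dimension -/
structure IsSt (W : Submodule K R) : Prop where
  fd : FiniteDimensional K W
  lt : ∀ g, ∀ w ∈ W, S.lt g w ∈ W
  rt : ∀ g, ∀ w ∈ W, S.rt g w ∈ W
  iv : ∀ w ∈ W, S.iv w ∈ W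
  cj : ∀ e, ∀ w ∈ W, S.cj e w ∈ W

theorem exists_st (f : R) : ∃ W, S.IsSt W ∧ f ∈ W := by
  obtain ⟨W, h1, h2, h3, h4, h5, h6⟩ := S.fin f
  exact ⟨W, ⟨h1, h3, h4, h5, h6⟩, h2⟩

variable {S}

theorem IsSt.sup {W V : Submodule K R} (hW : S.IsSt W) (hV : S.IsSt V) : S.IsSt (W ⊔ V) := by
  have key : ∀ T : R →ₐ[K] R, (∀ w ∈ W, T w ∈ W) → (∀ w ∈ V, T w ∈ V) → ∀ w ∈ W ⊔ V, T w ∈ W ⊔ V := by
    intro T h1 h2 w hw
    obtain ⟨a, ha, b, hb, rfl⟩ := mem_sup.mp hw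
    rw [map_add]
    exact mem_sup.mpr ⟨_, h1 a ha, _, h2 b hb, rfl⟩
  have := hW.fd
  have := hV.fd
  exact ⟨inferInstance, fun g => key _ (hW.lt g) (hV.lt g), fun g => key _ (hW.rt g) (hV.rt g), key _ hW.iv hV.iv,
    fun e => key _ (hW.cj e) (hV.cj e)⟩

variable (S)

theorem exists_st_fin {F : Set R} (hF : F.Finite) : ∃ W, S.IsSt W ∧ F ⊆ W := by
  induction F, hF using Set.Finite.induction_on with
  | empty =>
    obtain ⟨W, hW, -⟩ := S.exists_st 0
    exact ⟨W, hW, Set.empty_subset _⟩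
  | @insert x F _ _ ih =>
    obtain ⟨W, hW, h1⟩ := ih
    obtain ⟨V, hV, h2⟩ := S.exists_st x
    exact ⟨V ⊔ W, hV.sup hW, Set.insert_subset_iff.mpr
      ⟨(le_sup_left : V ≤ V ⊔ W) h2, h1.trans (le_sup_right : W ≤ V ⊔ W)⟩⟩

/-- stable categories -/
structure IsEC (A : Subalgebra K R) : Prop extends S.IsCat A where
  cj : ∀ e, ∀ f ∈ A, S.cj e f ∈ A

variable {S}

theorem map_adjoin {T : R →ₐ[K] R} {s : Set R} {A : Subalgebra K R} (h : ∀ x ∈ s, T x ∈ A) :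
    ∀ x ∈ Algebra.adjoin K s, T x ∈ A := by
  have : Algebra.adjoin K s ≤ A.comap T := Algebra.adjoin_le h
  exact fun x hx => this hx

/-- adjoining a stable space to a category -/
theorem IsCat.adjoin {A : Subalgebra K R} (hA : S.IsCat A) {W : Submodule K R} (hW : S.IsSt W) :
    S.IsCat (Algebra.adjoin K ((A : Set R) ∪ W)) where
  lt g := map_adjoin (by
    rintro x (hx | hx)
    · exact Algebra.subset_adjoin (Or.inl (hA.lt g x hx))
    · exact Algebra.subset_adjoin (Or.inr (hW.lt g x hx)))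
  rt g := map_adjoin (by
    rintro x (hx | hx)
    · exact Algebra.subset_adjoin (Or.inl (hA.rt g x hx))
    · exact Algebra.subset_adjoin (Or.inr (hW.rt g x hx)))
  iv := map_adjoin (by
    rintro x (hx | hx)
    · exact Algebra.subset_adjoin (Or.inl (hA.iv x hx))
    · exact Algebra.subset_adjoin (Or.inr (hW.iv x hx)))

theorem IsEC.adjoin {A : Subalgebra K R} (hA : S.IsEC A) {W : Submodule K R} (hW : S.IsSt W) :
    S.IsEC (Algebra.adjoin K ((A : Set R) ∪ W)) where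
  toIsCat := hA.toIsCat.adjoin hW
  cj e := map_adjoin (by
    rintro x (hx | hx)
    · exact Algebra.subset_adjoin (Or.inl (hA.cj e x hx))
    · exact Algebra.subset_adjoin (Or.inr (hW.cj e x hx)))

/-- it is generated by finitely many elements -/
theorem adjoin_st (A : Subalgebra K R) {W : Submodule K R} (hW : S.IsSt W) :
    ∃ F : Set R, F.Finite ∧ Algebra.adjoin K ((A : Set R) ∪ F) = Algebra.adjoin K ((A : Set R) ∪ W) := by
  have := hW.fd
  obtain ⟨d, b, -, h2, h3⟩ := exists_bas W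
  refine ⟨Set.range b, Set.finite_range b, le_antisymm (Algebra.adjoin_mono (Set.union_subset_union_right _ ?_)) ?_⟩
  · rintro _ ⟨i, rfl⟩
    exact h2 i
  · refine Algebra.adjoin_le (Set.union_subset (fun y hy => Algebra.subset_adjoin (Or.inl hy)) ?_)
    rw [← h3]
    have h4 : span K (Set.range b) ≤ Subalgebra.toSubmodule (Algebra.adjoin K ((A : Set R) ∪ Set.range b)) := by
      rw [span_le]
      rintro _ ⟨i, rfl⟩
      exact Algebra.subset_adjoin (Or.inr ⟨i, rfl⟩)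
    exact h4

variable [IsAlgClosed K] [IsDomain R]

theorem Ext_st (A : Subalgebra K R) {W : Submodule K R} (hW : S.IsSt W) :
    Ext A (Algebra.adjoin K ((A : Set R) ∪ W)) := by
  obtain ⟨F, h1, h2⟩ := adjoin_st A hW
  rw [← h2]
  exact Ext.fin A h1

/-- one step of the extension of a homomorphism on a category -/
theorem exists_step {A : Subalgebra K R} (hA : S.IsCat A) (φ : A →ₐ[K] K) (f : R) :
    ∃ C : Subalgebra K R, S.IsCat C ∧ f ∈ C ∧ ∃ h : A ≤ C, ∃ ψ : C →ₐ[K] K, ψ.comp (Subalgebra.inclusion h) = φ := by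
  obtain ⟨W, hW, hf⟩ := S.exists_st f
  have hC := hA.adjoin hW
  obtain ⟨h, h1⟩ := Ext_st A hW
  obtain ⟨C, hCd⟩ : ∃ C, C = Algebra.adjoin K ((A : Set R) ∪ W) := ⟨_, rfl⟩
  rw [← hCd] at hC
  refine ⟨C, hC, by rw [hCd]; exact Algebra.subset_adjoin (Or.inr hf), by rw [hCd]; exact h, ?_⟩
  subst hCd
  obtain ⟨a, ha, h2⟩ := h1 1 one_ne_zero
  obtain ⟨q, hq⟩ := hA.exists_rt φ a.2 (fun h0 => ha (Subtype.ext h0))
  -- the translate of `φ`
  obtain ⟨T, hT⟩ : ∃ T : A →ₐ[K] A, ∀ x : A, (T x : R) = S.rt q x :=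
    ⟨((S.rt q).comp A.val).codRestrict A fun x => hA.rt q x x.2, fun x => rfl⟩
  obtain ⟨ψ, h3, -⟩ := h2 (φ.comp T) (by
    rw [AlgHom.comp_apply]
    have : T a = ⟨S.rt q a, hA.rt q a a.2⟩ := Subtype.ext (hT a)
    rw [this]
    exact hq)
  obtain ⟨T', hT'⟩ : ∃ T' : (Algebra.adjoin K ((A : Set R) ∪ W)) →ₐ[K] (Algebra.adjoin K ((A : Set R) ∪ W)),
      ∀ x, (T' x : R) = S.rt q⁻¹ x :=
    ⟨((S.rt q⁻¹).comp (Subalgebra.val _)).codRestrict _ fun x => hC.rt q⁻¹ x x.2, fun x => rfl⟩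
  refine ⟨ψ.comp T', ?_⟩
  ext x
  have h4 : T' (Subalgebra.inclusion h x) = Subalgebra.inclusion h ⟨S.rt q⁻¹ x, hA.rt q⁻¹ x x.2⟩ :=
    Subtype.ext (hT' _)
  change ψ (T' (Subalgebra.inclusion h x)) = φ x
  rw [h4]
  have h5 := DFunLike.congr_fun h3 ⟨S.rt q⁻¹ x, hA.rt q⁻¹ x x.2⟩
  change ψ (Subalgebra.inclusion h ⟨S.rt q⁻¹ x, hA.rt q⁻¹ x x.2⟩) = φ (T ⟨S.rt q⁻¹ x, hA.rt q⁻¹ x x.2⟩) at h5
  rw [h5]
  congr 1
  apply Subtype.ext
  rw [hT]
  change S.rt q (S.rt q⁻¹ x) = x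
  rw [S.rt_rt, mul_inv_cancel, S.rt_one]

/-- the homomorphism with a given graph -/
theorem graph_hom (T : Subalgebra K (R × K)) (h0 : ∀ c, ((0 : R), c) ∈ T → c = 0) {A : Subalgebra K R}
    (hA : A = T.map (AlgHom.fst K R K)) : ∃ φ : A →ₐ[K] K, ∀ x : A, ((x : R), φ x) ∈ T := by
  have h1 : ∀ x : A, ∃ c, ((x : R), c) ∈ T := by
    intro x
    have h2 : (x : R) ∈ T.map (AlgHom.fst K R K) := hA.le x.2
    obtain ⟨⟨y, c⟩, h3, h4⟩ := h2
    refine ⟨c, ?_⟩
    rw [← h4]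
    exact h3
  choose c hc using h1
  have huniq : ∀ {x : R} {a b : K}, (x, a) ∈ T → (x, b) ∈ T → a = b := by
    intro x a b h2 h3
    have h4 := T.sub_mem h2 h3
    rw [Prod.mk_sub_mk, sub_self] at h4
    exact sub_eq_zero.mp (h0 _ h4)
  exact ⟨{ toFun := c
           map_one' := huniq (hc 1) T.one_mem
           map_mul' := fun x y => huniq (hc (x * y)) (T.mul_mem (hc x) (hc y))
           map_zero' := huniq (hc 0) T.zero_mem
           map_add' := fun x y => huniq (hc (x + y)) (T.add_mem (hc x) (hc y))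
           commutes' := fun r => huniq (hc _) (T.algebraMap_mem r) }, hc⟩

/-- **Extension**: every homomorphism on a category extends. -/
theorem exists_ext_all {A : Subalgebra K R} (hA : S.IsCat A) (φ : A →ₐ[K] K) :
    ∃ ψ : R →ₐ[K] K, ∀ x : A, ψ x = φ x := by
  obtain ⟨P, hP⟩ : ∃ P : Set (Subalgebra K (R × K)), P = {T | (∀ c, ((0 : R), c) ∈ T → c = 0) ∧
    S.IsCat (T.map (AlgHom.fst K R K))} := ⟨_, rfl⟩
  -- graphs
  have hgr : ∀ (C : Subalgebra K R) (ψ : C →ₐ[K] K), S.IsCat C →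
      (AlgHom.prod C.val ψ).range ∈ P ∧ (∀ x : C, ((x : R), ψ x) ∈ (AlgHom.prod C.val ψ).range) ∧
        ∀ x c, (x, c) ∈ (AlgHom.prod C.val ψ).range → x ∈ C := by
    intro C ψ hC
    have h1 : ∀ x : C, ((x : R), ψ x) ∈ (AlgHom.prod C.val ψ).range := fun x => ⟨x, rfl⟩
    have h2 : ∀ x c, (x, c) ∈ (AlgHom.prod C.val ψ).range → ∃ hx : x ∈ C, ψ ⟨x, hx⟩ = c := by
      rintro x c ⟨y, hy⟩
      have h3 : (y : R) = x := congrArg Prod.fst hy
      have h4 : ψ y = c := congrArg Prod.snd hy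
      subst h3
      exact ⟨y.2, h4⟩
    refine ⟨?_, h1, fun x c h => (h2 x c h).1⟩
    rw [hP]
    refine ⟨fun c hc => ?_, ?_⟩
    · obtain ⟨h3, h4⟩ := h2 _ _ hc
      rw [← h4]
      have : (⟨0, h3⟩ : C) = 0 := rfl
      rw [this, map_zero]
    · have h5 : (AlgHom.prod C.val ψ).range.map (AlgHom.fst K R K) = C := by
        ext x
        constructor
        · rintro ⟨⟨y, c⟩, h3, rfl⟩
          exact (h2 _ _ h3).1
        · intro hx
          exact ⟨(x, ψ ⟨x, hx⟩), h1 ⟨x, hx⟩, rfl⟩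
      rw [h5]
      exact hC
  obtain ⟨T, hT1, hT2⟩ := zorn_le_nonempty₀ P (by
    intro c hc hchain T₀ hT₀
    have hne : Nonempty c := ⟨⟨T₀, hT₀⟩⟩
    have hdir : Directed (· ≤ ·) (fun T : c => (T : Subalgebra K (R × K))) := hchain.directed
    have hmem : ∀ z, z ∈ (⨆ T : c, (T : Subalgebra K (R × K))) ↔ ∃ T ∈ c, z ∈ T := by
      intro z
      rw [← SetLike.mem_coe, Subalgebra.coe_iSup_of_directed hdir, Set.mem_iUnion]
      exact ⟨fun ⟨T, hT⟩ => ⟨T, T.2, hT⟩, fun ⟨T, h1, h2⟩ => ⟨⟨T, h1⟩, h2⟩⟩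
    refine ⟨⨆ T : c, (T : Subalgebra K (R × K)), ?_, fun T hT => le_iSup (fun T : c => (T : Subalgebra K (R × K))) ⟨T, hT⟩⟩
    rw [hP]
    have hcat : ∀ U : R →ₐ[K] R, (∀ T ∈ c, ∀ f ∈ T.map (AlgHom.fst K R K), U f ∈ T.map (AlgHom.fst K R K)) →
        ∀ f ∈ (⨆ T : c, (T : Subalgebra K (R × K))).map (AlgHom.fst K R K),
          U f ∈ (⨆ T : c, (T : Subalgebra K (R × K))).map (AlgHom.fst K R K) := by
      rintro U hU _ ⟨z, hz, rfl⟩
      obtain ⟨T, h1, h2⟩ := (hmem z).mp hz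
      obtain ⟨w, h3, h4⟩ := hU T h1 _ ⟨z, h2, rfl⟩
      exact ⟨w, (hmem w).mpr ⟨T, h1, h3⟩, h4⟩
    refine ⟨fun k hk => ?_, ?_, ?_, ?_⟩
    · obtain ⟨T, h1, h2⟩ := (hmem _).mp hk
      have h3 := hc h1
      rw [hP] at h3
      exact h3.1 k h2
    · refine fun g => hcat _ fun T hT => ?_
      have h3 := hc hT
      rw [hP] at h3
      exact h3.2.lt g
    · refine fun g => hcat _ fun T hT => ?_
      have h3 := hc hT
      rw [hP] at h3
      exact h3.2.rt g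
    · refine hcat _ fun T hT => ?_
      have h3 := hc hT
      rw [hP] at h3
      exact h3.2.iv) _ (hgr A φ hA).1
  have hTP : T ∈ P := hT2.prop
  rw [hP] at hTP
  obtain ⟨χ, hχ⟩ := graph_hom T hTP.1 rfl
  have huniq : ∀ {x : R} {a b : K}, (x, a) ∈ T → (x, b) ∈ T → a = b := by
    intro x a b h2 h3
    have h4 := T.sub_mem h2 h3
    rw [Prod.mk_sub_mk, sub_self] at h4
    exact sub_eq_zero.mp (hTP.1 _ h4)
  have hall : ∀ f, f ∈ T.map (AlgHom.fst K R K) := by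
    intro f
    obtain ⟨C, hC, hf, h1, ψ, hψ⟩ := exists_step hTP.2 χ f
    obtain ⟨h2, h3, h4⟩ := hgr C ψ hC
    have h5 : T ≤ (AlgHom.prod C.val ψ).range := by
      rintro ⟨x, c⟩ hx
      have hxT : x ∈ T.map (AlgHom.fst K R K) := ⟨(x, c), hx, rfl⟩
      have h6 := DFunLike.congr_fun hψ ⟨x, hxT⟩
      have h7 : c = χ ⟨x, hxT⟩ := huniq hx (hχ ⟨x, hxT⟩)
      have h8 := h3 ⟨x, h1 hxT⟩
      rw [h7, ← h6]
      exact h8
    have h6 := hT2.le_of_ge h2 h5 (h3 ⟨f, hf⟩)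
    exact ⟨_, h6, rfl⟩
  refine ⟨χ.comp ((AlgHom.id K R).codRestrict _ hall), fun x => ?_⟩
  exact huniq (hχ ⟨x, hall x⟩) (hT1 ((hgr A φ hA).2.1 x))

end Fn

end Pool.Agent.Q280.TG
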