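import Pool.Agent.Q280.TG.D

/-!
# The Galois correspondence up to algebraic extensions, and linear disjointness
-/

set_option autoImplicit false
set_option linter.unusedSectionVars false

open Module Submodule

namespace Pool.Agent.Q280.TG

section Adj

variable {K R : Type} [Field K] [CommRing R] [Algebra K R]

theorem aeval_mem (A : Subalgebra K R) (x : R) (p : Polynomial A) :
    Polynomial.aeval x p ∈ Algebra.adjoin K ((A : Set R) ∪ {x}) := by
  induction p using Polynomial.induction_on' with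
  | add p q hp hq =>
    rw [map_add]
    exact add_mem hp hq
  | monomial n a =>
    rw [Polynomial.aeval_monomial]
    refine mul_mem ?_ (pow_mem ?_ n)
    · exact Algebra.subset_adjoin (Or.inl a.2)
    · exact Algebra.subset_adjoin (Or.inr rfl)

theorem exists_aeval (A : Subalgebra K R) (x : R) {y : R} (hy : y ∈ Algebra.adjoin K ((A : Set R) ∪ {x})) :
    ∃ p : Polynomial A, Polynomial.aeval x p = y := by
  induction hy using Algebra.adjoin_induction with
  | mem y hy =>
    rcases hy with hy | hy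
    · exact ⟨Polynomial.C ⟨y, hy⟩, by rw [Polynomial.aeval_C]; rfl⟩
    · obtain rfl : y = x := hy
      exact ⟨Polynomial.X, by rw [Polynomial.aeval_X]⟩
  | algebraMap r => exact ⟨Polynomial.C (algebraMap K A r), by rw [Polynomial.aeval_C]; rfl⟩
  | add y z _ _ ihy ihz =>
    obtain ⟨p, hp⟩ := ihy
    obtain ⟨q, hq⟩ := ihz
    exact ⟨p + q, by rw [map_add, hp, hq]⟩
  | mul y z _ _ ihy ihz =>
    obtain ⟨p, hp⟩ := ihy
    obtain ⟨q, hq⟩ := ihz
    exact ⟨p * q, by rw [map_mul, hp, hq]⟩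

/-- extension of a homomorphism with a given value -/
theorem exists_ext' (A : Subalgebra K R) (x : R) (φ : A →ₐ[K] K) (t : K)
    (h : ∀ p : Polynomial A, Polynomial.aeval x p = 0 → th φ t p = 0) :
    ∃ ψ : (Algebra.adjoin K ((A : Set R) ∪ {x})) →ₐ[K] K,
      ∀ p : Polynomial A, ψ ⟨Polynomial.aeval x p, aeval_mem A x p⟩ = th φ t p := by
  obtain ⟨π, hπ⟩ : ∃ π : Polynomial A →ₐ[K] (Algebra.adjoin K ((A : Set R) ∪ {x})),
      ∀ p, π p = ⟨Polynomial.aeval x p, aeval_mem A x p⟩ :=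
    ⟨((Polynomial.aeval (R := A) x).restrictScalars K).codRestrict _ (aeval_mem A x), fun p => rfl⟩
  have hs : Function.Surjective π := by
    rintro ⟨y, hy⟩
    obtain ⟨p, hp⟩ := exists_aeval A x hy
    exact ⟨p, by rw [hπ]; exact Subtype.ext hp⟩
  refine ⟨AlgHom.liftOfSurjective π hs (th φ t) (fun p hp => h p ?_), fun p => ?_⟩
  · have h1 : π p = 0 := hp
    rw [hπ] at h1
    exact congrArg Subtype.val h1
  · rw [← hπ]
    exact AlgHom.liftOfSurjective_apply π hs (th φ t) _ p

end Adj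

namespace Fn

variable {K G E R : Type} [Field K] [Group G] [CommRing R] [Algebra K R] {S : Fn K G E R}

variable (S) in
/-- the left translations which fix `A` -/
def Fix (A : Set R) : Subgroup G where
  carrier := {g | ∀ f ∈ A, S.lt g f = f}
  mul_mem' := fun {a b} ha hb f hf => by rw [← S.lt_lt, ha f hf, hb f hf]
  one_mem' := fun f _ => S.lt_one f
  inv_mem' := fun {a} ha f hf => by
    apply S.lt_inj a
    rw [S.lt_lt, inv_mul_cancel, S.lt_one, ha f hf]

theorem mem_Fix {A : Set R} {g : G} : g ∈ S.Fix A ↔ ∀ f ∈ A, S.lt g f = f := Iff.rfl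

theorem IsCat.normal {A : Subalgebra K R} (hA : S.IsCat A) : (S.Fix (A : Set R)).Normal := ⟨fun n hn g f hf => by
  rw [← S.lt_lt, ← S.lt_lt, hn _ (hA.lt g f hf), S.lt_lt, mul_inv_cancel, S.lt_one]⟩

theorem le_Inv_Fix (A : Subalgebra K R) : A ≤ S.Inv (S.Fix (A : Set R)) := fun f hf n hn => hn f hf

theorem Inv_cat (N : Subgroup G) [N.Normal] : S.IsCat (S.Inv N) where
  lt g f hf := S.Inv_lt hf g
  rt g f hf n hn := by rw [S.lt_rt, hf n hn]
  iv f hf n hn := S.ext fun x => by
    rw [S.v_lt, S.v_iv, S.v_iv, mul_inv_rev]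
    have h1 : x⁻¹ * n⁻¹ * x ∈ N := by
      have := Subgroup.Normal.conj_mem ‹_› n⁻¹ (N.inv_mem hn) x⁻¹
      rwa [inv_inv] at this
    have h2 : x⁻¹ * n⁻¹ = (x⁻¹ * n⁻¹ * x) * x⁻¹ := by group
    rw [h2, ← S.v_lt, hf _ h1]

/-- the points of the group are all homomorphisms to `K` -/
def Pts (S : Fn K G E R) : Prop := ∀ φ : R →ₐ[K] K, ∃ g, ∀ f, φ f = S.v f g

variable [IsAlgClosed K] [IsDomain R]

/-- **Galois correspondence**: the invariants of the stabilizer of a category are algebraic over it. -/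
theorem isAlgebraic_of_Inv (hp : S.Pts) {A : Subalgebra K R} (hA : S.IsCat A) {e : R}
    (he : e ∈ S.Inv (S.Fix (A : Set R))) : IsAlgebraic A e := by
  by_contra htr
  have hinf : Infinite K := IsAlgClosed.instInfinite
  obtain ⟨W, hW, heW⟩ := S.exists_st e
  have hC := hA.adjoin hW
  have hCe : Algebra.adjoin K ((Algebra.adjoin K ((A : Set R) ∪ {e}) : Set R) ∪ W) =
      Algebra.adjoin K ((A : Set R) ∪ W) := by
    apply le_antisymm
    · refine Algebra.adjoin_le (Set.union_subset ?_ fun y hy => Algebra.subset_adjoin (Or.inr hy))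
      refine Algebra.adjoin_mono (Set.union_subset_union_right _ ?_)
      rintro _ rfl
      exact heW
    · refine Algebra.adjoin_mono (Set.union_subset_union_left _ ?_)
      exact fun y hy => Algebra.subset_adjoin (Or.inl hy)
  obtain ⟨h1, h2⟩ := Ext_st (Algebra.adjoin K ((A : Set R) ∪ {e})) hW
  obtain ⟨⟨a, haA⟩, ha, h3⟩ := h2 1 one_ne_zero
  obtain ⟨p, hpa⟩ := exists_aeval A e haA
  have hp0 : p ≠ 0 := by
    rintro rfl
    rw [map_zero] at hpa
    exact ha (Subtype.ext hpa.symm)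
  -- a point
  obtain ⟨x, hx⟩ : ∃ x, S.v (p.leadingCoeff : R) x ≠ 0 := by
    by_contra hcon
    push Not at hcon
    have h4 : (p.leadingCoeff : R) = 0 := S.ext fun x => by rw [hcon, map_zero]; rfl
    exact hp0 (Polynomial.leadingCoeff_eq_zero.mp (Subtype.ext h4))
  obtain ⟨φ, hφ⟩ : ∃ φ : A →ₐ[K] K, ∀ f : A, φ f = S.v f x := ⟨(S.at' x).comp A.val, fun f => rfl⟩
  -- the extension with a given value
  have key : ∀ t : K, (p.map (φ : A →+* K)).eval t ≠ 0 →
      ∃ g : G, (∀ f ∈ A, S.v f g = S.v f x) ∧ S.v e g = t := by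
    intro t ht
    obtain ⟨ψ, hψ⟩ := exists_ext' A e φ t fun q hq => by
      have : q = 0 := by
        by_contra h0
        exact htr ⟨q, h0, hq⟩
      rw [this, map_zero]
    obtain ⟨χ, hχ, -⟩ := h3 ψ (by
      have h4 := hψ p
      rw [th_apply] at h4
      have h5 : (⟨a, haA⟩ : Algebra.adjoin K ((A : Set R) ∪ {e})) = ⟨Polynomial.aeval e p, aeval_mem A e p⟩ :=
        Subtype.ext hpa.symm
      rw [h5, h4]
      exact ht)
    obtain ⟨ω, hω⟩ := exists_ext_all (S := S) (A := Algebra.adjoin K ((Algebra.adjoin K ((A : Set R) ∪ {e}) : Set R) ∪ W))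
      (by rw [hCe]; exact hC) χ
    obtain ⟨g, hg⟩ := hp ω
    have h4 : ∀ q : Polynomial A, S.v (Polynomial.aeval e q) g = th φ t q := by
      intro q
      rw [← hg, ← hψ q, ← hχ]
      exact hω ⟨_, h1 (aeval_mem A e q)⟩
    refine ⟨g, fun f hf => ?_, ?_⟩
    · have h5 := h4 (Polynomial.C ⟨f, hf⟩)
      rw [Polynomial.aeval_C, th_C, hφ] at h5
      exact h5
    · have h5 := h4 Polynomial.X
      rw [Polynomial.aeval_X, th_apply, Polynomial.map_X, Polynomial.eval_X] at h5
      exact h5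
  -- two values
  have hpm : p.map (φ : A →+* K) ≠ 0 := by
    intro h0
    have h4 := congrArg (fun q => q.coeff p.natDegree) h0
    simp only [Polynomial.coeff_map, Polynomial.coeff_zero] at h4
    exact hx (by rw [← hφ]; exact h4)
  obtain ⟨t₁, ht₁⟩ : ∃ t, (p.map (φ : A →+* K)).eval t ≠ 0 := by
    by_contra hcon
    push Not at hcon
    exact hpm (Polynomial.funext fun t => by rw [hcon, Polynomial.eval_zero])
  obtain ⟨t₂, ht₂⟩ : ∃ t, (p.map (φ : A →+* K) * (Polynomial.X - Polynomial.C t₁)).eval t ≠ 0 := by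
    by_contra hcon
    push Not at hcon
    exact mul_ne_zero hpm (Polynomial.X_sub_C_ne_zero t₁)
      (Polynomial.funext fun t => by rw [hcon, Polynomial.eval_zero])
  rw [Polynomial.eval_mul, Polynomial.eval_sub, Polynomial.eval_X, Polynomial.eval_C] at ht₂
  obtain ⟨g₁, h11, h12⟩ := key t₁ ht₁
  obtain ⟨g₂, h21, h22⟩ := key t₂ (left_ne_zero_of_mul ht₂)
  have hn : g₂ * g₁⁻¹ ∈ S.Fix (A : Set R) := by
    intro f hf
    refine S.ext fun y => ?_
    have h4 : g₂ * g₁⁻¹ * y = g₂ * (g₁⁻¹ * y) := mul_assoc _ _ _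
    rw [S.v_lt, h4, ← S.v_rt, h21 _ (hA.rt _ f hf), ← h11 _ (hA.rt _ f hf), S.v_rt, mul_inv_cancel_left]
  have h4 := congrArg (fun f => S.v f g₁) (he _ hn)
  simp only [S.v_lt, inv_mul_cancel_right] at h4
  rw [h12, h22] at h4
  exact right_ne_zero_of_mul ht₂ (by rw [h4, sub_self])

/-! ### Linear disjointness -/

/-- **Artin's argument**: a relation with coefficients in the invariants of `N₂` between invariants of `N₁`
gives one with coefficients in the invariants of both. -/
theorem artin {N₁ N₂ : Subgroup G} [N₁.Normal] [N₂.Normal] {ι : Type*} (s : Finset ι) :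
    ∀ (f c : ι → R), (∀ i ∈ s, f i ∈ S.Inv N₁) → (∀ i ∈ s, c i ∈ S.Inv N₂) → (∃ i ∈ s, c i ≠ 0) →
      ∑ i ∈ s, c i * f i = 0 →
      ∃ d : ι → R, (∀ i, d i ∈ S.Inv (N₁ ⊔ N₂)) ∧ (∃ i ∈ s, d i ≠ 0) ∧ ∑ i ∈ s, d i * f i = 0 := by
  classical
  induction s using Finset.strongInduction with
  | H s ih =>
    intro f c hf hc hne h0
    -- restriction to a smaller set
    have hred : ∀ (t : Finset ι), t ⊂ s → ∀ c' : ι → R, (∀ i ∈ s, c' i ∈ S.Inv N₂) → (∀ i ∈ s, i ∉ t → c' i = 0) →
        (∃ i ∈ s, c' i ≠ 0) → ∑ i ∈ s, c' i * f i = 0 →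
        ∃ d : ι → R, (∀ i, d i ∈ S.Inv (N₁ ⊔ N₂)) ∧ (∃ i ∈ s, d i ≠ 0) ∧ ∑ i ∈ s, d i * f i = 0 := by
      intro t hts c' h1 h2 h3 h4
      obtain ⟨d, h5, ⟨i, h6, h7⟩, h8⟩ := ih t hts f c' (fun i hi => hf i (hts.1 hi)) (fun i hi => h1 i (hts.1 hi))
        (by
          obtain ⟨i, hi, hi'⟩ := h3
          exact ⟨i, by_contra fun hit => hi' (h2 i hi hit), hi'⟩)
        (by
          rw [← h4]
          exact Finset.sum_subset hts.1 fun i hi hit => by rw [h2 i hi hit, zero_mul])
      refine ⟨fun i => if i ∈ t then d i else 0, fun i => ?_, ⟨i, hts.1 h6, ?_⟩, ?_⟩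
      · by_cases hi : i ∈ t
        · simp only [if_pos hi]
          exact h5 i
        · simp only [if_neg hi]
          exact zero_mem _
      · simp only [if_pos h6]
        exact h7
      · refine Eq.trans ?_ h8
        rw [← Finset.sum_subset hts.1 (fun i _ hit => by simp only [if_neg hit, zero_mul])]
        exact Finset.sum_congr rfl fun i hi => by simp only [if_pos hi]
    by_cases hz : ∃ j ∈ s, c j = 0
    · obtain ⟨j, hj, hj0⟩ := hz
      refine hred (s.erase j) (Finset.erase_ssubset hj) c hc (fun i hi hit => ?_) hne h0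
      have : i = j := by
        by_contra h
        exact hit (Finset.mem_erase.mpr ⟨h, hi⟩)
      rw [this, hj0]
    push Not at hz
    obtain ⟨j, hj, -⟩ := hne
    by_cases hq : ∃ n ∈ N₁, ∃ i ∈ s, c i * S.lt n (c j) ≠ c j * S.lt n (c i)
    · obtain ⟨n, hn, i₀, hi₀, hne⟩ := hq
      refine hred (s.erase j) (Finset.erase_ssubset hj) (fun i => c i * S.lt n (c j) - c j * S.lt n (c i))
        (fun i hi => ?_) (fun i hi hit => ?_) ⟨i₀, hi₀, sub_ne_zero.mpr hne⟩ ?_
      · exact sub_mem (mul_mem (hc i hi) (S.Inv_lt (hc j hj) n)) (mul_mem (hc j hj) (S.Inv_lt (hc i hi) n))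
      · have : i = j := by
          by_contra h
          exact hit (Finset.mem_erase.mpr ⟨h, hi⟩)
        rw [this, sub_self]
      · have h1 := congrArg (S.lt n) h0
        rw [map_sum, map_zero] at h1
        have h2 : ∑ i ∈ s, S.lt n (c i) * f i = 0 := by
          rw [← h1]
          refine Finset.sum_congr rfl fun i hi => ?_
          rw [map_mul, hf i hi n hn]
        have h3 : ∑ i ∈ s, (c i * S.lt n (c j) - c j * S.lt n (c i)) * f i =
            S.lt n (c j) * ∑ i ∈ s, c i * f i - c j * ∑ i ∈ s, S.lt n (c i) * f i := by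
          rw [Finset.mul_sum, Finset.mul_sum, ← Finset.sum_sub_distrib]
          exact Finset.sum_congr rfl fun i _ => by ring
        rw [h3, h0, h2, mul_zero, mul_zero, sub_zero]
    · push Not at hq
      have hcj : c j ≠ 0 := hz j hj
      -- the quotients are invariant under both
      have h1 : ∀ i ∈ s, ∃ P ∈ S.Inv (N₁ ⊔ N₂), ∃ Q ∈ S.Inv (N₁ ⊔ N₂), Q ≠ 0 ∧ c i * Q = c j * P := by
        intro i hi
        refine quotient_inv hcj fun n hn => ?_
        have h2 : n ∈ ((N₂ ⊔ N₁ : Subgroup G) : Set G) := by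
          rw [sup_comm]
          exact hn
        rw [Subgroup.mul_normal] at h2
        obtain ⟨n₂, hn₂, n₁, hn₁, rfl⟩ := h2
        have h3 : ∀ k ∈ s, S.lt (n₂ * n₁) (c k) = S.lt n₁ (c k) := fun k hk => by
          rw [← S.lt_lt, hc k hk n₂ hn₂]
        change c i * S.lt (n₂ * n₁) (c j) = c j * S.lt (n₂ * n₁) (c i)
        rw [h3 i hi, h3 j hj]
        exact hq n₁ hn₁ i hi
      choose! P hP Q hQ hQ0 hPQ using h1
      obtain ⟨d, hd⟩ : ∃ d : ι → R, ∀ i, d i = if i ∈ s then P i * ∏ k ∈ s.erase i, Q k else 0 := ⟨_, fun _ => rfl⟩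
      have hdm : ∀ i ∈ s, c j * d i = (∏ k ∈ s, Q k) * c i := by
        intro i hi
        rw [hd, if_pos hi, ← Finset.mul_prod_erase s Q hi]
        linear_combination (-∏ k ∈ s.erase i, Q k) * hPQ i hi
      refine ⟨d, fun i => ?_, ⟨j, hj, fun h2 => ?_⟩, ?_⟩
      · rw [hd]
        by_cases hi : i ∈ s
        · rw [if_pos hi]
          exact mul_mem (hP i hi) (prod_mem fun k hk => hQ k (Finset.mem_of_mem_erase hk))
        · rw [if_neg hi]
          exact zero_mem _
      · have h3 := hdm j hj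
        rw [h2, mul_zero] at h3
        exact mul_ne_zero (Finset.prod_ne_zero_iff.mpr fun k hk => hQ0 k hk) hcj h3.symm
      · apply mul_left_cancel₀ hcj
        rw [mul_zero, Finset.mul_sum]
        have h3 : ∑ i ∈ s, c j * (d i * f i) = (∏ k ∈ s, Q k) * ∑ i ∈ s, c i * f i := by
          rw [Finset.mul_sum]
          refine Finset.sum_congr rfl fun i hi => ?_
          rw [← mul_assoc, hdm i hi, mul_assoc]
        rw [h3, h0, mul_zero]

end Fn

end Pool.Agent.Q280.TG
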