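import Pool.Agent.Q280.TG.E

/-!
# Algebraic independence over invariants; modular pairs
-/

set_option autoImplicit false
set_option linter.unusedSectionVars false

open Module Submodule

namespace Pool.Agent.Q280.TG

section Cl

variable {K R : Type} [Field K] [CommRing R] [IsDomain R] [Algebra K R]

variable (K R) in
/-- the matroid of algebraic independence over `K` in `R` -/
noncomputable abbrev MM : Matroid R := AlgebraicIndependent.matroid K R

theorem mem_clK {s : Set R} {x : R} : x ∈ (MM K R).closure s ↔ IsAlgebraic (Algebra.adjoin K s) x := by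
  rw [AlgebraicIndependent.matroid_closure_eq]
  rfl

theorem mem_clA' {A : Subalgebra K R} {x : R} : x ∈ (MM K R).closure (A : Set R) ↔ IsAlgebraic A x := by
  rw [mem_clK, Algebra.adjoin_eq]

theorem mem_clA {A : Subalgebra K R} {s : Set R} {x : R} : x ∈ (AlgebraicIndependent.matroid A R).closure s ↔
    x ∈ (MM K R).closure (A ∪ s) := by
  rw [AlgebraicIndependent.matroid_closure_eq, mem_clK]
  have h1 : (Algebra.adjoin A s).restrictScalars K = Algebra.adjoin K ((A : Set R) ∪ s) :=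
    Algebra.restrictScalars_adjoin K A s
  rw [← h1]
  exact Iff.rfl

theorem sub_clK (s : Set R) : s ⊆ (MM K R).closure s := (MM K R).subset_closure s (by simp)

theorem clK_mono {s t : Set R} (h : s ⊆ t) : (MM K R).closure s ⊆ (MM K R).closure t :=
  (MM K R).closure_subset_closure h

theorem clK_le {s t : Set R} (h : s ⊆ (MM K R).closure t) : (MM K R).closure s ⊆ (MM K R).closure t :=
  (MM K R).closure_subset_closure_of_subset_closure h

theorem adjoin_sub_cl (s : Set R) : (Algebra.adjoin K s : Set R) ⊆ (MM K R).closure s := fun x hx => by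
  rw [mem_clK]
  exact isAlgebraic_algebraMap (⟨x, hx⟩ : Algebra.adjoin K s)

end Cl

namespace Fn

variable {K G E R : Type} [Field K] [Group G] [CommRing R] [Algebra K R] {S : Fn K G E R} [IsAlgClosed K] [IsDomain R]

/-- **Invariants of `N₁` which are independent over the invariants of both groups are independent over
those of `N₂`.** -/
theorem indep_of {N₁ N₂ : Subgroup G} [N₁.Normal] [N₂.Normal] {ι : Type*} {f : ι → R}
    (hf : ∀ i, f i ∈ S.Inv N₁) (h : AlgebraicIndependent (S.Inv (N₁ ⊔ N₂)) f) :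
    AlgebraicIndependent (S.Inv N₂) f := by
  rw [algebraicIndependent_iff]
  intro p hp
  by_contra hp0
  obtain ⟨F, hF⟩ : ∃ F : (ι →₀ ℕ) → R, ∀ m, F m = m.prod fun i k => f i ^ k := ⟨_, fun _ => rfl⟩
  obtain ⟨d, hd, ⟨m₀, hm₀, hd0⟩, hsum⟩ := artin (S := S) (N₁ := N₁) (N₂ := N₂) p.support F (fun m => ((p.coeff m : S.Inv N₂) : R))
    (fun m _ => by
      rw [hF]
      exact prod_mem fun i _ => pow_mem (hf i) _)
    (fun m _ => (p.coeff m).2)
    (by
      obtain ⟨m, hm⟩ := MvPolynomial.support_nonempty.mpr hp0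
      exact ⟨m, hm, fun h0 => MvPolynomial.mem_support_iff.mp hm (Subtype.ext h0)⟩)
    (by
      rw [← hp, MvPolynomial.aeval_def, MvPolynomial.eval₂_eq]
      refine Finset.sum_congr rfl fun m _ => ?_
      rw [hF]
      rfl)
  obtain ⟨q, hq⟩ : ∃ q : MvPolynomial ι (S.Inv (N₁ ⊔ N₂)),
      q = ∑ m ∈ p.support, MvPolynomial.monomial m ⟨d m, hd m⟩ := ⟨_, rfl⟩
  have h1 : MvPolynomial.aeval f q = 0 := by
    rw [hq, map_sum, ← hsum]
    refine Finset.sum_congr rfl fun m _ => ?_
    rw [MvPolynomial.aeval_monomial, hF]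
    rfl
  have h2 := (algebraicIndependent_iff.mp h) q h1
  have h3 : q.coeff m₀ = ⟨d m₀, hd m₀⟩ := by
    classical
    rw [hq, MvPolynomial.coeff_sum, Finset.sum_eq_single m₀]
    · rw [MvPolynomial.coeff_monomial, if_pos rfl]
    · intro m _ hm
      rw [MvPolynomial.coeff_monomial, if_neg hm]
    · intro h4
      exact absurd hm₀ h4
  rw [h2, MvPolynomial.coeff_zero] at h3
  exact hd0 (congrArg Subtype.val h3).symm

/-- algebraically closed subalgebras -/
def Clo (A : Subalgebra K R) : Prop := (MM K R).closure (A : Set R) ⊆ A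

theorem Inv_Fix (hp : S.Pts) {A : Subalgebra K R} (hA : S.IsCat A) (hc : Clo A) : S.Inv (S.Fix (A : Set R)) = A :=
  le_antisymm (fun _ he => hc (mem_clA'.mpr (isAlgebraic_of_Inv hp hA he))) (le_Inv_Fix A)

/-- **Locality** -/
theorem loc (hp : S.Pts) {A₁ A₂ : Subalgebra K R} (h₁ : S.IsCat A₁) (h₂ : S.IsCat A₂) (c₁ : Clo A₁) (c₂ : Clo A₂)
    {F : Set R} (hF : F ⊆ A₁) {x : R} (hx : x ∈ A₁) (h : x ∈ (MM K R).closure (F ∪ A₂)) :
    x ∈ (MM K R).closure (F ∪ ((A₁ ⊓ A₂ : Subalgebra K R) : Set R)) := by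
  obtain ⟨N₁, hN₁, rfl⟩ : ∃ N₁ : Subgroup G, N₁.Normal ∧ A₁ = S.Inv N₁ := ⟨_, h₁.normal, (Inv_Fix hp h₁ c₁).symm⟩
  obtain ⟨N₂, hN₂, rfl⟩ : ∃ N₂ : Subgroup G, N₂.Normal ∧ A₂ = S.Inv N₂ := ⟨_, h₂.normal, (Inv_Fix hp h₂ c₂).symm⟩
  rw [← S.Inv_sup]
  by_contra hcon
  rw [Set.union_comm, ← mem_clA] at hcon
  obtain ⟨I, hI⟩ := (AlgebraicIndependent.matroid (S.Inv (N₁ ⊔ N₂)) R).exists_isBasis F
  rw [← hI.closure_eq_closure, hI.indep.notMem_closure_iff (by simp)] at hcon
  have h3 : (AlgebraicIndependent.matroid (S.Inv N₂) R).Indep (insert x I) := by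
    rw [AlgebraicIndependent.matroid_indep_iff]
    refine indep_of (S := S) (N₁ := N₁) (N₂ := N₂) (f := fun z : (insert x I : Set R) => (z : R)) ?_ hcon.1
    rintro ⟨z, rfl | hz⟩
    · exact hx
    · exact hF (hI.subset hz)
  have h4 : x ∉ (AlgebraicIndependent.matroid (S.Inv N₂) R).closure I := by
    rw [(h3.subset (Set.subset_insert x I)).notMem_closure_iff (by simp)]
    exact ⟨h3, hcon.2⟩
  apply h4
  rw [mem_clA]
  refine clK_le ?_ h
  refine Set.union_subset (fun y hy => ?_) (Set.subset_union_left.trans (sub_clK _))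
  have h5 : y ∈ (AlgebraicIndependent.matroid (S.Inv (N₁ ⊔ N₂)) R).closure I := by
    rw [hI.closure_eq_closure]
    exact (AlgebraicIndependent.matroid (S.Inv (N₁ ⊔ N₂)) R).subset_closure F (by simp) hy
  rw [mem_clA] at h5
  refine clK_mono (Set.union_subset_union_left _ ?_) h5
  rw [S.Inv_sup]
  exact fun z hz => hz.2

/-- the rank is modular -/
theorem eRk_add (hp : S.Pts) {A₁ A₂ : Subalgebra K R} (h₁ : S.IsCat A₁) (h₂ : S.IsCat A₂) (c₁ : Clo A₁) (c₂ : Clo A₂) :
    (MM K R).eRk (A₁ : Set R) + (MM K R).eRk (A₂ : Set R) =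
      (MM K R).eRk ((A₁ : Set R) ∩ A₂) + (MM K R).eRk ((A₁ : Set R) ∪ A₂) := by
  obtain ⟨I, hI⟩ := (MM K R).exists_isBasis ((A₁ : Set R) ∩ A₂)
  obtain ⟨J₁, hJ₁, hI1⟩ := hI.indep.subset_isBasis_of_subset (hI.subset.trans Set.inter_subset_left) (by simp)
  obtain ⟨J₂, hJ₂, hI2⟩ := hI.indep.subset_isBasis_of_subset (hI.subset.trans Set.inter_subset_right) (by simp)
  have hint : J₁ ∩ J₂ = I := by
    refine subset_antisymm ?_ (Set.subset_inter hI1 hI2)
    rintro x ⟨h3, h4⟩
    by_contra hx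
    have h5 : x ∈ (MM K R).closure I := by
      rw [hI.closure_eq_closure]
      exact sub_clK _ ⟨hJ₁.subset h3, hJ₂.subset h4⟩
    have h6 := (Matroid.indep_iff_forall_notMem_closure_sdiff (by simp)).mp hJ₁.indep h3
    exact h6 (clK_mono (Set.subset_sdiff_singleton hI1 hx) h5)
  have hind : (MM K R).Indep (J₁ ∪ J₂) := by
    rw [hJ₁.indep.union_indep_iff_forall_notMem_closure_right hJ₂.indep]
    rintro e ⟨he, he'⟩ h3
    have h4 : e ∈ (MM K R).closure ((J₂ \ {e}) ∪ A₁) := by
      refine clK_mono ?_ h3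
      rw [Set.union_comm]
      exact Set.union_subset_union_right _ hJ₁.subset
    have h5 := loc hp h₂ h₁ c₂ c₁ (Set.sdiff_subset.trans hJ₂.subset) (hJ₂.subset he) h4
    have h6 := (Matroid.indep_iff_forall_notMem_closure_sdiff (by simp)).mp hJ₂.indep he
    refine h6 (clK_le (Set.union_subset (sub_clK _) ?_) h5)
    have h7 : ((A₂ ⊓ A₁ : Subalgebra K R) : Set R) ⊆ (MM K R).closure I := by
      rw [hI.closure_eq_closure, Algebra.coe_inf, Set.inter_comm]
      exact sub_clK _
    exact h7.trans (clK_mono (Set.subset_sdiff_singleton hI2 fun h => he' (hI1 h)))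
  have hcl : (MM K R).eRk ((A₁ : Set R) ∪ A₂) = (MM K R).eRk (J₁ ∪ J₂) := by
    apply le_antisymm
    · rw [← (MM K R).eRk_closure_eq (J₁ ∪ J₂)]
      refine (MM K R).eRk_mono (Set.union_subset ?_ ?_)
      · refine Set.Subset.trans ?_ (clK_mono Set.subset_union_left)
        rw [hJ₁.closure_eq_closure]
        exact sub_clK _
      · refine Set.Subset.trans ?_ (clK_mono Set.subset_union_right)
        rw [hJ₂.closure_eq_closure]
        exact sub_clK _
    · exact (MM K R).eRk_mono (Set.union_subset_union hJ₁.subset hJ₂.subset)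
  rw [hcl, hind.eRk_eq_encard, ← hI.encard_eq_eRk, ← hJ₁.encard_eq_eRk, ← hJ₂.encard_eq_eRk, ← hint, add_comm,
    add_comm (J₁ ∩ J₂).encard, Set.encard_union_add_encard_inter, add_comm]

end Fn

end Pool.Agent.Q280.TG
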