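import Pool.Agent.Q280.TG.F
import Pool.Agent.Q280.ML.SysU

/-!
# Periods of categories: the density argument
-/

set_option autoImplicit false
set_option linter.unusedSectionVars false

open Module Submodule Q241.SX

namespace Pool.Agent.Q280.TG

section Cl

variable {K R : Type} [Field K] [CommRing R] [IsDomain R] [Algebra K R]

/-- an injective endomorphism preserves algebraic dependence -/
theorem cl_map {T : R →ₐ[K] R} (hT : Function.Injective T) {s t : Set R} (h : ∀ y ∈ s, T y ∈ (MM K R).closure t)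
    {x : R} (hx : x ∈ (MM K R).closure s) : T x ∈ (MM K R).closure t := by
  have h1 : T x ∈ (MM K R).closure (T '' s) := by
    rw [mem_clK] at hx ⊢
    obtain ⟨p, hp0, hp⟩ := hx
    obtain ⟨U, hU⟩ : ∃ U : (Algebra.adjoin K s) →ₐ[K] (Algebra.adjoin K (T '' s)), ∀ y, (U y : R) = T y :=
      ⟨(T.comp (Subalgebra.val _)).codRestrict _ fun y => by
        rw [← AlgHom.map_adjoin]
        exact ⟨y, y.2, rfl⟩, fun _ => rfl⟩
    have hUi : Function.Injective U := fun a b hab => Subtype.ext (hT (by rw [← hU, ← hU, hab]))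
    refine ⟨p.map (U : (Algebra.adjoin K s) →+* (Algebra.adjoin K (T '' s))), ?_, ?_⟩
    · exact (Polynomial.map_ne_zero_iff hUi).mpr hp0
    · rw [Polynomial.aeval_def, Polynomial.eval₂_map]
      have h2 : (algebraMap (Algebra.adjoin K (T '' s)) R).comp (U : (Algebra.adjoin K s) →+* _) =
          (T : R →+* R).comp (algebraMap (Algebra.adjoin K s) R) := RingHom.ext fun y => hU y
      rw [h2]
      have h3 := Polynomial.hom_eval₂ p (algebraMap (Algebra.adjoin K s) R) (T : R →+* R) x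
      rw [← Polynomial.aeval_def, hp, map_zero] at h3
      exact h3.symm
  refine clK_le ?_ h1
  rintro _ ⟨y, hy, rfl⟩
  exact h y hy

/-- the closure as a subalgebra -/
noncomputable def clS (s : Set R) : Subalgebra K R :=
  (Subalgebra.algebraicClosure (Algebra.adjoin K s) R).restrictScalars K

theorem mem_clS {s : Set R} {x : R} : x ∈ (clS s : Subalgebra K R) ↔ x ∈ (MM K R).closure s := by
  rw [mem_clK]
  exact Iff.rfl

theorem coe_clS (s : Set R) : ((clS s : Subalgebra K R) : Set R) = (MM K R).closure s :=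
  Set.ext fun _ => mem_clS

end Cl

namespace Fn

variable {K G E R : Type} [Field K] [Group G] [CommRing R] [Algebra K R] {S : Fn K G E R} [IsAlgClosed K] [IsDomain R]

theorem iv_inj : Function.Injective S.iv := fun f g h => S.ext fun x => by
  have h1 := congrArg (fun f => S.v f x⁻¹) h
  simp only [S.v_iv, inv_inv] at h1
  exact h1

/-- the closure of a category is a category -/
theorem IsCat.clS {A : Subalgebra K R} (hA : S.IsCat A) : S.IsCat (TG.clS (A : Set R)) where
  lt g _ hf := mem_clS.mpr (cl_map (S.lt_inj g) (fun y hy => sub_clK _ (hA.lt g y hy)) (mem_clS.mp hf))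
  rt g _ hf := mem_clS.mpr (cl_map (S.rt_inj g) (fun y hy => sub_clK _ (hA.rt g y hy)) (mem_clS.mp hf))
  iv _ hf := mem_clS.mpr (cl_map iv_inj (fun y hy => sub_clK _ (hA.iv y hy)) (mem_clS.mp hf))

theorem IsEC.clS {A : Subalgebra K R} (hA : S.IsEC A) : S.IsEC (TG.clS (A : Set R)) where
  toIsCat := hA.toIsCat.clS
  cj e _ hf := mem_clS.mpr (cl_map (S.cj_inj e) (fun y hy => sub_clK _ (hA.cj e y hy)) (mem_clS.mp hf))

theorem Clo_clS (s : Set R) : Clo (TG.clS s : Subalgebra K R) := by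
  intro x hx
  rw [coe_clS] at hx ⊢
  rwa [(MM K R).closure_closure] at hx

/-- the category generated by two categories -/
theorem IsEC.sup {A B : Subalgebra K R} (hA : S.IsEC A) (hB : S.IsEC B) :
    S.IsEC (Algebra.adjoin K ((A : Set R) ∪ B)) where
  lt g := map_adjoin (by
    rintro x (hx | hx)
    · exact Algebra.subset_adjoin (Or.inl (hA.lt g x hx))
    · exact Algebra.subset_adjoin (Or.inr (hB.lt g x hx)))
  rt g := map_adjoin (by
    rintro x (hx | hx)
    · exact Algebra.subset_adjoin (Or.inl (hA.rt g x hx))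
    · exact Algebra.subset_adjoin (Or.inr (hB.rt g x hx)))
  iv := map_adjoin (by
    rintro x (hx | hx)
    · exact Algebra.subset_adjoin (Or.inl (hA.iv x hx))
    · exact Algebra.subset_adjoin (Or.inr (hB.iv x hx)))
  cj e := map_adjoin (by
    rintro x (hx | hx)
    · exact Algebra.subset_adjoin (Or.inl (hA.cj e x hx))
    · exact Algebra.subset_adjoin (Or.inr (hB.cj e x hx)))

theorem IsEC.of_st {W : Submodule K R} (hW : S.IsSt W) : S.IsEC (Algebra.adjoin K (W : Set R)) where
  lt g := map_adjoin fun x hx => Algebra.subset_adjoin (hW.lt g x hx)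
  rt g := map_adjoin fun x hx => Algebra.subset_adjoin (hW.rt g x hx)
  iv := map_adjoin fun x hx => Algebra.subset_adjoin (hW.iv x hx)
  cj e := map_adjoin fun x hx => Algebra.subset_adjoin (hW.cj e x hx)

variable [Algebra K ℂ] (ev : R →ₐ[K] ℂ) (halg : ∀ c : K, IsAlgebraic ℚ (algebraMap K ℂ c))

include halg

theorem image_adjoin {s : Set R} {T : Set ℂ} (θ : R →ₐ[K] ℂ) (h : ∀ y ∈ s, θ y ∈ M.closure T) {x : R}
    (hx : x ∈ Algebra.adjoin K s) : θ x ∈ M.closure T := by
  induction hx using Algebra.adjoin_induction with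
  | mem y hy => exact h y hy
  | algebraMap r =>
    rw [AlgHom.commutes]
    exact cl_alg (halg r)
  | add y z _ _ ihy ihz =>
    rw [map_add]
    exact cl_add ihy ihz
  | mul y z _ _ ihy ihz =>
    rw [map_mul]
    exact cl_mul ihy ihz

/-- **The density argument.** -/
theorem density {B : Subalgebra K R} (hB : S.IsCat B) {r : ℕ} (x : Fin r → R) {W : Submodule K R}
    [FiniteDimensional K W] (hW : ∀ g, ∀ w ∈ W, S.rt g w ∈ W)
    (h : (W : Set R) ⊆ (MM K R).closure ((B : Set R) ∪ Set.range x)) :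
    ∃ q : G, ∀ w ∈ W, ev w ∈ M.closure (ev '' (B : Set R) ∪ Set.range fun i => ev (S.rt q (x i))) := by
  classical
  obtain ⟨d, b, -, h2, h3⟩ := exists_bas W
  have h4 : ∀ j, ∃ p : Polynomial (Algebra.adjoin K ((B : Set R) ∪ Set.range x)), p ≠ 0 ∧
      Polynomial.aeval (b j) p = 0 := fun j => mem_clK.mp (h (h2 j))
  choose p hp0 hp using h4
  have ha : (∏ j, ((p j).leadingCoeff : R)) ≠ 0 := by
    rw [Finset.prod_ne_zero_iff]
    intro j _ h5
    exact hp0 j (Polynomial.leadingCoeff_eq_zero.mp (Subtype.ext h5))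
  obtain ⟨q, hq⟩ := S.exists_rt ev ha
  refine ⟨q, ?_⟩
  obtain ⟨θ, hθ⟩ : ∃ θ : R →ₐ[K] ℂ, ∀ y, θ y = ev (S.rt q y) := ⟨ev.comp (S.rt q), fun _ => rfl⟩
  obtain ⟨T, hT⟩ : ∃ T, T = ev '' (B : Set R) ∪ Set.range fun i => ev (S.rt q (x i)) := ⟨_, rfl⟩
  rw [← hT]
  have hD : ∀ y ∈ Algebra.adjoin K ((B : Set R) ∪ Set.range x), θ y ∈ M.closure T := by
    intro y hy
    refine image_adjoin halg θ ?_ hy
    rintro z (hz | ⟨i, rfl⟩)
    · rw [hθ, hT]
      exact subset_cl _ (Or.inl ⟨_, hB.rt q z hz, rfl⟩)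
    · rw [hθ, hT]
      exact subset_cl _ (Or.inr ⟨i, rfl⟩)
  have hb : ∀ j, θ (b j) ∈ M.closure T := by
    intro j
    refine MD.cl_poly' ((p j).map ((θ : R →+* ℂ).comp (algebraMap (Algebra.adjoin K ((B : Set R) ∪ Set.range x)) R)))
      ?_ (fun i => ?_) ?_
    · intro h0
      have h5 := congrArg (fun q => q.coeff (p j).natDegree) h0
      simp only [Polynomial.coeff_map, Polynomial.coeff_zero] at h5
      rw [map_prod, map_prod, Finset.prod_ne_zero_iff] at hq
      refine hq j (Finset.mem_univ j) ?_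
      rw [← hθ]
      exact h5
    · rw [Polynomial.coeff_map]
      exact hD _ ((p j).coeff i).2
    · rw [Polynomial.eval_map]
      have h5 := Polynomial.hom_eval₂ (p j) (algebraMap (Algebra.adjoin K ((B : Set R) ∪ Set.range x)) R)
        (θ : R →+* ℂ) (b j)
      rw [← Polynomial.aeval_def, hp, map_zero] at h5
      exact h5.symm
  intro w hw
  have h5 : S.rt q⁻¹ w ∈ span K (Set.range b) := by
    rw [h3]
    exact hW _ _ hw
  have h6 : ev w = θ (S.rt q⁻¹ w) := by
    rw [hθ, S.rt_rt, mul_inv_cancel, S.rt_one]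
  rw [h6]
  obtain ⟨c, hc⟩ := (mem_span_range_iff_exists_fun K).mp h5
  refine image_adjoin halg θ (s := Set.range b) ?_ ?_
  · rintro _ ⟨j, rfl⟩
    exact hb j
  · rw [← hc]
    exact sum_mem fun j _ => Subalgebra.smul_mem _ (Algebra.subset_adjoin (Set.mem_range_self j)) _

/-- the periods of the closure of a category are algebraic over those of the category -/
theorem ev_cl {A : Subalgebra K R} (hA : S.IsCat A) {f : R} (hf : f ∈ (MM K R).closure (A : Set R)) :
    ev f ∈ M.closure (ev '' (A : Set R)) := by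
  obtain ⟨W, hW, hfW⟩ := S.exists_st f
  have hWf := hW.fd
  have hC := hA.clS
  have : FiniteDimensional K (W ⊓ Subalgebra.toSubmodule (TG.clS (A : Set R)) : Submodule K R) :=
    Submodule.finiteDimensional_of_le inf_le_left
  obtain ⟨q, hq⟩ := density (S := S) ev halg hA (r := 0) (fun i => i.elim0)
    (W := W ⊓ Subalgebra.toSubmodule (TG.clS (A : Set R)))
    (fun g w hw => ⟨hW.rt g w hw.1, hC.rt g w hw.2⟩)
    (fun w hw => by
      refine clK_mono Set.subset_union_left ?_
      exact mem_clS.mp hw.2)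
  have h1 := hq f ⟨hfW, mem_clS.mpr hf⟩
  rwa [Set.range_eq_empty, Set.union_empty] at h1

/-- the relative rank of the periods is bounded by the relative rank of the functions -/
theorem ev_rel {B : Subalgebra K R} (hB : S.IsCat B) {r : ℕ} (x : Fin r → R) {C : Subalgebra K R} (hC : S.IsEC C)
    {J : Set R} (hJ : J.Finite) (hJC : J ⊆ C) (hCJ : (C : Set R) ⊆ (MM K R).closure J)
    (h : (C : Set R) ⊆ (MM K R).closure ((B : Set R) ∪ Set.range x)) :
    ∃ q : G, ev '' (C : Set R) ⊆ M.closure (ev '' (B : Set R) ∪ Set.range fun i => ev (S.rt q (x i))) := by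
  obtain ⟨W₀, hW₀, hJW₀⟩ := S.exists_st_fin hJ
  obtain ⟨W, hWd⟩ : ∃ W, W = W₀ ⊓ Subalgebra.toSubmodule C := ⟨_, rfl⟩
  have hW₀f := hW₀.fd
  have hWf : FiniteDimensional K W := by
    rw [hWd]
    exact Submodule.finiteDimensional_of_le inf_le_left
  have hW : S.IsSt W := by
    rw [hWd]
    refine ⟨by rw [← hWd]; exact hWf, fun g w hw => ⟨hW₀.lt g w hw.1, hC.lt g w hw.2⟩,
      fun g w hw => ⟨hW₀.rt g w hw.1, hC.rt g w hw.2⟩, fun w hw => ⟨hW₀.iv w hw.1, hC.iv w hw.2⟩,
      fun e w hw => ⟨hW₀.cj e w hw.1, hC.cj e w hw.2⟩⟩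
  have hWC : (W : Set R) ⊆ C := by
    rw [hWd]
    exact fun w hw => hw.2
  obtain ⟨q, hq⟩ := density (S := S) ev halg hB x (W := W) hW.rt (hWC.trans h)
  refine ⟨q, ?_⟩
  rintro _ ⟨f, hf, rfl⟩
  have hA : S.IsCat (Algebra.adjoin K (W : Set R)) := (IsEC.of_st hW).toIsCat
  have h1 : f ∈ (MM K R).closure ((Algebra.adjoin K (W : Set R) : Subalgebra K R) : Set R) := by
    refine clK_mono ?_ (hCJ hf)
    intro y hy
    refine Algebra.subset_adjoin ?_
    rw [hWd]
    exact ⟨hJW₀ hy, hJC hy⟩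
  refine cl_sub ?_ (ev_cl ev halg hA h1)
  rintro _ ⟨y, hy, rfl⟩
  exact image_adjoin halg ev hq hy

end Fn

end Pool.Agent.Q280.TG
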