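import Pool.Agent.Q280.TG.H

/-!
# The lattice of algebraically closed categories
-/

set_option autoImplicit false
set_option linter.unusedSectionVars false

open Module Submodule Q241.SX

namespace Pool.Agent.Q280.TG.Fn

variable {K G E R : Type} [Field K] [Group G] [CommRing R] [Algebra K R] (S : Fn K G E R) [IsAlgClosed K] [IsDomain R]

/-- the algebraically closed categories -/
abbrev XX : Type := {A : Subalgebra K R // S.IsEC A ∧ Clo A}

variable {S}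

theorem XX.le_iff {a b : S.XX} : a ≤ b ↔ a.1 ≤ b.1 := Iff.rfl

theorem sInf_ok (D : Set S.XX) : S.IsEC (sInf (Subtype.val '' D)) ∧ Clo (sInf (Subtype.val '' D)) := by
  have key : ∀ T : R → R, (∀ a : S.XX, ∀ f ∈ a.1, T f ∈ a.1) →
      ∀ f ∈ sInf (Subtype.val '' D), T f ∈ sInf (Subtype.val '' D) := by
    intro T hT f hf
    rw [Algebra.mem_sInf] at hf ⊢
    rintro _ ⟨a, ha, rfl⟩
    exact hT a f (hf _ ⟨a, ha, rfl⟩)
  refine ⟨⟨⟨fun g => key _ fun a => a.2.1.lt g, fun g => key _ fun a => a.2.1.rt g, key _ fun a => a.2.1.iv⟩,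
    fun e => key _ fun a => a.2.1.cj e⟩, ?_⟩
  intro x hx
  rw [SetLike.mem_coe, Algebra.mem_sInf]
  rintro _ ⟨a, ha, rfl⟩
  refine a.2.2 (clK_mono ?_ hx)
  intro y hy
  rw [SetLike.mem_coe, Algebra.mem_sInf] at hy
  exact hy _ ⟨a, ha, rfl⟩

instance : InfSet S.XX := ⟨fun D => ⟨sInf (Subtype.val '' D), sInf_ok D⟩⟩

instance : CompleteLattice S.XX := completeLatticeOfInf _ fun D => by
  constructor
  · intro a ha
    exact sInf_le (a := a.1) ⟨a, ha, rfl⟩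
  · intro b hb
    refine le_sInf (a := b.1) ?_
    rintro _ ⟨a, ha, rfl⟩
    exact hb ha

theorem inf_val (a b : S.XX) : (a ⊓ b).1 = a.1 ⊓ b.1 := by
  apply le_antisymm
  · exact le_inf (inf_le_left : a ⊓ b ≤ a) (inf_le_right : a ⊓ b ≤ b)
  · obtain ⟨c, hc⟩ : ∃ c : S.XX, c.1 = a.1 ⊓ b.1 := by
      have h1 := sInf_ok ({a, b} : Set S.XX)
      rw [Set.image_pair, sInf_pair] at h1
      exact ⟨⟨_, h1⟩, rfl⟩
    rw [← hc]
    refine (le_inf ?_ ?_ : c ≤ a ⊓ b)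
    · exact hc.le.trans inf_le_left
    · exact hc.le.trans inf_le_right

/-- the closure of a category as an element -/
noncomputable def mk' {A : Subalgebra K R} (hA : S.IsEC A) : S.XX := ⟨clS (A : Set R), hA.clS, Clo_clS _⟩

theorem coe_mk' {A : Subalgebra K R} (hA : S.IsEC A) : ((mk' hA).1 : Set R) = (MM K R).closure (A : Set R) := coe_clS _

theorem mk'_le {A : Subalgebra K R} (hA : S.IsEC A) {b : S.XX} : mk' hA ≤ b ↔ A ≤ b.1 := by
  constructor
  · intro h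
    refine le_trans ?_ (XX.le_iff.mp h)
    intro x hx
    exact mem_clS.mpr (sub_clK _ hx)
  · intro h x hx
    exact b.2.2 (clK_mono (SetLike.coe_subset_coe.mpr h) (mem_clS.mp hx))

theorem sup_coe (a b : S.XX) : ((a ⊔ b).1 : Set R) = (MM K R).closure ((a.1 : Set R) ∪ b.1) := by
  have h1 : a ⊔ b = mk' (a.2.1.sup b.2.1) := by
    apply le_antisymm
    · refine sup_le ?_ ?_
      · intro x hx
        exact mem_clS.mpr (sub_clK _ (Algebra.subset_adjoin (Or.inl hx)))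
      · intro x hx
        exact mem_clS.mpr (sub_clK _ (Algebra.subset_adjoin (Or.inr hx)))
    · rw [mk'_le]
      refine Algebra.adjoin_le (Set.union_subset ?_ ?_)
      · exact (le_sup_left : a ≤ a ⊔ b)
      · exact (le_sup_right : b ≤ a ⊔ b)
  rw [h1, coe_mk']
  exact subset_antisymm (clK_le (adjoin_sub_cl _)) (clK_mono Algebra.subset_adjoin)

theorem bot_EC : S.IsEC (⊥ : Subalgebra K R) := by
  have key : ∀ T : R →ₐ[K] R, ∀ f ∈ (⊥ : Subalgebra K R), T f ∈ (⊥ : Subalgebra K R) := by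
    intro T f hf
    obtain ⟨c, rfl⟩ := Algebra.mem_bot.mp hf
    rw [AlgHom.commutes]
    exact Algebra.mem_bot.mpr ⟨c, rfl⟩
  exact ⟨⟨fun g => key _, fun g => key _, key _⟩, fun e => key _⟩

theorem bot_coe : (((⊥ : S.XX)).1 : Set R) ⊆ (MM K R).closure ∅ := by
  have h1 : (⊥ : S.XX) ≤ mk' (bot_EC (S := S)) := bot_le
  have h2 : (((⊥ : S.XX)).1 : Set R) ⊆ (mk' (bot_EC (S := S))).1 := h1
  rw [coe_mk'] at h2
  refine h2.trans (clK_le ?_)
  intro x hx
  obtain ⟨c, rfl⟩ := Algebra.mem_bot.mp hx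
  rw [mem_clK]
  exact isAlgebraic_algebraMap (algebraMap K (Algebra.adjoin K (∅ : Set R)) c)

theorem isModular (hp : S.Pts) : IsModularLattice S.XX where
  sup_inf_le_assoc_of_le := fun {x} y {z} h => by
    intro f hf
    rw [inf_val] at hf
    have h1 : f ∈ (MM K R).closure ((x.1 : Set R) ∪ y.1) := by
      rw [← sup_coe]
      exact hf.1
    have h2 := loc hp z.2.1.toIsCat y.2.1.toIsCat z.2.2 y.2.2 (F := (x.1 : Set R)) h hf.2 h1
    change f ∈ ((x ⊔ y ⊓ z).1 : Set R)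
    rw [sup_coe, inf_val, inf_comm]
    exact h2

/-- directed unions -/
theorem mem_sSup {D : Set S.XX} (hne : D.Nonempty) (hD : DirectedOn (· ≤ ·) D) {f : R} (hf : f ∈ (sSup D).1) :
    ∃ d ∈ D, f ∈ d.1 := by
  obtain ⟨d₀, hd₀⟩ := hne
  have hne' : Nonempty D := ⟨⟨d₀, hd₀⟩⟩
  have hdir : Directed (· ≤ ·) (fun d : D => (d : S.XX).1) := fun d e => by
    obtain ⟨k, hk, h1, h2⟩ := hD d d.2 e e.2
    exact ⟨⟨k, hk⟩, h1, h2⟩
  have hmem : ∀ z, z ∈ (⨆ d : D, (d : S.XX).1) ↔ ∃ d ∈ D, z ∈ d.1 := by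
    intro z
    rw [← SetLike.mem_coe, Subalgebra.coe_iSup_of_directed hdir, Set.mem_iUnion]
    exact ⟨fun ⟨T, hT⟩ => ⟨T, T.2, hT⟩, fun ⟨T, h1, h2⟩ => ⟨⟨T, h1⟩, h2⟩⟩
  have key : ∀ T : R → R, (∀ a : S.XX, ∀ f ∈ a.1, T f ∈ a.1) →
      ∀ f ∈ (⨆ d : D, (d : S.XX).1), T f ∈ (⨆ d : D, (d : S.XX).1) := by
    intro T hT f hf
    obtain ⟨d, h1, h2⟩ := (hmem f).mp hf
    exact (hmem _).mpr ⟨d, h1, hT d f h2⟩
  have hEC : S.IsEC (⨆ d : D, (d : S.XX).1) :=
    ⟨⟨fun g => key _ fun a => a.2.1.lt g, fun g => key _ fun a => a.2.1.rt g, key _ fun a => a.2.1.iv⟩,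
      fun e => key _ fun a => a.2.1.cj e⟩
  have hClo : Clo (⨆ d : D, (d : S.XX).1) := by
    intro x hx
    obtain ⟨I, hI1, hIf, hI2, hI3⟩ := Matroid.exists_subset_finite_closure_of_subset_closure
      (M := MM K R) (Set.finite_singleton x) (Set.singleton_subset_iff.mpr hx)
    have h1 : ∃ d ∈ D, I ⊆ d.1 := by
      clear hI2 hI3
      induction I, hIf using Set.Finite.induction_on with
      | empty => exact ⟨d₀, hd₀, Set.empty_subset _⟩
      | @insert y J _ _ ih =>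
        obtain ⟨d, h1, h2⟩ := ih ((Set.subset_insert _ _).trans hI1)
        obtain ⟨e, h3, h4⟩ := (hmem y).mp (hI1 (Set.mem_insert _ _))
        obtain ⟨k, h5, h6, h7⟩ := hD d h1 e h3
        exact ⟨k, h5, Set.insert_subset_iff.mpr ⟨h7 h4, h2.trans h6⟩⟩
    obtain ⟨d, h2, h3⟩ := h1
    refine (hmem x).mpr ⟨d, h2, d.2.2 (clK_mono h3 (hI3 rfl))⟩
  have h1 : sSup D ≤ (⟨_, hEC, hClo⟩ : S.XX) := sSup_le fun d hd => le_iSup (fun d : D => (d : S.XX).1) ⟨d, hd⟩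
  exact (hmem f).mp (h1 hf)

/-- a finite basis -/
theorem exists_fin_basis {s : Set R} (h : (MM K R).eRk s ≠ ⊤) : ∃ J : Set R, J.Finite ∧ J ⊆ s ∧
    s ⊆ (MM K R).closure J := by
  obtain ⟨J, hJ⟩ := (MM K R).exists_isBasis s
  refine ⟨J, ?_, hJ.subset, hJ.subset_closure⟩
  rw [← Set.encard_ne_top_iff, hJ.encard_eq_eRk]
  exact h

end Pool.Agent.Q280.TG.Fn
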