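import Pool.Agent.Q280.TG.J

/-!
# The predimension on the lattice of categories
-/

set_option autoImplicit false
set_option linter.unusedSectionVars false

open Module Submodule Q241.SX
open Pool.Agent.Q280.ML.Us (LSys)

namespace Pool.Agent.Q280.TG.Fn

variable {K G E R : Type} [Field K] [Group G] [CommRing R] [Algebra K R] {S : Fn K G E R} [IsAlgClosed K] [IsDomain R]

/-- finite transcendence degree -/
def fn (a : S.XX) : Prop := (MM K R).eRk (a.1 : Set R) ≠ ⊤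

/-- the transcendence degree -/
noncomputable def wt (a : S.XX) : ℕ := ((MM K R).eRk (a.1 : Set R)).toNat

theorem coe_wt {a : S.XX} (h : fn a) : ((wt a : ℕ) : ℕ∞) = (MM K R).eRk (a.1 : Set R) := ENat.natCast_toNat h

theorem fn_le {a b : S.XX} (hb : fn b) (h : a ≤ b) : fn a :=
  ne_top_of_le_ne_top hb ((MM K R).eRk_mono (SetLike.coe_subset_coe.mpr h))

theorem wt_mono {a b : S.XX} (hb : fn b) (h : a ≤ b) : wt a ≤ wt b := by
  have h4 := (MM K R).eRk_mono (SetLike.coe_subset_coe.mpr h : (a.1 : Set R) ⊆ b.1)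
  rw [← coe_wt hb, ← coe_wt (fn_le hb h)] at h4
  exact_mod_cast h4

theorem fn_sup {a b : S.XX} (ha : fn a) (hb : fn b) : fn (a ⊔ b) := by
  unfold fn
  rw [sup_coe, (MM K R).eRk_closure_eq]
  refine ne_top_of_le_ne_top ?_ ((MM K R).eRk_union_le_eRk_add_eRk _ _)
  rw [← coe_wt ha, ← coe_wt hb]
  exact_mod_cast ENat.natCast_ne_top _

theorem fn_bot : fn (⊥ : S.XX) := by
  have h1 : (MM K R).eRk ((⊥ : S.XX).1 : Set R) ≤ 0 := by
    rw [← (MM K R).eRk_empty, ← (MM K R).eRk_closure_eq ∅]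
    exact (MM K R).eRk_mono bot_coe
  exact ne_top_of_le_ne_top (by simp) h1

theorem wt_bot : wt (⊥ : S.XX) = 0 := by
  have h1 : (MM K R).eRk ((⊥ : S.XX).1 : Set R) ≤ 0 := by
    rw [← (MM K R).eRk_empty, ← (MM K R).eRk_closure_eq ∅]
    exact (MM K R).eRk_mono bot_coe
  unfold wt
  rw [nonpos_iff_eq_zero.mp h1]
  rfl

theorem wt_lt {a b : S.XX} (hb : fn b) (h : a < b) : wt a < wt b := by
  by_contra hcon
  push Not at hcon
  have h1 : (MM K R).eRk (b.1 : Set R) ≤ (MM K R).eRk (a.1 : Set R) := by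
    rw [← coe_wt hb, ← coe_wt (fn_le hb h.le)]
    exact_mod_cast hcon
  have h2 := Matroid.IsRkFinite.closure_eq_closure_of_subset_of_eRk_ge_eRk
    (M := MM K R) (Matroid.eRk_ne_top_iff.mp (fn_le hb h.le)) (SetLike.coe_subset_coe.mpr h.le) h1
  apply h.not_ge
  intro x hx
  refine a.2.2 ?_
  rw [h2]
  exact sub_clK _ hx

theorem wt_mod (hp : S.Pts) {a b : S.XX} (ha : fn a) (hb : fn b) : wt a + wt b = wt (a ⊓ b) + wt (a ⊔ b) := by
  have h1 := eRk_add hp a.2.1.toIsCat b.2.1.toIsCat a.2.2 b.2.2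
  have h2 : ((a ⊓ b : S.XX).1 : Set R) = (a.1 : Set R) ∩ b.1 := by
    rw [inf_val]
    rfl
  have h3 : (MM K R).eRk ((a ⊔ b : S.XX).1 : Set R) = (MM K R).eRk ((a.1 : Set R) ∪ b.1) := by
    rw [sup_coe, (MM K R).eRk_closure_eq]
  rw [← h2, ← h3, ← coe_wt ha, ← coe_wt hb, ← coe_wt (fn_le ha inf_le_left), ← coe_wt (fn_sup ha hb)] at h1
  exact_mod_cast h1

theorem fn_cpt (D : Set S.XX) (hne : D.Nonempty) (hD : DirectedOn (· ≤ ·) D) {a : S.XX} (ha : fn a)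
    (h : a ≤ sSup D) : ∃ d ∈ D, a ≤ d := by
  obtain ⟨J, hJ, hJa, haJ⟩ := exists_fin_basis ha
  have h1 : ∃ d ∈ D, J ⊆ d.1 := by
    clear haJ
    induction J, hJ using Set.Finite.induction_on with
    | empty =>
      obtain ⟨d₀, hd₀⟩ := hne
      exact ⟨d₀, hd₀, Set.empty_subset _⟩
    | @insert y J _ _ ih =>
      obtain ⟨d, h1, h2⟩ := ih ((Set.subset_insert _ _).trans hJa)
      obtain ⟨e, h3, h4⟩ := mem_sSup hne hD (h (hJa (Set.mem_insert _ _)))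
      obtain ⟨k, h5, h6, h7⟩ := hD d h1 e h3
      exact ⟨k, h5, Set.insert_subset_iff.mpr ⟨h7 h4, h2.trans h6⟩⟩
  obtain ⟨d, h2, h3⟩ := h1
  exact ⟨d, h2, fun x hx => d.2.2 (clK_mono h3 (haJ hx))⟩

/-- the category generated by a finite set in a given one -/
theorem exists_gen (a : S.XX) {F : Set R} (hF : F.Finite) (hFa : F ⊆ a.1) : ∃ W : Submodule K R, S.IsSt W ∧
    F ⊆ W ∧ (W : Set R) ⊆ a.1 := by
  obtain ⟨W₀, hW₀, h1⟩ := S.exists_st_fin hF
  have hW₀f := hW₀.fd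
  refine ⟨W₀ ⊓ Subalgebra.toSubmodule a.1, ⟨Submodule.finiteDimensional_of_le inf_le_left,
    fun g w hw => ⟨hW₀.lt g w hw.1, a.2.1.lt g w hw.2⟩, fun g w hw => ⟨hW₀.rt g w hw.1, a.2.1.rt g w hw.2⟩,
    fun w hw => ⟨hW₀.iv w hw.1, a.2.1.iv w hw.2⟩, fun e w hw => ⟨hW₀.cj e w hw.1, a.2.1.cj e w hw.2⟩⟩,
    fun x hx => ⟨h1 hx, hFa hx⟩, fun w hw => hw.2⟩

/-- a stable space is algebraic over a finite set -/
theorem st_fin {W : Submodule K R} (hW : S.IsSt W) : ∃ F : Set R, F.Finite ∧ F ⊆ W ∧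
    (Algebra.adjoin K (W : Set R)) = Algebra.adjoin K F := by
  have := hW.fd
  obtain ⟨d, b, -, h2, h3⟩ := exists_bas W
  have h5 : Set.range b ⊆ W := by
    rintro _ ⟨i, rfl⟩
    exact h2 i
  refine ⟨Set.range b, Set.finite_range b, h5, le_antisymm (Algebra.adjoin_le ?_) (Algebra.adjoin_mono h5)⟩
  intro x hx
  rw [← h3] at hx
  have h4 : span K (Set.range b) ≤ Subalgebra.toSubmodule (Algebra.adjoin K (Set.range b)) := by
    rw [span_le]
    exact Algebra.subset_adjoin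
  exact h4 hx

theorem fn_mk' {W : Submodule K R} (hW : S.IsSt W) : fn (mk' (IsEC.of_st hW)) := by
  obtain ⟨F, h1, h2, h3⟩ := st_fin hW
  unfold fn
  rw [coe_mk', (MM K R).eRk_closure_eq, h3]
  have h4 : (MM K R).eRk (Algebra.adjoin K F : Set R) ≤ F.encard := by
    refine ((MM K R).eRk_mono (adjoin_sub_cl F)).trans ?_
    rw [(MM K R).eRk_closure_eq]
    exact (MM K R).eRk_le_encard F
  exact ne_top_of_le_ne_top (Set.encard_ne_top_iff.mpr h1) h4

variable [Algebra K ℂ] (ev : R →ₐ[K] ℂ) (halg : ∀ c : K, IsAlgebraic ℚ (algebraMap K ℂ c))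

/-- the periods of a category -/
def Pe (a : S.XX) : Set ℂ := ev '' (a.1 : Set R)

theorem Pe_mono {a b : S.XX} (h : a ≤ b) : Pe ev a ⊆ Pe ev b := Set.image_mono h

include halg

theorem Pe_mk' {A : Subalgebra K R} (hA : S.IsEC A) {s : Set R} (hs : A = Algebra.adjoin K s) :
    Pe ev (mk' hA) ⊆ M.closure (ev '' s) := by
  rintro _ ⟨f, hf, rfl⟩
  rw [coe_mk'] at hf
  refine cl_sub ?_ (ev_cl ev halg hA.toIsCat hf)
  rintro _ ⟨y, hy, rfl⟩
  rw [hs] at hy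
  exact image_adjoin halg (T := ev '' s) ev (fun z hz => subset_cl _ ⟨z, hz, rfl⟩) hy

theorem Pe_sup {a b : S.XX} : Pe ev (a ⊔ b) ⊆ M.closure (Pe ev a ∪ Pe ev b) := by
  have h1 : a ⊔ b ≤ mk' (a.2.1.sup b.2.1) := sup_le
    (fun x hx => mem_clS.mpr (sub_clK _ (Algebra.subset_adjoin (Or.inl hx))))
    (fun x hx => mem_clS.mpr (sub_clK _ (Algebra.subset_adjoin (Or.inr hx))))
  refine (Pe_mono ev h1).trans ((Pe_mk' ev halg (a.2.1.sup b.2.1) rfl).trans ?_)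
  rw [Set.image_union]
  exact subset_rfl

theorem Pe_fin {a : S.XX} (ha : fn a) : M.eRk (Pe ev a) ≠ ⊤ := by
  obtain ⟨J, hJ, hJa, haJ⟩ := exists_fin_basis ha
  obtain ⟨W, hW, h1, h2⟩ := exists_gen a hJ hJa
  obtain ⟨F, h3, h4, h5⟩ := st_fin hW
  have h6 : Pe ev a ⊆ M.closure (ev '' F) := by
    refine Set.Subset.trans ?_ (Pe_mk' ev halg (IsEC.of_st hW) h5)
    rintro _ ⟨f, hf, rfl⟩
    refine ⟨f, ?_, rfl⟩
    rw [coe_mk']
    exact clK_mono (h1.trans Algebra.subset_adjoin) (haJ hf)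
  have h7 : M.eRk (Pe ev a) ≤ (ev '' F).encard := by
    refine (M.eRk_mono h6).trans ?_
    rw [M.eRk_closure_eq]
    exact M.eRk_le_encard _
  exact ne_top_of_le_ne_top (Set.encard_ne_top_iff.mpr (h3.image _)) h7

theorem Pe_loc {a : S.XX} {T : Set ℂ} (hT : T.Finite) (hTa : T ⊆ Pe ev a) :
    ∃ V ≤ a, fn V ∧ T ⊆ M.closure (Pe ev V) := by
  obtain ⟨F, h1, h2, h3⟩ : ∃ F : Set R, F.Finite ∧ F ⊆ a.1 ∧ ev '' F = T := by
    have h0 : ∀ t ∈ T, ∃ f, f ∈ a.1 ∧ ev f = t := fun t ht => hTa ht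
    choose! g hg1 hg2 using h0
    refine ⟨g '' T, hT.image g, ?_, ?_⟩
    · rintro _ ⟨t, ht, rfl⟩
      exact hg1 t ht
    · rw [← Set.image_comp]
      ext t
      constructor
      · rintro ⟨u, hu, rfl⟩
        change ev (g u) ∈ T
        rw [hg2 u hu]
        exact hu
      · exact fun ht => ⟨t, ht, hg2 t ht⟩
  obtain ⟨W, hW, h4, h5⟩ := exists_gen a h1 h2
  refine ⟨mk' (IsEC.of_st hW), (mk'_le _).mpr (Algebra.adjoin_le h5), fn_mk' hW, ?_⟩
  rw [← h3]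
  refine Set.Subset.trans ?_ (subset_cl _)
  refine Set.image_mono ?_
  rw [coe_mk']
  exact (h4.trans Algebra.subset_adjoin).trans (sub_clK _)

end Pool.Agent.Q280.TG.Fn
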