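import Pool.Agent.Q280.TG.L

/-!
# The smallest category over which the period conjecture holds
-/

set_option autoImplicit false
set_option linter.unusedSectionVars false

open Module Submodule Q241.SX
open Pool.Agent.Q280.ML.Us (LSys)
open Pool.Agent.Q280.MD (MO)
open Pool.Agent.Q280.ML

namespace Pool.Agent.Q280.TG.Fn

variable {K G E R : Type} [Field K] [Group G] [CommRing R] [Algebra K R] {S : Fn K G E R} [IsAlgClosed K] [IsDomain R]
  [Algebra K ℂ] (ev : R →ₐ[K] ℂ) (halg : ∀ c : K, IsAlgebraic ℚ (algebraMap K ℂ c)) (hp : S.Pts)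

/-- the system -/
noncomputable def sys : LSys where
  X := S.XX
  mod := isModular hp
  o := ⊥
  u := ⊤
  fin := fn
  w := wt
  P := Pe ev
  base := fn_bot
  ge _ := bot_le
  top _ := le_top
  sup ha hb := fn_sup ha hb
  le hb _ h := fn_le hb h
  lt hb _ h := wt_lt hb h
  wmod ha hb := wt_mod hp ha hb
  cpt D hne hD _ ha h := fn_cpt D hne hD ha h
  mono h := Pe_mono ev h
  Psup {a b} := @Pe_sup K G E R _ _ _ _ S _ _ _ ev halg a b
  Pfin h := Pe_fin ev halg h
  Ploc _ _ hT hTB := Pe_loc ev halg hT hTB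

theorem range_le {n : ℕ} (z : Fin n → ℂ) : (Set.range z).encard ≤ n := by
  rw [← Set.image_univ]
  exact (Set.encard_image_le z _).trans (by simp)

/-- the transcendence degree of the periods -/
noncomputable def rk (a : S.XX) : ℕ := (M.eRk (Pe ev a)).toNat

/-- the defect -/
noncomputable def df (a : S.XX) : ℤ := (wt a : ℤ) - (rk ev a : ℤ)

include halg in
theorem coe_rk {a : S.XX} (ha : fn a) : ((rk ev a : ℕ) : ℕ∞) = M.eRk (Pe ev a) := ENat.natCast_toNat (Pe_fin ev halg ha)

include halg in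
/-- the relative rank -/
theorem rel_z (B Q : S.XX) (hQ : fn Q) : ∃ z : Fin (wt Q - wt (Q ⊓ B)) → ℂ,
    Pe ev Q ⊆ M.closure (Pe ev B ∪ Set.range z) := by
  classical
  have h0 : fn (Q ⊓ B) := fn_le hQ inf_le_left
  obtain ⟨J₀, hJ₀⟩ := (MM K R).exists_isBasis ((Q ⊓ B : S.XX).1 : Set R)
  have hsub : ((Q ⊓ B : S.XX).1 : Set R) ⊆ Q.1 := SetLike.coe_subset_coe.mpr (inf_le_left : Q ⊓ B ≤ Q)
  obtain ⟨J, hJ, hJJ⟩ := hJ₀.indep.subset_isBasis_of_subset (hJ₀.subset.trans hsub) (by simp)
  have hJf : J.Finite := by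
    rw [← Set.encard_ne_top_iff, hJ.encard_eq_eRk]
    exact hQ
  have hX : (J \ J₀).Finite := hJf.subset Set.sdiff_subset
  have hcard : (J \ J₀).ncard = wt Q - wt (Q ⊓ B) := by
    have h1 := Set.ncard_sdiff_add_ncard_of_subset hJJ hJf
    have h2 : J.ncard = wt Q := by
      unfold wt
      rw [← hJ.encard_eq_eRk]
      rfl
    have h3 : J₀.ncard = wt (Q ⊓ B) := by
      unfold wt
      rw [← hJ₀.encard_eq_eRk]
      rfl
    omega
  obtain ⟨e⟩ : Nonempty (Fin (wt Q - wt (Q ⊓ B)) ≃ (J \ J₀ : Set R)) := by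
    have := hX.fintype
    rw [← hcard]
    exact ⟨(finCongr (by rw [Set.ncard_eq_toFinset_card', Set.toFinset_card])).trans (Fintype.equivFin _).symm⟩
  obtain ⟨q, hq⟩ := ev_rel (S := S) ev halg (B := B.1) B.2.1.toIsCat (fun i => (e i : R)) Q.2.1 hJf hJ.subset
    hJ.subset_closure (by
      refine hJ.subset_closure.trans (clK_mono ?_)
      intro x hx
      by_cases h : x ∈ J₀
      · left
        have := hJ₀.subset h
        rw [inf_val] at this
        exact this.2
      · right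
        exact ⟨e.symm ⟨x, hx, h⟩, by simp⟩)
  exact ⟨_, hq⟩

include halg in
/-- the defect is monotone -/
theorem df_mono {a b : S.XX} (hb : fn b) (h : a ≤ b) : df ev a ≤ df ev b := by
  obtain ⟨z, hz⟩ := rel_z ev halg a b hb
  have ha := fn_le hb h
  have h1 : M.eRk (Pe ev b) ≤ M.eRk (Pe ev a) + (wt b - wt (b ⊓ a) : ℕ) := by
    refine (M.eRk_mono hz).trans ?_
    rw [M.eRk_closure_eq]
    refine (M.eRk_union_le_eRk_add_encard _ _).trans (add_le_add le_rfl ?_)
    exact range_le z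
  rw [← coe_rk ev halg ha, ← coe_rk ev halg hb] at h1
  have h2 : rk ev b ≤ rk ev a + (wt b - wt (b ⊓ a)) := by exact_mod_cast h1
  rw [inf_eq_right.mpr h] at h2
  have h3 : wt a ≤ wt b := by
    have h4 := (MM K R).eRk_mono (SetLike.coe_subset_coe.mpr h : (a.1 : Set R) ⊆ b.1)
    rw [← coe_wt ha, ← coe_wt hb] at h4
    exact_mod_cast h4
  unfold df
  omega

include halg in
theorem df_bot : df ev (⊥ : S.XX) = 0 := by
  have h1 : rk ev (⊥ : S.XX) = 0 := by
    have h2 : M.eRk (Pe ev (⊥ : S.XX)) ≤ 0 := by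
      rw [← M.eRk_empty, ← M.eRk_closure_eq ∅]
      refine M.eRk_mono ?_
      have h3 : Pe ev (⊥ : S.XX) ⊆ M.closure (ev '' (∅ : Set R)) := by
        refine Set.Subset.trans ?_ (Pe_mk' ev halg (S := S) bot_EC (s := ∅) (by rw [Algebra.adjoin_empty]))
        exact Pe_mono ev bot_le
      rwa [Set.image_empty] at h3
    unfold rk
    rw [nonpos_iff_eq_zero.mp h2]
    rfl
  unfold df
  rw [h1, wt_bot]
  rfl

include halg in
theorem df_nonneg {a : S.XX} (ha : fn a) : 0 ≤ df ev a := by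
  rw [← df_bot ev halg (S := S)]
  exact df_mono ev halg ha bot_le

include halg in
/-- no more than the expected number of independent periods -/
theorem le_of_indep {B Q : S.XX} (hQ : fn Q) {m : ℕ} (v : Fin m → ℂ) (hv : ∀ k, v k ∈ Pe ev Q)
    (hi : AlgebraicIndependent (IntermediateField.adjoin ℚ (Pe ev B)) v) : m ≤ wt Q - wt (Q ⊓ B) := by
  obtain ⟨z, hz⟩ := rel_z ev halg B Q hQ
  have h1 : (MO (Pe ev B)).Indep (Set.range v) := by
    rw [AlgebraicIndependent.matroid_indep_iff]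
    exact hi.to_subtype_range
  have h2 : (Set.range v).encard ≤ (MO (Pe ev B)).eRk (Set.range z) := by
    rw [← (MO (Pe ev B)).eRk_closure_eq]
    refine h1.encard_le_eRk_of_subset ?_
    rintro _ ⟨k, rfl⟩
    rw [MD.mem_MO_iff]
    exact hz (hv k)
  have h3 : (Set.range v).encard = m := by
    have h4 : Function.Injective v := hi.injective
    rw [← Set.image_univ, h4.encard_image, Set.encard_univ]
    simp
  have h4 : (MO (Pe ev B)).eRk (Set.range z) ≤ (wt Q - wt (Q ⊓ B) : ℕ) := by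
    exact ((MO (Pe ev B)).eRk_le_encard _).trans (range_le z)
  rw [h3] at h2
  exact_mod_cast h2.trans h4

end Pool.Agent.Q280.TG.Fn
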