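import Pool.Agent.Q280.TG.N

/-!
# The smallest category over which the period conjecture holds: main theorem
-/

set_option autoImplicit false
set_option linter.unusedSectionVars false

open Module Submodule Q241.SX
open Pool.Agent.Q280.ML.Us (LSys)
open Pool.Agent.Q280.MD (MO)
open Pool.Agent.Q280.ML

namespace Pool.Agent.Q280.TG.Fn

variable {K G E R : Type} [Field K] [Group G] [CommRing R] [Algebra K R] {S : Fn K G E R} [IsAlgClosed K] [IsDomain R]
  [Algebra K ℂ] (ev : R →ₐ[K] ℂ)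

/-- the relative period conjecture over `B` -/
def Rel (B : S.XX) : Prop := ∀ Q : S.XX, fn Q →
  ∃ v : Fin (wt Q - wt (Q ⊓ B)) → ℂ, (∀ k, v k ∈ Pe ev Q) ∧
    AlgebraicIndependent (IntermediateField.adjoin ℚ (Pe ev B)) v

/-- the tight categories -/
def Ti (T : S.XX) : Prop := fn T ∧ ∀ W < T, df ev W < df ev T

variable (halg : ∀ c : K, IsAlgebraic ℚ (algebraMap K ℂ c)) (hp : S.Pts)

include halg hp

theorem family {B : S.XX} (hB : ∀ V, fn V → df ev V ≤ df ev (V ⊓ B)) : Rel ev B := by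
  intro Q hQ
  have : IsModularLattice S.XX := isModular hp
  have hQB : fn (Q ⊓ B) := fn_le hQ inf_le_left
  obtain ⟨Z, hZ⟩ := M.exists_isBasis (Pe ev Q)
  have hZf : Z.Finite := by
    rw [← Set.encard_ne_top_iff, hZ.encard_eq_eRk]
    exact Pe_fin ev halg hQ
  obtain ⟨v, h1, h2⟩ := MD.exists_family_over (Y := Pe ev B) (m := wt Q - wt (Q ⊓ B)) hZf fun T hT hTB => by
    obtain ⟨V, hV1, hV2, hV3⟩ := Pe_loc ev halg hT hTB
    obtain ⟨V', hV'⟩ : ∃ V', V' = V ⊔ (Q ⊓ B) := ⟨_, rfl⟩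
    have hV'B : V' ≤ B := by
      rw [hV']
      exact sup_le hV1 inf_le_right
    have hV'f : fn V' := by
      rw [hV']
      exact fn_sup hV2 hQB
    have h1 : (V' ⊔ Q) ⊓ B = V' := by
      rw [sup_inf_assoc_of_le _ hV'B, hV', sup_assoc, sup_idem]
    have h2 : V' ⊓ Q = Q ⊓ B := by
      apply le_antisymm
      · exact le_inf inf_le_right (inf_le_left.trans hV'B)
      · rw [hV']
        exact le_inf le_sup_right inf_le_left
    have h3 := wt_mod hp hV'f hQ
    rw [h2] at h3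
    have h4 := hB (V' ⊔ Q) (fn_sup hV'f hQ)
    rw [h1] at h4
    unfold df at h4
    have h7 := wt_mono hQ (inf_le_left : Q ⊓ B ≤ Q)
    have h5 : rk ev V' + (wt Q - wt (Q ⊓ B)) ≤ rk ev (V' ⊔ Q) := by omega
    have h6 : ((rk ev V' + (wt Q - wt (Q ⊓ B)) : ℕ) : ℕ∞) ≤ ((rk ev (V' ⊔ Q) : ℕ) : ℕ∞) := by exact_mod_cast h5
    rw [Nat.cast_add, coe_rk ev halg hV'f, coe_rk ev halg (fn_sup hV'f hQ)] at h6
    have hcl : M.closure (T ∪ Pe ev V') = M.closure (Pe ev V') := by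
      refine subset_antisymm ?_ (M.closure_subset_closure Set.subset_union_right)
      refine M.closure_subset_closure_of_subset_closure (Set.union_subset ?_ (subset_cl _))
      refine hV3.trans (cl_mono (Pe_mono ev ?_))
      rw [hV']
      exact le_sup_left
    have hrk : M.eRk (T ∪ Pe ev V') = M.eRk (Pe ev V') := by
      rw [← M.eRk_closure_eq (T ∪ Pe ev V'), hcl, M.eRk_closure_eq]
    refine ⟨T ∪ Pe ev V', Set.subset_union_left, ?_, ?_, ?_⟩
    · exact Set.union_subset (hTB.trans (subset_cl _)) ((Pe_mono ev hV'B).trans (subset_cl _))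
    · rw [hrk]
      exact Pe_fin ev halg hV'f
    · rw [hrk]
      refine h6.trans ?_
      rw [← M.eRk_closure_eq (Z ∪ (T ∪ Pe ev V'))]
      refine M.eRk_mono ((Pe_sup ev halg).trans (M.closure_subset_closure_of_subset_closure
        (Set.union_subset ?_ ?_)))
      · exact (Set.subset_union_right.trans Set.subset_union_right).trans (subset_cl _)
      · refine hZ.subset_closure.trans (cl_mono Set.subset_union_left)
  exact ⟨v, fun k => hZ.subset (h1 k), h2⟩

theorem conc {B : S.XX} (hB : Rel ev B) : ∀ V, fn V → df ev V ≤ df ev (V ⊓ B) := by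
  intro V hV
  obtain ⟨v, h1, h2⟩ := hB V hV
  have h3 : wt V = wt (V ⊓ B) + (wt V - wt (V ⊓ B)) := by
    have h4 := wt_mono hV (inf_le_left : V ⊓ B ≤ V)
    omega
  exact LSys.concentrated_of_family (A := sys ev halg hp) (B := B) (V := V) bot_le hV h3 v
    (fun k => subset_cl _ (h1 k)) h2

/-- **Main theorem.** -/
theorem main : ∃ B : S.XX, Rel ev B ∧ (∀ B' : S.XX, Rel ev B' → B ≤ B') ∧
    (∀ Q : S.XX, fn Q → df ev Q = df ev (Q ⊓ B)) ∧
    (B = ⊥ ↔ ∀ Q : S.XX, fn Q → df ev Q = 0) ∧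
    (fn B ↔ ∃ c : ℤ, ∀ Q : S.XX, fn Q → df ev Q ≤ c) ∧
    (fn B → ∀ Q : S.XX, fn Q → df ev Q ≤ df ev B) ∧
    (∀ T : S.XX, Ti ev T → T ≤ B) ∧ ∀ V : S.XX, fn V → V ≤ B → ∃ T : S.XX, Ti ev T ∧ V ≤ T := by
  have hm : IsModularLattice S.XX := isModular hp
  have sm := (sys ev halg hp).sm
  have hcon : ∀ V : S.XX, fn V → df ev V ≤ df ev (V ⊓ Bs.Core (⊥ : S.XX) fn (df ev)) :=
    fun V hV => Bs.le_inf_core sm hV
  refine ⟨Bs.Core (⊥ : S.XX) fn (df ev), ?_, ?_, ?_, ?_, ?_, ?_, ?_, ?_⟩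
  · exact family ev halg hp hcon
  · exact fun B' hB' => Bs.core_min sm bot_le (conc ev halg hp hB')
  · exact fun Q hQ => le_antisymm (hcon Q hQ) (df_mono ev halg hQ inf_le_left)
  · refine (Bs.core_base_iff sm).trans ?_
    constructor
    · intro h Q hQ
      have h1 := h Q hQ
      exact le_antisymm (h1.trans (df_bot ev halg).le) (df_nonneg ev halg hQ)
    · intro h Q hQ
      exact (h Q hQ).le.trans (df_bot ev halg).ge
  · exact Bs.core_fin_iff sm
  · exact fun h Q hQ => Bs.le_core sm h hQ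
  · exact fun T hT => Bs.Tight.le_core ⟨hT.1, fun W _ hW => hT.2 W hW⟩
  · intro V hV hVB
    obtain ⟨T, h1, h2⟩ := Bs.exists_tight_ge sm hV hVB
    exact ⟨T, ⟨h1.1, fun W hW => h1.2 W bot_le hW⟩, h2⟩

end Pool.Agent.Q280.TG.Fn
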