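import Pool.Agent.Q280.TG.E

/-!
# Descent: ideals stable under a normal subgroup are generated by invariants
-/

set_option autoImplicit false
set_option linter.unusedSectionVars false

open Module Submodule

namespace Pool.Agent.Q280.TG.Fn

variable {K G E R : Type} [Field K] [Group G] [CommRing R] [Algebra K R] {S : Fn K G E R} [IsDomain R]

/-- the ideal generated by the invariants in `J` -/
def iI (S : Fn K G E R) (N : Subgroup G) (J : Ideal R) : Ideal R := Ideal.span {y | y ∈ J ∧ y ∈ S.Inv N}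

/-- **Local descent** -/
theorem descent_loc {N : Subgroup G} [N.Normal] {J : Ideal R} (hJ : ∀ n ∈ N, ∀ f ∈ J, S.lt n f ∈ J)
    {C : Subalgebra K R} (hC : S.IsCat C) {f : R} (hf : f ∈ J) (hfC : f ∈ C) (x₀ : G) :
    ∃ s ∈ C, S.v s x₀ ≠ 0 ∧ s * f ∈ iI S N J := by
  classical
  by_cases hf0 : f = 0
  · refine ⟨1, C.one_mem, ?_, ?_⟩
    · rw [map_one]
      exact one_ne_zero
    · rw [hf0, mul_zero]
      exact zero_mem _
  -- the span of the translates
  have hV := S.fin_lt f
  set W := span K (Set.range fun n : N => S.lt (n : G) f) with hW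
  have hWf : FiniteDimensional K W := by
    refine Submodule.finiteDimensional_of_le (S₂ := span K (Set.range fun g : G => S.lt g f)) (span_mono ?_)
    rintro _ ⟨n, rfl⟩
    exact ⟨n, rfl⟩
  obtain ⟨d, w, h1, h2, h3⟩ := exists_bas W
  have hWJ : ∀ x ∈ W, x ∈ J := by
    intro x hx
    induction hx using Submodule.span_induction with
    | mem x hx =>
      obtain ⟨n, rfl⟩ := hx
      exact hJ n n.2 f hf
    | zero => exact zero_mem _
    | add x y _ _ ihx ihy => exact add_mem ihx ihy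
    | smul a x _ ihx =>
      rw [Algebra.smul_def]
      exact J.mul_mem_left _ ihx
  have hWC : ∀ x ∈ W, x ∈ C := by
    intro x hx
    induction hx using Submodule.span_induction with
    | mem x hx =>
      obtain ⟨n, rfl⟩ := hx
      exact hC.lt n f hfC
    | zero => exact zero_mem _
    | add x y _ _ ihx ihy => exact add_mem ihx ihy
    | smul a x _ ihx => exact C.smul_mem ihx a
  -- the translates of `w`
  have h5 : ∀ n ∈ N, ∀ i, S.lt n (w i) ∈ span K (Set.range w) := by
    intro n hn i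
    rw [h3]
    have h6 := h2 i
    generalize w i = x at h6
    induction h6 using Submodule.span_induction with
    | mem x hx =>
      obtain ⟨m, rfl⟩ := hx
      change S.lt n (S.lt m f) ∈ _
      rw [S.lt_lt]
      exact subset_span ⟨⟨m * n, mul_mem m.2 hn⟩, rfl⟩
    | zero =>
      rw [map_zero]
      exact zero_mem _
    | add x y _ _ ihx ihy =>
      rw [map_add]
      exact add_mem ihx ihy
    | smul a x _ ihx =>
      rw [map_smul]
      exact smul_mem _ _ ihx
  have hA : ∀ n : N, ∃ A : Matrix (Fin d) (Fin d) K, ∀ i, S.lt (n : G) (w i) = ∑ k, A i k • w k := by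
    intro n
    choose A hA using fun i => (mem_span_range_iff_exists_fun K).mp (h5 n n.2 i)
    exact ⟨Matrix.of A, fun i => (hA i).symm⟩
  choose A hA using hA
  obtain ⟨p, hp⟩ := S.exists_pts h1
  obtain ⟨q, hq⟩ : ∃ q : Fin d → G, ∀ j, x₀ * q j = p j := ⟨fun j => x₀⁻¹ * p j, fun j => mul_inv_cancel_left _ _⟩
  obtain ⟨X, hX⟩ : ∃ X : Matrix (Fin d) (Fin d) R, X = Matrix.of fun i j => S.rt (q j) (w i) := ⟨_, rfl⟩
  have hXC : ∀ i j, X i j ∈ C := fun i j => by
    rw [hX]
    exact hC.rt _ _ (hWC _ (h2 i))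
  have hdet : S.v X.det x₀ ≠ 0 := by
    have h6 : S.v X.det x₀ = (Matrix.of fun i j => S.v (w i) (p j)).det := by
      rw [← S.at'_apply, AlgHom.map_det]
      congr 1
      ext i j
      rw [hX]
      change S.v (S.rt (q j) (w i)) x₀ = _
      rw [S.v_rt, hq]
      rfl
    rwa [h6]
  have hdet0 : X.det ≠ 0 := fun h0 => hdet (by rw [h0, map_zero]; rfl)
  have hXn : ∀ (n : N) i j, S.lt (n : G) (X i j) = ∑ k, A n i k • X k j := by
    intro n i j
    rw [hX]
    change S.lt (n : G) (S.rt (q j) (w i)) = ∑ k, A n i k • S.rt (q j) (w k)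
    rw [S.lt_rt, hA, map_sum]
    exact Finset.sum_congr rfl fun k _ => map_smul _ _ _
  have hX1 : ∀ n : N, S.lt (n : G) X.det = (A n).det • X.det := fun n => lt_det (hXn n)
  obtain ⟨y, hy⟩ : ∃ y : Fin d → R, y = X.cramer w := ⟨_, rfl⟩
  have hy1 : ∀ (n : N) i, S.lt (n : G) (y i) = (A n).det • y i := by
    intro n i
    rw [hy, Matrix.cramer_apply]
    refine lt_det fun k j => ?_
    by_cases hj : j = i
    · subst hj
      simp only [Matrix.updateCol_self]
      exact hA n k
    · simp only [Matrix.updateCol_ne hj]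
      exact hXn n k j
  have hyJ : ∀ i, y i ∈ J := by
    intro i
    rw [hy, Matrix.cramer_eq_adjugate_mulVec]
    change ∑ k, X.adjugate i k * w k ∈ J
    exact sum_mem fun k _ => J.mul_mem_left _ (hWJ _ (h2 k))
  have hXy : ∀ k, X.det * w k = ∑ i, X k i * y i := by
    intro k
    have h6 := congrFun (Matrix.mulVec_cramer X w) k
    rw [← hy] at h6
    exact h6.symm
  -- the character
  obtain ⟨χ, hχ⟩ : ∃ χ : G → K, ∀ n : N, χ n = (A n).det :=
    ⟨fun g => if hg : g ∈ N then (A ⟨g, hg⟩).det else 0, fun n => dif_pos n.2⟩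
  obtain ⟨m, u, hm, -, hu1, hu2, hu3⟩ := char_ext (N := N) hdet0 (χ := χ) fun n hn => by
    rw [hX1 ⟨n, hn⟩, ← hχ ⟨n, hn⟩]
  obtain ⟨m', rfl⟩ : ∃ m', m = m' + 1 := ⟨m - 1, by omega⟩
  have hdC : X.det ∈ C := by
    rw [Matrix.det_apply]
    refine sum_mem fun σ _ => ?_
    have h8 : ∏ i, X (σ i) i ∈ C := prod_mem fun i _ => hXC _ _
    exact zsmul_mem h8 _
  have hz : ∀ i, y i * X.det ^ m' * u ∈ iI S N J := by
    intro i
    refine Ideal.subset_span ⟨J.mul_mem_right _ (J.mul_mem_right _ (hyJ i)), fun n hn => ?_⟩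
    conv_rhs => rw [← hu1 n hn]
    rw [map_mul, map_mul, map_pow, hX1 ⟨n, hn⟩, hy1 ⟨n, hn⟩, ← hχ ⟨n, hn⟩]
    simp only [smul_pow, Algebra.smul_mul_assoc, Algebra.mul_smul_comm, smul_smul, pow_succ]
  refine ⟨X.det ^ (m' + 1) * u, mul_mem (pow_mem hdC _) (hu3 C hC hdC), ?_, ?_⟩
  · rw [map_mul, map_pow]
    exact mul_ne_zero (pow_ne_zero _ hdet) (hu2 x₀)
  · have hw : ∀ k, X.det ^ (m' + 1) * u * w k ∈ iI S N J := by
      intro k
      have h6 : X.det ^ (m' + 1) * u * w k = ∑ i, X k i * (y i * X.det ^ m' * u) := by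
        have h7 : X.det ^ (m' + 1) * u * w k = X.det ^ m' * u * (X.det * w k) := by ring
        rw [h7, hXy, Finset.mul_sum]
        exact Finset.sum_congr rfl fun i _ => by ring
      rw [h6]
      exact sum_mem fun i _ => Ideal.mul_mem_left _ _ (hz i)
    have h6 : f ∈ span K (Set.range w) := by
      rw [h3]
      exact subset_span ⟨1, S.lt_one f⟩
    obtain ⟨c, hc⟩ := (mem_span_range_iff_exists_fun K).mp h6
    rw [← hc, Finset.mul_sum]
    refine sum_mem fun k _ => ?_
    rw [mul_smul_comm, Algebra.smul_def]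
    exact Ideal.mul_mem_left _ _ (hw k)

variable [IsAlgClosed K]

/-- Nullstellensatz for ideals of a finitely generated category -/
theorem nss (hp : S.Pts) {C : Subalgebra K R} (hC : S.IsCat C) (hfg : C.FG) (𝔞 : Ideal C)
    (h : ∀ x : G, ∃ s : C, s ∈ 𝔞 ∧ S.v (s : R) x ≠ 0) : 𝔞 = ⊤ := by
  by_contra hne
  obtain ⟨𝔪, h𝔪, h1⟩ := Ideal.exists_le_maximal 𝔞 hne
  have hft : Algebra.FiniteType K C := (Subalgebra.fg_iff_finiteType C).mp hfg
  let _ : Field (C ⧸ 𝔪) := Ideal.Quotient.field 𝔪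
  have hft' : Algebra.FiniteType K (C ⧸ 𝔪) := inferInstance
  have hfin : Module.Finite K (C ⧸ 𝔪) := finite_of_finite_type_of_isJacobsonRing K (C ⧸ 𝔪)
  have hint : Algebra.IsIntegral K (C ⧸ 𝔪) := Algebra.IsIntegral.of_finite K (C ⧸ 𝔪)
  have hbij := IsAlgClosed.algebraMap_bijective_of_isIntegral (k := K) (K := C ⧸ 𝔪)
  obtain ⟨e⟩ : Nonempty (K ≃ₐ[K] (C ⧸ 𝔪)) := ⟨AlgEquiv.ofBijective (Algebra.ofId K (C ⧸ 𝔪)) hbij⟩
  obtain ⟨ψ, hψ⟩ := exists_ext_all hC (e.symm.toAlgHom.comp (Ideal.Quotient.mkₐ K 𝔪))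
  obtain ⟨x, hx⟩ := hp ψ
  obtain ⟨s, hs1, hs2⟩ := h x
  apply hs2
  rw [← hx, hψ]
  have h2 : Ideal.Quotient.mkₐ K 𝔪 s = 0 := Ideal.Quotient.eq_zero_iff_mem.mpr (h1 hs1)
  rw [AlgHom.comp_apply, h2, map_zero]

/-- **Descent**: an ideal which is stable under a normal subgroup is generated by the invariants in it. -/
theorem descent (hp : S.Pts) {N : Subgroup G} [N.Normal] {J : Ideal R} (hJ : ∀ n ∈ N, ∀ f ∈ J, S.lt n f ∈ J) :
    J = iI S N J := by
  apply le_antisymm
  · intro f hf
    obtain ⟨W, hW, hfW⟩ := S.exists_st f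
    have hbot : S.IsCat (⊥ : Subalgebra K R) := by
      have key : ∀ T : R →ₐ[K] R, ∀ f ∈ (⊥ : Subalgebra K R), T f ∈ (⊥ : Subalgebra K R) := by
        intro T f hf
        obtain ⟨c, rfl⟩ := Algebra.mem_bot.mp hf
        rw [AlgHom.commutes]
        exact Algebra.mem_bot.mpr ⟨c, rfl⟩
      exact ⟨fun g => key _, fun g => key _, key _⟩
    have hC := hbot.adjoin hW
    obtain ⟨F, hF, hFW⟩ := adjoin_st ⊥ hW
    obtain ⟨C, hCd⟩ : ∃ C, C = Algebra.adjoin K (((⊥ : Subalgebra K R) : Set R) ∪ W) := ⟨_, rfl⟩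
    rw [← hCd] at hC hFW
    have hfg : C.FG := by
      rw [← hFW]
      have h1 : Algebra.adjoin K (((⊥ : Subalgebra K R) : Set R) ∪ F) = Algebra.adjoin K F := by
        apply le_antisymm
        · refine Algebra.adjoin_le (Set.union_subset ?_ Algebra.subset_adjoin)
          exact SetLike.coe_subset_coe.mpr bot_le
        · exact Algebra.adjoin_mono Set.subset_union_right
      rw [h1]
      exact Subalgebra.fg_def.mpr ⟨F, hF, rfl⟩
    have hfC : f ∈ C := by
      rw [hCd]
      exact Algebra.subset_adjoin (Or.inr hfW)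
    -- the ideal of the elements which bring `f` to the ideal generated by the invariants
    obtain ⟨𝔞, h𝔞⟩ : ∃ 𝔞 : Ideal C, ∀ s : C, s ∈ 𝔞 ↔ (s : R) * f ∈ iI S N J :=
      ⟨{ carrier := {s | (s : R) * f ∈ iI S N J}
         add_mem' := fun {a b} ha hb => by
           rw [Set.mem_ofPred_eq] at ha hb ⊢
           have : ((a + b : C) : R) * f = a * f + b * f := by
             rw [← add_mul]
             rfl
           rw [this]
           exact add_mem ha hb
         zero_mem' := by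
           rw [Set.mem_ofPred_eq]
           have : ((0 : C) : R) * f = 0 := zero_mul f
           rw [this]
           exact zero_mem _
         smul_mem' := fun c x hx => by
           rw [Set.mem_ofPred_eq] at hx ⊢
           have : ((c • x : C) : R) * f = c * (x * f) := by
             rw [← mul_assoc]
             rfl
           rw [this]
           exact Ideal.mul_mem_left _ _ hx }, fun s => Iff.rfl⟩
    have h1 : 𝔞 = ⊤ := nss hp hC hfg 𝔞 fun x => by
      obtain ⟨s, h2, h3, h4⟩ := descent_loc hJ hC hf hfC x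
      exact ⟨⟨s, h2⟩, (h𝔞 _).mpr h4, h3⟩
    have h2 : (1 : C) ∈ 𝔞 := by
      rw [h1]
      trivial
    have h3 := (h𝔞 1).mp h2
    have h4 : ((1 : C) : R) * f = f := one_mul f
    rwa [h4] at h3
  · exact Ideal.span_le.mpr fun y hy => hy.1

end Pool.Agent.Q280.TG.Fn
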