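import Pool.Agent.Q280.TG.F
import Pool.Agent.Q280.TG.P

/-!
# Separation by invariants; connected stabilizers
-/

set_option autoImplicit false
set_option linter.unusedSectionVars false

open Module Submodule

namespace Pool.Agent.Q280.TG.Fn

variable {K G E R : Type} [Field K] [Group G] [CommRing R] [Algebra K R] {S : Fn K G E R} [IsDomain R]

/-- the function `f` vanishes on the set `N` -/
def Van (S : Fn K G E R) (N : Set G) (f : R) : Prop := ∀ n ∈ N, S.v f n = 0

/-- closed sets -/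
def Cl' (S : Fn K G E R) (N : Set G) : Prop := ∀ n, n ∉ N → ∃ f, S.Van N f ∧ S.v f n ≠ 0

/-- **Separation**: the invariants of a closed normal subgroup separate it from the other points. -/
theorem sep {N : Subgroup G} [N.Normal] (hN : S.Cl' (N : Set G)) {n : G} (hn : n ∉ N) :
    ∃ F ∈ S.Inv N, S.lt n F ≠ F := by
  classical
  obtain ⟨f, hf, hfn⟩ := hN n hn
  have hV := S.fin_lt f
  set U := span K (Set.range fun n : N => S.lt (n : G) f) with hU
  have hUf : FiniteDimensional K U := by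
    refine Submodule.finiteDimensional_of_le (S₂ := span K (Set.range fun g : G => S.lt g f)) (span_mono ?_)
    rintro _ ⟨n, rfl⟩
    exact ⟨n, rfl⟩
  obtain ⟨e, u, h1, h2, h3⟩ := exists_bas U
  have hU1 : ∀ x ∈ U, S.v x 1 = 0 := by
    intro x hx
    induction hx using Submodule.span_induction with
    | mem x hx =>
      obtain ⟨h, rfl⟩ := hx
      change S.v (S.lt (h : G) f) 1 = 0
      rw [S.v_lt, mul_one]
      exact hf h h.2
    | zero => rw [map_zero]; rfl
    | add x y _ _ ihx ihy => rw [map_add, Pi.add_apply, ihx, ihy, add_zero]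
    | smul a x _ ihx => rw [S.v_smul, ihx, mul_zero]
  have hb : LinearIndependent K (Fin.cons (S.lt n f) u : Fin (e + 1) → R) := by
    rw [linearIndependent_finCons]
    refine ⟨h1, fun h4 => ?_⟩
    rw [h3] at h4
    have h5 := hU1 _ h4
    rw [S.v_lt, mul_one] at h5
    exact hfn h5
  obtain ⟨q, hq⟩ := S.exists_pts hb
  -- the translates of `u`
  have h5 : ∀ h ∈ N, ∀ i, S.lt h (u i) ∈ span K (Set.range u) := by
    intro h hh i
    rw [h3]
    have h6 := h2 i
    generalize u i = x at h6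
    induction h6 using Submodule.span_induction with
    | mem x hx =>
      obtain ⟨m, rfl⟩ := hx
      change S.lt h (S.lt m f) ∈ _
      rw [S.lt_lt]
      exact subset_span ⟨⟨m * h, mul_mem m.2 hh⟩, rfl⟩
    | zero =>
      rw [map_zero]
      exact zero_mem _
    | add x y _ _ ihx ihy =>
      rw [map_add]
      exact add_mem ihx ihy
    | smul a x _ ihx =>
      rw [map_smul]
      exact smul_mem _ _ ihx
  have hA : ∀ h : N, ∃ A : Fin e → Fin e → K, ∀ i, S.lt (h : G) (u i) = ∑ k, A i k • u k := by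
    intro h
    choose A hA using fun i => (mem_span_range_iff_exists_fun K).mp (h5 h h.2 i)
    exact ⟨A, fun i => (hA i).symm⟩
  choose A hA using hA
  obtain ⟨A', hA'⟩ : ∃ A' : N → Matrix (Fin (e + 1)) (Fin (e + 1)) K, ∀ h, A' h = Matrix.of
      (Fin.cons (Fin.cons 1 fun _ => 0) fun i => Fin.cons 0 (A h i)) := ⟨fun h => _, fun h => rfl⟩
  obtain ⟨Y, hY⟩ : ∃ Y : Matrix (Fin (e + 1)) (Fin (e + 1)) R, Y = Matrix.of
      (Fin.cons (fun j => algebraMap K R (S.v (S.lt n f) (q j))) fun i j => S.rt (q j) (u i)) := ⟨_, rfl⟩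
  have hY0 : ∀ j, Y 0 j = algebraMap K R (S.v (S.lt n f) (q j)) := fun j => by rw [hY]; rfl
  have hYs : ∀ i j, Y (Fin.succ i) j = S.rt (q j) (u i) := fun i j => by rw [hY]; rfl
  have hYn : ∀ (h : N) i j, S.lt (h : G) (Y i j) = ∑ k, A' h i k • Y k j := by
    intro h i j
    rw [hA', Fin.sum_univ_succ]
    induction i using Fin.cases with
    | zero =>
      have h6 : ∀ k : Fin e, (Matrix.of (Fin.cons (Fin.cons 1 fun _ => 0) fun i => Fin.cons 0 (A h i)) :
          Matrix (Fin (e + 1)) (Fin (e + 1)) K) 0 k.succ = 0 := fun k => rfl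
      have h7 : (Matrix.of (Fin.cons (Fin.cons 1 fun _ => 0) fun i => Fin.cons 0 (A h i)) :
          Matrix (Fin (e + 1)) (Fin (e + 1)) K) 0 0 = 1 := rfl
      simp only [h6, h7, zero_smul, Finset.sum_const_zero, one_smul, add_zero]
      rw [hY0, AlgHom.commutes]
    | succ i =>
      have h6 : ∀ k : Fin e, (Matrix.of (Fin.cons (Fin.cons 1 fun _ => 0) fun i => Fin.cons 0 (A h i)) :
          Matrix (Fin (e + 1)) (Fin (e + 1)) K) i.succ k.succ = A h i k := fun k => rfl
      have h7 : (Matrix.of (Fin.cons (Fin.cons 1 fun _ => 0) fun i => Fin.cons 0 (A h i)) :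
          Matrix (Fin (e + 1)) (Fin (e + 1)) K) i.succ 0 = 0 := rfl
      simp only [h6, h7, zero_smul, zero_add, hYs]
      rw [S.lt_rt, hA, map_sum]
      exact Finset.sum_congr rfl fun k _ => map_smul _ _ _
  obtain ⟨Φ, hΦ⟩ : ∃ Φ, Φ = Y.det := ⟨_, rfl⟩
  have hΦv : ∀ x, S.v Φ x = (Matrix.of fun i j => S.v (Y i j) x).det := by
    intro x
    rw [hΦ, ← S.at'_apply, AlgHom.map_det]
    rfl
  have hΦ1 : S.v Φ 1 ≠ 0 := by
    rw [hΦv]
    have h6 : (Matrix.of fun i j => S.v (Y i j) 1) =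
        Matrix.of fun i j => S.v ((Fin.cons (S.lt n f) u : Fin (e + 1) → R) i) (q j) := by
      ext i j
      induction i using Fin.cases with
      | zero =>
        change S.v (Y 0 j) 1 = S.v (S.lt n f) (q j)
        rw [hY0, S.v_algebraMap]
      | succ i =>
        change S.v (Y i.succ j) 1 = S.v (u i) (q j)
        rw [hYs, S.v_rt, one_mul]
    rw [h6]
    exact hq
  have hΦn : S.v Φ n = 0 := by
    rw [hΦv]
    have h6 : f ∈ span K (Set.range u) := by
      rw [h3]
      exact subset_span ⟨1, S.lt_one f⟩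
    obtain ⟨c, hc⟩ := (mem_span_range_iff_exists_fun K).mp h6
    rw [← Matrix.exists_vecMul_eq_zero_iff]
    refine ⟨Fin.cons 1 fun i => - c i, fun h0 => one_ne_zero (congrFun h0 0), ?_⟩
    ext j
    change ∑ i, (Fin.cons 1 fun i => - c i : Fin (e + 1) → K) i * S.v (Y i j) n = 0
    rw [Fin.sum_univ_succ]
    simp only [Fin.cons_zero, Fin.cons_succ, one_mul, neg_mul, Finset.sum_neg_distrib]
    rw [hY0, S.v_algebraMap, S.v_lt, ← S.v_rt]
    conv_lhs => rw [← hc]
    rw [map_sum, map_sum, Finset.sum_apply]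
    simp only [map_smul, hYs, S.v_smul, S.v_rt]
    exact add_neg_cancel _
  have hΦ0 : Φ ≠ 0 := fun h0 => hΦ1 (by rw [h0, map_zero]; rfl)
  obtain ⟨χ, hχ⟩ : ∃ χ : G → K, ∀ h : N, χ h = (A' h).det :=
    ⟨fun g => if hg : g ∈ N then (A' ⟨g, hg⟩).det else 0, fun n => dif_pos n.2⟩
  have hs : ∀ h ∈ N, S.lt h Φ = χ h • Φ := fun h hh => by
    rw [hΦ, hχ ⟨h, hh⟩]
    exact lt_det (hYn ⟨h, hh⟩)
  obtain ⟨m, w, hm, -, hw1, hw2, -⟩ := char_ext hΦ0 hs
  refine ⟨Φ ^ m * w, fun h hh => ?_, fun h0 => ?_⟩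
  · conv_rhs => rw [← hw1 h hh]
    rw [map_mul, map_pow, hs h hh, smul_pow, smul_mul_assoc, mul_smul_comm]
  · have h6 := congrArg (fun F => S.v F 1) h0
    simp only [S.v_lt, mul_one, map_mul, map_pow, Pi.mul_apply, Pi.pow_apply, hΦn] at h6
    rw [zero_pow (by omega), zero_mul] at h6
    exact mul_ne_zero (pow_ne_zero _ hΦ1) (hw2 1) h6.symm

/-- an element with finitely many translates is algebraic over the invariants -/
theorem alg_of_fin {N : Subgroup G} {e : R} (h : (Set.range fun n : N => S.lt (n : G) e).Finite) :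
    IsAlgebraic (S.Inv N) e := by
  classical
  obtain ⟨O, hO⟩ : ∃ O : Finset R, O = h.toFinset := ⟨_, rfl⟩
  have hmem : ∀ x, x ∈ O ↔ ∃ n : N, S.lt (n : G) e = x := fun x => by
    rw [hO, Set.Finite.mem_toFinset]
    rfl
  have hst : ∀ n ∈ N, ∀ x ∈ O, S.lt n x ∈ O := by
    intro n hn x hx
    obtain ⟨m, rfl⟩ := (hmem x).mp hx
    rw [S.lt_lt]
    exact (hmem _).mpr ⟨m * ⟨n, hn⟩, rfl⟩
  have himg : ∀ n ∈ N, O.image (S.lt n) = O := by
    intro n hn
    refine Finset.eq_of_subset_of_card_le ?_ ?_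
    · intro y hy
      obtain ⟨x, hx, rfl⟩ := Finset.mem_image.mp hy
      exact hst n hn x hx
    · rw [Finset.card_image_of_injective _ (S.lt_inj n)]
  obtain ⟨p, hp⟩ : ∃ p : Polynomial R, p = ∏ o ∈ O, (Polynomial.X - Polynomial.C o) := ⟨_, rfl⟩
  have hpn : ∀ n ∈ N, p.map (S.lt n : R →+* R) = p := by
    intro n hn
    conv_rhs => rw [hp, ← himg n hn, Finset.prod_image (fun x _ y _ hxy => S.lt_inj n hxy)]
    rw [hp, Polynomial.map_prod]
    refine Finset.prod_congr rfl fun o _ => ?_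
    rw [Polynomial.map_sub, Polynomial.map_X, Polynomial.map_C]
    rfl
  obtain ⟨q, hq⟩ : ∃ q : Polynomial (S.Inv N), q.map (algebraMap (S.Inv N) R) = p := by
    have : p ∈ Polynomial.lifts (algebraMap (S.Inv N) R) := by
      rw [Polynomial.lifts_iff_coeff_lifts]
      intro k
      refine ⟨⟨p.coeff k, fun n hn => ?_⟩, rfl⟩
      have h1 := congrArg (fun r => r.coeff k) (hpn n hn)
      simp only [Polynomial.coeff_map] at h1
      exact h1
    exact (Polynomial.mem_lifts _).mp this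
  refine ⟨q, ?_, ?_⟩
  · rintro rfl
    rw [Polynomial.map_zero] at hq
    have : p ≠ 0 := by
      rw [hp, Finset.prod_ne_zero_iff]
      exact fun o _ => Polynomial.X_sub_C_ne_zero o
    exact this hq.symm
  · rw [Polynomial.aeval_def, ← Polynomial.eval_map, hq, hp, Polynomial.eval_prod]
    refine Finset.prod_eq_zero ((hmem e).mpr ⟨1, S.lt_one e⟩) ?_
    rw [Polynomial.eval_sub, Polynomial.eval_X, Polynomial.eval_C, sub_self]

end Pool.Agent.Q280.TG.Fn
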