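import Pool.Agent.Q280.TG.Q

/-!
# The stabilizer of an algebraically closed category is irreducible
-/

set_option autoImplicit false
set_option linter.unusedSectionVars false

open Module Submodule

namespace Pool.Agent.Q280.TG

/-- automorphisms which preserve an ideal permute its minimal primes -/
theorem comap_min {C : Type} [CommRing C] {J : Ideal C} {τ τ' : C →+* C} (h1 : ∀ c, τ (τ' c) = c)
    (h2 : ∀ c, τ' (τ c) = c) (hJ : ∀ c ∈ J, τ c ∈ J) (hJ' : ∀ c ∈ J, τ' c ∈ J) {P : Ideal C}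
    (hP : P ∈ J.minimalPrimes) : P.comap τ ∈ J.minimalPrimes := by
  have hPp : P.IsPrime := hP.1.1
  refine ⟨⟨inferInstance, fun c hc => hP.1.2 (hJ c hc)⟩, fun Q hQ hQP => ?_⟩
  have hQp : Q.IsPrime := hQ.1
  have h3 : P ≤ Q.comap τ' := hP.2 ⟨inferInstance, fun c hc => hQ.2 (hJ' c hc)⟩ fun c hc => by
    have h4 : τ (τ' c) ∈ P := hQP hc
    rwa [h1] at h4
  intro c hc
  have h4 : τ' (τ c) ∈ Q := h3 hc
  rwa [h2] at h4

namespace Fn

variable {K G E R : Type} [Field K] [Group G] [CommRing R] [Algebra K R] {S : Fn K G E R} [IsDomain R]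

/-- coefficients of the left translates -/
theorem coef_lt {d : ℕ} {b : Fin d → R} (hb : LinearIndependent K b) {f : R}
    (hf : ∀ g, S.lt g f ∈ span K (Set.range b)) :
    ∃ c : Fin d → R, ∀ g, S.lt g f = ∑ k, S.v (c k) g • b k := by
  classical
  obtain ⟨q, hq⟩ := S.exists_pts hb
  obtain ⟨M, hM⟩ : ∃ M : Matrix (Fin d) (Fin d) K, M = Matrix.of fun i j => S.v (b i) (q j) := ⟨_, rfl⟩
  have hMu : IsUnit M.det := by
    rw [hM]
    exact isUnit_iff_ne_zero.mpr hq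
  refine ⟨fun k => ∑ j, M⁻¹ j k • S.rt (q j) f, fun g => ?_⟩
  obtain ⟨γ, hγ⟩ := (mem_span_range_iff_exists_fun K).mp (hf g)
  rw [← hγ]
  refine Finset.sum_congr rfl fun k _ => ?_
  congr 1
  have h1 : ∀ j, S.v (S.rt (q j) f) g = ∑ i, γ i * M i j := fun j => by
    rw [S.v_rt, ← S.v_lt, ← hγ, map_sum, Finset.sum_apply]
    refine Finset.sum_congr rfl fun i _ => ?_
    rw [S.v_smul, hM]
    rfl
  rw [map_sum, Finset.sum_apply]
  have h2 : ∀ j, S.v (M⁻¹ j k • S.rt (q j) f) g = ∑ i, γ i * (M i j * M⁻¹ j k) := fun j => by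
    rw [S.v_smul, h1, Finset.mul_sum]
    exact Finset.sum_congr rfl fun i _ => by ring
  simp only [h2]
  rw [Finset.sum_comm]
  have h3 : ∀ i, ∑ j, γ i * (M i j * M⁻¹ j k) = γ i * (1 : Matrix (Fin d) (Fin d) K) i k := fun i => by
    rw [← Finset.mul_sum, ← Matrix.mul_apply, Matrix.mul_nonsing_inv _ hMu]
  simp only [h3]
  rw [Finset.sum_eq_single k]
  · rw [Matrix.one_apply_eq, mul_one]
  · intro i _ hi
    rw [Matrix.one_apply_ne hi, mul_zero]
  · intro h
    exact absurd (Finset.mem_univ k) h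

/-- a linear functional of the left translates is a function on the group -/
theorem exists_fun_lt (f : R) (l : R →ₗ[K] K) : ∃ F : R, ∀ g, S.v F g = l (S.lt g f) := by
  have := S.fin_lt f
  obtain ⟨d, b, h1, h2, h3⟩ := exists_bas (span K (Set.range fun g : G => S.lt g f))
  obtain ⟨c, hc⟩ := coef_lt (S := S) h1 (f := f) fun g => by
    rw [h3]
    exact subset_span ⟨g, rfl⟩
  refine ⟨∑ k, l (b k) • c k, fun g => ?_⟩
  rw [hc, map_sum, map_sum, Finset.sum_apply]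
  refine Finset.sum_congr rfl fun k _ => ?_
  rw [S.v_smul, map_smul, smul_eq_mul, mul_comm]

theorem Fix_closed (A : Subalgebra K R) : S.Cl' (S.Fix (A : Set R) : Set G) := by
  intro n hn
  have h1 : ∃ f ∈ A, S.lt n f ≠ f := by
    by_contra hcon
    push Not at hcon
    exact hn fun f hf => hcon f hf
  obtain ⟨f, hf, hnf⟩ := h1
  obtain ⟨x, hx⟩ : ∃ x, S.v f (n * x) ≠ S.v f x := by
    by_contra hcon
    push Not at hcon
    exact hnf (S.ext fun x => by rw [S.v_lt, hcon])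
  refine ⟨S.rt x f - algebraMap K R (S.v f x), fun h hh => ?_, ?_⟩
  · rw [map_sub, Pi.sub_apply, S.v_algebraMap, S.v_rt, ← S.v_lt, hh f hf, sub_self]
  · rw [map_sub, Pi.sub_apply, S.v_algebraMap, S.v_rt]
    exact sub_ne_zero.mpr hx

variable [IsAlgClosed K]

/-- **Irreducibility** -/
theorem irred {N : Subgroup G} [hNn : N.Normal] (hN : S.Cl' (N : Set G)) (hc : Clo (S.Inv N)) {f g : R}
    (hfg : ∀ n ∈ N, S.v f n * S.v g n = 0) : S.Van (N : Set G) f ∨ S.Van (N : Set G) g := by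
  classical
  obtain ⟨W, hW, hfW⟩ := S.exists_st_fin (F := {f, g}) (by simp)
  have hf : f ∈ W := hfW (by simp)
  have hg : g ∈ W := hfW (by simp)
  obtain ⟨F₀, hF₀, hFW⟩ := adjoin_st ⊥ hW
  have hbot : S.IsCat (⊥ : Subalgebra K R) := by
    have key : ∀ T : R →ₐ[K] R, ∀ f ∈ (⊥ : Subalgebra K R), T f ∈ (⊥ : Subalgebra K R) := by
      intro T f hf
      obtain ⟨c, rfl⟩ := Algebra.mem_bot.mp hf
      rw [AlgHom.commutes]
      exact Algebra.mem_bot.mpr ⟨c, rfl⟩
    exact ⟨fun g => key _, fun g => key _, key _⟩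
  have hC := hbot.adjoin hW
  obtain ⟨C, hCd⟩ : ∃ C, C = Algebra.adjoin K (((⊥ : Subalgebra K R) : Set R) ∪ W) := ⟨_, rfl⟩
  rw [← hCd] at hC hFW
  have hfg' : C.FG := by
    rw [← hFW]
    have h1 : Algebra.adjoin K (((⊥ : Subalgebra K R) : Set R) ∪ F₀) = Algebra.adjoin K F₀ := by
      apply le_antisymm
      · refine Algebra.adjoin_le (Set.union_subset ?_ Algebra.subset_adjoin)
        exact SetLike.coe_subset_coe.mpr bot_le
      · exact Algebra.adjoin_mono Set.subset_union_right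
    rw [h1]
    exact Subalgebra.fg_def.mpr ⟨F₀, hF₀, rfl⟩
  have hfC : f ∈ C := by
    rw [hCd]
    exact Algebra.subset_adjoin (Or.inr hf)
  have hgC : g ∈ C := by
    rw [hCd]
    exact Algebra.subset_adjoin (Or.inr hg)
  have hft : Algebra.FiniteType K C := (Subalgebra.fg_iff_finiteType C).mp hfg'
  have hnoe : IsNoetherianRing C := Algebra.FiniteType.isNoetherianRing K C
  -- the vanishing ideal
  obtain ⟨J, hJ⟩ : ∃ J : Ideal C, ∀ c : C, c ∈ J ↔ ∀ n ∈ N, S.v (c : R) n = 0 :=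
    ⟨{ carrier := {c | ∀ n ∈ N, S.v (c : R) n = 0}
       add_mem' := fun {a b} ha hb n hn => by
         change S.v ((a : R) + b) n = 0
         rw [map_add, Pi.add_apply, ha n hn, hb n hn, add_zero]
       zero_mem' := fun n hn => by
         change S.v (0 : R) n = 0
         rw [map_zero]
         rfl
       smul_mem' := fun c x hx n hn => by
         change S.v ((c : R) * x) n = 0
         rw [map_mul, Pi.mul_apply, hx n hn, mul_zero] }, fun c => Iff.rfl⟩
  have hfin : (J.minimalPrimes).Finite := Ideal.finite_minimalPrimes_of_isNoetherianRing C J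
  -- the translations of `C`
  obtain ⟨τ, hτ⟩ : ∃ τ : G → C →+* C, ∀ n (c : C), (τ n c : R) = S.lt n c :=
    ⟨fun n => (((S.lt n).comp C.val).codRestrict C fun x => hC.lt n x x.2 : C →ₐ[K] C), fun n c => rfl⟩
  obtain ⟨κ, hκ⟩ : ∃ κ : G → C →+* C, ∀ n (c : C), (κ n c : R) = S.lt n (S.rt n⁻¹ c) :=
    ⟨fun n => (((S.lt n).comp ((S.rt n⁻¹).comp C.val)).codRestrict C fun x => hC.lt n _ (hC.rt n⁻¹ x x.2) : C →ₐ[K] C),
      fun n c => rfl⟩
  have hτi : ∀ n c, τ n (τ n⁻¹ c) = c := fun n c => Subtype.ext (by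
    rw [hτ, hτ, S.lt_lt, inv_mul_cancel, S.lt_one])
  have hτi' : ∀ n c, τ n⁻¹ (τ n c) = c := fun n c => by
    have := hτi n⁻¹ c
    rwa [inv_inv] at this
  have hκi : ∀ n c, κ n (κ n⁻¹ c) = c := fun n c => Subtype.ext (by
    rw [hκ, hκ, S.lt_rt, S.lt_lt, inv_mul_cancel, S.lt_one, S.rt_rt, inv_inv, inv_mul_cancel, S.rt_one])
  have hκi' : ∀ n c, κ n⁻¹ (κ n c) = c := fun n c => by
    have := hκi n⁻¹ c
    rwa [inv_inv] at this
  have hτJ : ∀ n ∈ N, ∀ c ∈ J, τ n c ∈ J := fun n hn c hc => (hJ _).mpr fun m hm => by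
    rw [hτ, S.v_lt]
    exact (hJ c).mp hc _ (mul_mem hn hm)
  have hκJ : ∀ n, ∀ c ∈ J, κ n c ∈ J := fun n c hc => (hJ _).mpr fun m hm => by
    rw [hκ, S.v_lt, S.v_rt]
    exact (hJ c).mp hc _ (hNn.conj_mem m hm n)
  have hτP : ∀ n ∈ N, ∀ P ∈ J.minimalPrimes, P.comap (τ n) ∈ J.minimalPrimes := fun n hn P hP =>
    comap_min (hτi n) (hτi' n) (hτJ n hn) (hτJ n⁻¹ (N.inv_mem hn)) hP
  have hκP : ∀ n, ∀ P ∈ J.minimalPrimes, P.comap (κ n) ∈ J.minimalPrimes := fun n P hP =>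
    comap_min (hκi n) (hκi' n) (hκJ n) (hκJ n⁻¹) hP
  -- the subgroup which fixes all the minimal primes
  have hcomap : ∀ n ∈ N, (∀ P ∈ J.minimalPrimes, ∀ c ∈ P, τ n c ∈ P) → ∀ P ∈ J.minimalPrimes,
      P.comap (τ n) = P := by
    intro n hn h P hP
    have h1 : P ≤ P.comap (τ n) := fun c hc => h P hP c hc
    exact le_antisymm ((hτP n hn P hP).2 hP.1 h1) h1
  obtain ⟨N', hN'⟩ : ∃ N' : Subgroup G, ∀ n, n ∈ N' ↔ n ∈ N ∧ ∀ P ∈ J.minimalPrimes, ∀ c ∈ P, τ n c ∈ P :=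
    ⟨{ carrier := {n | n ∈ N ∧ ∀ P ∈ J.minimalPrimes, ∀ c ∈ P, τ n c ∈ P}
       mul_mem' := fun {a b} ha hb => ⟨mul_mem ha.1 hb.1, fun P hP c hc => by
         have h1 : τ (a * b) c = τ b (τ a c) := Subtype.ext (by rw [hτ, hτ, hτ, S.lt_lt])
         rw [h1]
         exact hb.2 P hP _ (ha.2 P hP c hc)⟩
       one_mem' := ⟨N.one_mem, fun P hP c hc => by
         have h1 : τ 1 c = c := Subtype.ext (by rw [hτ, S.lt_one])
         rwa [h1]⟩
       inv_mem' := fun {a} ha => ⟨N.inv_mem ha.1, fun P hP c hc => by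
         have h1 := hcomap a ha.1 ha.2 P hP
         rw [← h1, Ideal.mem_comap, hτi]
         exact hc⟩ }, fun n => Iff.rfl⟩
  have hN'le : N' ≤ N := fun n hn => ((hN' n).mp hn).1
  have hnorm : N'.Normal := ⟨fun m hm x => by
    rw [hN'] at hm ⊢
    refine ⟨hNn.conj_mem m hm.1 x, fun P hP c hc => ?_⟩
    have h1 : κ x (τ (x * m * x⁻¹) c) = τ m (κ x c) := Subtype.ext (S.ext fun y => by
      rw [hκ, S.v_lt, S.v_rt, hτ, S.v_lt, hτ, S.v_lt, hκ, S.v_lt, S.v_rt]
      group)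
    have hP' := hκP x⁻¹ P hP
    have h2 : κ x c ∈ P.comap (κ x⁻¹) := by
      rw [Ideal.mem_comap, hκi']
      exact hc
    have h3 := hm.2 _ hP' _ h2
    rw [← h1, Ideal.mem_comap, hκi'] at h3
    exact h3⟩
  -- it is closed
  have hcl : S.Cl' (N' : Set G) := by
    intro m hm
    by_cases hmN : m ∈ N
    · have h1 : ∃ P ∈ J.minimalPrimes, ∃ c ∈ P, τ m c ∉ P := by
        by_contra hcon
        push Not at hcon
        exact hm ((hN' m).mpr ⟨hmN, hcon⟩)
      obtain ⟨P, hP, c, hc, hcm⟩ := h1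
      obtain ⟨PR, hPR⟩ : ∃ PR : Submodule K R, ∀ y : R, y ∈ PR ↔ ∃ p ∈ P, (p : R) = y :=
        ⟨(P.restrictScalars K).map C.val.toLinearMap, fun y => Iff.rfl⟩
      have h2 : S.lt m c ∉ PR := by
        rw [hPR]
        rintro ⟨p, hp, hpe⟩
        apply hcm
        have : τ m c = p := Subtype.ext (by rw [hτ, hpe])
        rw [this]
        exact hp
      obtain ⟨l, hl1, hl2⟩ := Submodule.exists_le_ker_of_notMem h2
      obtain ⟨F, hF⟩ := exists_fun_lt (S := S) (c : R) l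
      refine ⟨F, fun n hn => ?_, by rw [hF]; exact hl1⟩
      rw [hF]
      exact hl2 ((hPR _).mpr ⟨τ n c, ((hN' n).mp hn).2 P hP c hc, hτ n c⟩)
    · obtain ⟨F, h1, h2⟩ := hN m hmN
      exact ⟨F, fun n hn => h1 n (hN'le hn), h2⟩
  -- the translates of an invariant
  have hfinI : ∀ e ∈ S.Inv N', (Set.range fun n : N => S.lt (n : G) e).Finite := by
    intro e he
    have : Finite J.minimalPrimes := hfin
    obtain ⟨σ, hσ⟩ : ∃ σ : N → (J.minimalPrimes → J.minimalPrimes), ∀ n P, (σ n P).1 = P.1.comap (τ (n : G)) :=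
      ⟨fun n P => ⟨P.1.comap (τ (n : G)), hτP n n.2 P.1 P.2⟩, fun n P => rfl⟩
    have hfac : ∀ a b : N, σ a = σ b → S.lt (a : G) e = S.lt (b : G) e := by
      intro a b hab
      have h1 : (a : G) * (b : G)⁻¹ ∈ N' := by
        rw [hN']
        refine ⟨mul_mem a.2 (N.inv_mem b.2), fun P hP c hc => ?_⟩
        have h2 : τ ((a : G) * (b : G)⁻¹) c = τ (b : G)⁻¹ (τ a c) := Subtype.ext (by
          rw [hτ, hτ, hτ, S.lt_lt])
        obtain ⟨P', hP'⟩ : ∃ P', P' = P.comap (τ (a : G)⁻¹) := ⟨_, rfl⟩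
        have hP'm : P' ∈ J.minimalPrimes := by
          rw [hP']
          exact hτP _ (N.inv_mem a.2) P hP
        have h3 : P'.comap (τ (a : G)) = P := by
          ext y
          rw [hP', Ideal.mem_comap, Ideal.mem_comap, hτi']
        have h4 : P'.comap (τ (b : G)) = P := by
          have h5 := congrArg Subtype.val (congrFun hab ⟨P', hP'm⟩)
          rw [hσ, hσ] at h5
          change P'.comap (τ (a : G)) = P'.comap (τ (b : G)) at h5
          rw [← h5, h3]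
        rw [h2, ← h4, Ideal.mem_comap, hτi, ← Ideal.mem_comap, h3]
        exact hc
      have h2 : (a : G) = (a : G) * (b : G)⁻¹ * b := by group
      rw [h2, ← S.lt_lt, he _ h1]
    have h1 : (Set.range fun n : N => S.lt (n : G) e) ⊆
        Set.range fun s : J.minimalPrimes → J.minimalPrimes =>
          if h : ∃ n : N, σ n = s then S.lt ((Classical.choose h : N) : G) e else 0 := by
      rintro _ ⟨n, rfl⟩
      refine ⟨σ n, ?_⟩
      have h2 : ∃ m : N, σ m = σ n := ⟨n, rfl⟩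
      simp only [dif_pos h2]
      exact hfac _ _ (Classical.choose_spec h2)
    exact (Set.finite_range _).subset h1
  have hNN' : N ≤ N' := by
    intro m hm
    by_contra hm'
    obtain ⟨F, hF, hFm⟩ := sep hcl hm'
    have h1 := alg_of_fin (hfinI F hF)
    exact hFm (hc (mem_clA'.mpr h1) m hm)
  -- the vanishing ideal is prime
  have hmax : Ideal.IsPrime (RingHom.ker ((S.at' 1).comp C.val : C →ₐ[K] K)) := RingHom.ker_isPrime _
  obtain ⟨P₀, hP₀, hP₀'⟩ := Ideal.exists_minimalPrimes_le (I := J)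
    (J := RingHom.ker ((S.at' 1).comp C.val : C →ₐ[K] K)) fun c hc => (hJ c).mp hc 1 N.one_mem
  have h1 : P₀ ≤ J := by
    intro c hc
    rw [hJ]
    intro n hn
    have h2 := hP₀' (((hN' n).mp (hNN' hn)).2 P₀ hP₀ c hc)
    have h3 : S.v (τ n c : R) 1 = 0 := h2
    rwa [hτ, S.v_lt, mul_one] at h3
  have hprime : P₀.IsPrime := hP₀.1.1
  have h2 : (⟨f, hfC⟩ : C) * ⟨g, hgC⟩ ∈ P₀ := hP₀.1.2 ((hJ _).mpr fun n hn => by
    change S.v (f * g) n = 0
    rw [map_mul, Pi.mul_apply]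
    exact hfg n hn)
  rcases hprime.mem_or_mem h2 with h3 | h3
  · exact Or.inl ((hJ _).mp (h1 h3))
  · exact Or.inr ((hJ _).mp (h1 h3))

end Fn

end Pool.Agent.Q280.TG
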