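import Pool.Agent.Q280.TG.QI
import Pool.Agent.Q280.TG.O

/-!
# Domains of complex functions on irreducible sets
-/

set_option autoImplicit false
set_option linter.unusedSectionVars false

open Module Submodule

namespace Pool.Agent.Q280.TG

section Gen

variable {K D : Type} [Field K] [CommRing D] [IsDomain D] [Algebra K D]

theorem clD_poly {X : Set D} {a : D} (p : Polynomial D) (hp : p ≠ 0) (hc : ∀ i, p.coeff i ∈ (MM K D).closure X)
    (h0 : p.eval a = 0) : a ∈ (MM K D).closure X := by
  have h1 : a ∈ (MM K D).closure ((MM K D).closure X) := by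
    rw [mem_clK]
    obtain ⟨q, hq⟩ : ∃ q : Polynomial (Algebra.adjoin K ((MM K D).closure X)), q.map (algebraMap _ D) = p := by
      have : p ∈ Polynomial.lifts (algebraMap (Algebra.adjoin K ((MM K D).closure X)) D) := by
        rw [Polynomial.lifts_iff_coeff_lifts]
        intro n
        exact ⟨⟨p.coeff n, Algebra.subset_adjoin (hc n)⟩, rfl⟩
      exact (Polynomial.mem_lifts _).mp this
    refine ⟨q, ?_, ?_⟩
    · rintro rfl
      exact hp (by rw [← hq, Polynomial.map_zero])
    · rw [Polynomial.aeval_def, ← Polynomial.eval_map, hq]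
      exact h0
  rwa [(MM K D).closure_closure] at h1

theorem image_adjoin' {R : Type} [CommRing R] [Algebra K R] {s : Set R} {T : Set D} (θ : R →ₐ[K] D)
    (h : ∀ y ∈ s, θ y ∈ (MM K D).closure T) {x : R} (hx : x ∈ Algebra.adjoin K s) : θ x ∈ (MM K D).closure T := by
  have h1 : Algebra.adjoin K s ≤ (clS T : Subalgebra K D).comap θ := Algebra.adjoin_le fun y hy => mem_clS.mpr (h y hy)
  exact mem_clS.mp (h1 hx)

variable [Algebra K ℂ]

/-- **Specialization**: if `e` is injective on `A` and the images of the `z i` are independent over the image of `A`,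
then `z` is independent over `A` and `e` is injective on the algebra generated by `A` and the `z i`. -/
theorem inj_adjoin {A : Subalgebra K D} (e : D →ₐ[K] ℂ) (he : ∀ a ∈ A, e a = 0 → a = 0) {ι : Type} {z : ι → D}
    (hz : AlgebraicIndependent (IntermediateField.adjoin ℚ (e '' (A : Set D))) (fun i => e (z i))) :
    AlgebraicIndependent A z ∧ ∀ y ∈ Algebra.adjoin K ((A : Set D) ∪ Set.range z), e y = 0 → y = 0 := by
  obtain ⟨F, hF⟩ : ∃ F, F = IntermediateField.adjoin ℚ (e '' (A : Set D)) := ⟨_, rfl⟩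
  rw [← hF] at hz
  obtain ⟨i₀, hi₀⟩ : ∃ i₀ : A →+* F, ∀ a, (i₀ a : ℂ) = e a :=
    ⟨((e : D →+* ℂ).comp (algebraMap A D)).codRestrict F fun a => by
      rw [hF]
      exact IntermediateField.subset_adjoin _ _ ⟨a, a.2, rfl⟩, fun a => rfl⟩
  have hinj : Function.Injective i₀ := by
    rw [injective_iff_map_eq_zero]
    intro a ha
    apply Subtype.ext
    apply he a a.2
    rw [← hi₀, ha]
    rfl
  have key : ∀ p : MvPolynomial ι A, e (MvPolynomial.aeval z p) = 0 → p = 0 := by
    intro p hp
    have h1 : MvPolynomial.aeval (fun i => e (z i)) (MvPolynomial.map i₀ p) = 0 := by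
      rw [← hp, MvPolynomial.aeval_def, MvPolynomial.eval₂_map, MvPolynomial.aeval_def]
      have h2 := MvPolynomial.hom_eval₂ p (algebraMap A D) (e : D →+* ℂ) z
      refine Eq.trans ?_ h2.symm
      have h3 : (algebraMap F ℂ).comp i₀ = (e : D →+* ℂ).comp (algebraMap A D) := RingHom.ext hi₀
      rw [h3]
      rfl
    have h2 := (algebraicIndependent_iff.mp hz) _ h1
    exact MvPolynomial.map_injective _ hinj (by rw [h2, map_zero])
  refine ⟨algebraicIndependent_iff.mpr fun p hp => key p (by rw [hp, map_zero]), fun y hy h0 => ?_⟩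
  have h1 : (Algebra.adjoin A (Set.range z)).restrictScalars K = Algebra.adjoin K ((A : Set D) ∪ Set.range z) :=
    Algebra.restrictScalars_adjoin K A (Set.range z)
  rw [← h1] at hy
  have h2 : y ∈ Algebra.adjoin A (Set.range z) := hy
  rw [Algebra.adjoin_range_eq_range_aeval] at h2
  obtain ⟨p, rfl⟩ := h2
  have h3 := key p h0
  rw [h3]
  exact map_zero _

end Gen

namespace Fn

variable {K G E R : Type} [Field K] [Group G] [CommRing R] [Algebra K R] (S : Fn K G E R) [Algebra K ℂ]

/-- restriction of functions to a set -/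
def res (T : Set G) : R →ₐ[K] (T → ℂ) where
  toFun f t := algebraMap K ℂ (S.v f t)
  map_one' := by
    ext t
    rw [map_one, Pi.one_apply, Pi.one_apply, map_one]
  map_mul' a b := by
    ext t
    rw [map_mul, Pi.mul_apply, Pi.mul_apply, map_mul]
  map_zero' := by
    ext t
    rw [map_zero, Pi.zero_apply, Pi.zero_apply, map_zero]
  map_add' a b := by
    ext t
    rw [map_add, Pi.add_apply, Pi.add_apply, map_add]
  commutes' c := by
    ext t
    rw [S.v_algebraMap]
    rfl

theorem res_apply (T : Set G) (f : R) (t : T) : S.res T f t = algebraMap K ℂ (S.v f t) := rfl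

/-- the algebra of the functions on `T` generated by constants and restrictions -/
def DC (T : Set G) : Subalgebra K (T → ℂ) :=
  Algebra.adjoin K ((Set.range fun (c : ℂ) (_ : T) => c) ∪ Set.range (S.res T))

theorem rep {T : Set G} {u : T → ℂ} (hu : u ∈ S.DC T) : ∃ (ι : Type) (_ : Fintype ι) (c : ι → ℂ) (f : ι → R),
    ∀ t, u t = ∑ i, c i * algebraMap K ℂ (S.v (f i) t) := by
  induction hu using Algebra.adjoin_induction with
  | mem u hu =>
    rcases hu with ⟨c, rfl⟩ | ⟨f, rfl⟩
    · exact ⟨Unit, inferInstance, fun _ => c, fun _ => 1, fun t => by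
        rw [Finset.univ_unique, Finset.sum_singleton, map_one, Pi.one_apply, map_one, mul_one]⟩
    · exact ⟨Unit, inferInstance, fun _ => 1, fun _ => f, fun t => by
        rw [Finset.univ_unique, Finset.sum_singleton, one_mul]
        rfl⟩
  | algebraMap r =>
    exact ⟨Unit, inferInstance, fun _ => 1, fun _ => algebraMap K R r, fun t => by
      rw [Finset.univ_unique, Finset.sum_singleton, one_mul, S.v_algebraMap]
      rfl⟩
  | add u w _ _ ihu ihw =>
    obtain ⟨ι, _, c, f, h⟩ := ihu
    obtain ⟨κ, _, d, g, k⟩ := ihw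
    refine ⟨ι ⊕ κ, inferInstance, Sum.elim c d, Sum.elim f g, fun t => ?_⟩
    rw [Pi.add_apply, h, k, Fintype.sum_sum_type]
    rfl
  | mul u w _ _ ihu ihw =>
    obtain ⟨ι, _, c, f, h⟩ := ihu
    obtain ⟨κ, _, d, g, k⟩ := ihw
    refine ⟨ι × κ, inferInstance, fun p => c p.1 * d p.2, fun p => f p.1 * g p.2, fun t => ?_⟩
    rw [Pi.mul_apply, h, k, Finset.sum_mul_sum, Fintype.sum_prod_type]
    refine Finset.sum_congr rfl fun i _ => Finset.sum_congr rfl fun j _ => ?_
    rw [map_mul, Pi.mul_apply, map_mul]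
    ring

theorem zeros {T : Set G} {u : T → ℂ} (hu : u ∈ S.DC T) : ∃ (d : ℕ) (g : Fin d → R),
    ∀ t : T, u t = 0 ↔ ∀ j, S.v (g j) t = 0 := by
  obtain ⟨ι, _, c, f, h⟩ := S.rep hu
  have hfd : FiniteDimensional K (span K (Set.range c)) := FiniteDimensional.span_of_finite K (Set.finite_range c)
  obtain ⟨d, b, h1, -, h3⟩ := exists_bas (span K (Set.range c))
  have h4 : ∀ i, ∃ a : Fin d → K, ∑ j, a j • b j = c i := fun i => by
    rw [← mem_span_range_iff_exists_fun K, h3]
    exact subset_span ⟨i, rfl⟩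
  choose a ha using h4
  refine ⟨d, fun j => ∑ i, a i j • f i, fun t => ?_⟩
  have h5 : u t = ∑ j, S.v (∑ i, a i j • f i) t • b j := by
    rw [h]
    simp only [map_sum, Finset.sum_apply, S.v_smul, Finset.sum_smul]
    rw [Finset.sum_comm]
    refine Finset.sum_congr rfl fun i _ => ?_
    rw [← ha, Finset.sum_mul]
    refine Finset.sum_congr rfl fun j _ => ?_
    rw [Algebra.smul_def, Algebra.smul_def, map_mul]
    ring
  constructor
  · intro h0
    rw [h5] at h0
    exact Fintype.linearIndependent_iff.mp h1 _ h0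
  · intro h0
    rw [h5]
    simp only [h0, zero_smul, Finset.sum_const_zero]

/-- irreducible sets -/
def Irr (T : Set G) : Prop := ∀ f g : R, (∀ n ∈ T, S.v f n * S.v g n = 0) → S.Van T f ∨ S.Van T g

variable {S}

/-- **The functions on an irreducible set form a domain.** -/
theorem dom {T : Set G} (hT : S.Irr T) (hne : T.Nonempty) : IsDomain (S.DC T) := by
  obtain ⟨t₀, ht₀⟩ := hne
  have h1 : Nontrivial (S.DC T) := ⟨⟨0, 1, fun h => by
    have h2 := congrFun (congrArg Subtype.val h) ⟨t₀, ht₀⟩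
    exact zero_ne_one h2⟩⟩
  have h2 : NoZeroDivisors (S.DC T) := ⟨fun {u w} huw => by
    by_contra hcon
    push Not at hcon
    obtain ⟨hu, hw⟩ := hcon
    have hu' : ∃ t, (u : T → ℂ) t ≠ 0 := by
      by_contra hc
      push Not at hc
      exact hu (Subtype.ext (funext hc))
    have hw' : ∃ t, (w : T → ℂ) t ≠ 0 := by
      by_contra hc
      push Not at hc
      exact hw (Subtype.ext (funext hc))
    obtain ⟨t, ht⟩ := hu'
    obtain ⟨s, hs⟩ := hw'
    obtain ⟨d, g, hg⟩ := S.zeros u.2
    obtain ⟨e, h, hh⟩ := S.zeros w.2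
    have h3 : ∃ j, S.v (g j) t ≠ 0 := by
      by_contra hc
      push Not at hc
      exact ht ((hg t).mpr hc)
    have h4 : ∃ j, S.v (h j) s ≠ 0 := by
      by_contra hc
      push Not at hc
      exact hs ((hh s).mpr hc)
    obtain ⟨j, hj⟩ := h3
    obtain ⟨l, hl⟩ := h4
    have h5 : ¬ ∀ n ∈ T, S.v (g j) n * S.v (h l) n = 0 := by
      intro hc
      rcases hT _ _ hc with h6 | h6
      · exact hj (h6 t t.2)
      · exact hl (h6 s s.2)
    push Not at h5
    obtain ⟨n, hn, h6⟩ := h5
    have h7 : (u : T → ℂ) ⟨n, hn⟩ * (w : T → ℂ) ⟨n, hn⟩ = 0 := congrFun (congrArg Subtype.val huw) ⟨n, hn⟩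
    rcases mul_eq_zero.mp h7 with h8 | h8
    · exact left_ne_zero_of_mul h6 ((hg _).mp h8 j)
    · exact right_ne_zero_of_mul h6 ((hh _).mp h8 l)⟩
  exact NoZeroDivisors.to_isDomain _

end Fn

end Pool.Agent.Q280.TG
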