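import Pool.Agent.Q280.TG.T

/-!
# The relative period conjecture implies that the kernel is stable
-/

set_option autoImplicit false
set_option linter.unusedSectionVars false

open Module Submodule Q241.SX

namespace Pool.Agent.Q280.TG.Fn

variable {K G E R : Type} [Field K] [Group G] [CommRing R] [Algebra K R] {S : Fn K G E R} [IsAlgClosed K] [IsDomain R]

section D

variable {D : Type} [CommRing D] [IsDomain D] [Algebra K D] (ev : R →ₐ[K] D)

/-- The density argument for homomorphisms to domains. -/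
theorem densityD {B : Subalgebra K R} (hB : S.IsCat B) {r : ℕ} (x : Fin r → R) {W : Submodule K R}
    [FiniteDimensional K W] (hW : ∀ g, ∀ w ∈ W, S.rt g w ∈ W)
    (h : (W : Set R) ⊆ (MM K R).closure ((B : Set R) ∪ Set.range x)) :
    ∃ q : G, ∀ w ∈ W, ev w ∈ (MM K D).closure (ev '' (B : Set R) ∪ Set.range fun i => ev (S.rt q (x i))) := by
  classical
  obtain ⟨d, b, -, h2, h3⟩ := exists_bas W
  have h4 : ∀ j, ∃ p : Polynomial (Algebra.adjoin K ((B : Set R) ∪ Set.range x)), p ≠ 0 ∧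
      Polynomial.aeval (b j) p = 0 := fun j => mem_clK.mp (h (h2 j))
  choose p hp0 hp using h4
  have ha : (∏ j, ((p j).leadingCoeff : R)) ≠ 0 := by
    rw [Finset.prod_ne_zero_iff]
    intro j _ h5
    exact hp0 j (Polynomial.leadingCoeff_eq_zero.mp (Subtype.ext h5))
  obtain ⟨q, hq⟩ := S.exists_rt ev ha
  refine ⟨q, ?_⟩
  obtain ⟨θ, hθ⟩ : ∃ θ : R →ₐ[K] D, ∀ y, θ y = ev (S.rt q y) := ⟨ev.comp (S.rt q), fun _ => rfl⟩
  obtain ⟨T, hT⟩ : ∃ T, T = ev '' (B : Set R) ∪ Set.range fun i => ev (S.rt q (x i)) := ⟨_, rfl⟩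
  rw [← hT]
  have hD : ∀ y ∈ Algebra.adjoin K ((B : Set R) ∪ Set.range x), θ y ∈ (MM K D).closure T := by
    intro y hy
    refine image_adjoin' θ ?_ hy
    rintro z (hz | ⟨i, rfl⟩)
    · rw [hθ, hT]
      exact sub_clK _ (Or.inl ⟨_, hB.rt q z hz, rfl⟩)
    · rw [hθ, hT]
      exact sub_clK _ (Or.inr ⟨i, rfl⟩)
  have hb : ∀ j, θ (b j) ∈ (MM K D).closure T := by
    intro j
    refine clD_poly ((p j).map ((θ : R →+* D).comp (algebraMap (Algebra.adjoin K ((B : Set R) ∪ Set.range x)) R)))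
      ?_ (fun i => ?_) ?_
    · intro h0
      have h5 := congrArg (fun q => q.coeff (p j).natDegree) h0
      simp only [Polynomial.coeff_map, Polynomial.coeff_zero] at h5
      rw [map_prod, map_prod, Finset.prod_ne_zero_iff] at hq
      refine hq j (Finset.mem_univ j) ?_
      rw [← hθ]
      exact h5
    · rw [Polynomial.coeff_map]
      exact hD _ ((p j).coeff i).2
    · rw [Polynomial.eval_map]
      have h5 := Polynomial.hom_eval₂ (p j) (algebraMap (Algebra.adjoin K ((B : Set R) ∪ Set.range x)) R)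
        (θ : R →+* D) (b j)
      rw [← Polynomial.aeval_def, hp, map_zero] at h5
      exact h5.symm
  intro w hw
  have h5 : S.rt q⁻¹ w ∈ span K (Set.range b) := by
    rw [h3]
    exact hW _ _ hw
  have h6 : ev w = θ (S.rt q⁻¹ w) := by
    rw [hθ, S.rt_rt, mul_inv_cancel, S.rt_one]
  rw [h6]
  obtain ⟨c, hc⟩ := (mem_span_range_iff_exists_fun K).mp h5
  refine image_adjoin' θ (s := Set.range b) ?_ ?_
  · rintro _ ⟨j, rfl⟩
    exact hb j
  · rw [← hc]
    exact sum_mem fun j _ => Subalgebra.smul_mem _ (Algebra.subset_adjoin (Set.mem_range_self j)) _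

/-- an element of a set of small rank which is killed by a specialization vanishes -/
theorem spec_zero [Algebra K ℂ] {A : Subalgebra K D} (e : D →ₐ[K] ℂ) {n : ℕ} {z : Fin n → D}
    (hz : AlgebraicIndependent A z) (hinj : ∀ y ∈ Algebra.adjoin K ((A : Set D) ∪ Set.range z), e y = 0 → y = 0)
    {P : Set D} (hP : (AlgebraicIndependent.matroid A D).eRk P ≤ (n : ℕ)) (hzP : ∀ i, z i ∈ P) {y : D} (hy : y ∈ P)
    (hy0 : e y = 0) : y = 0 := by
  have hbas : y ∈ (AlgebraicIndependent.matroid A D).closure (Set.range z) := by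
    by_contra hcon
    have h1 : (AlgebraicIndependent.matroid A D).Indep (Set.range z) := by
      rw [AlgebraicIndependent.matroid_indep_iff]
      exact hz.to_subtype_range
    rw [h1.notMem_closure_iff (by simp)] at hcon
    have h2 : (insert y (Set.range z)).encard ≤ (n : ℕ) := by
      refine (hcon.1.encard_le_eRk_of_subset ?_).trans hP
      rintro x (rfl | ⟨i, rfl⟩)
      · exact hy
      · exact hzP i
    rw [Set.encard_insert_of_notMem hcon.2] at h2
    have h3 : (Set.range z).encard = (n : ℕ) := by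
      have h4 : Function.Injective z := hz.injective
      rw [← Set.image_univ, h4.encard_image, Set.encard_univ]
      simp
    rw [h3] at h2
    have h4 : n + 1 ≤ n := by exact_mod_cast h2
    omega
  by_contra hne
  have h1 : IsAlgebraic (Algebra.adjoin A (Set.range z)) y := by
    rw [AlgebraicIndependent.matroid_closure_eq] at hbas
    exact hbas
  obtain ⟨p, hp1, hp2⟩ := h1.exists_nonzero_coeff_and_aeval_eq_zero (mem_nonZeroDivisors_of_ne_zero hne)
  apply hp1
  apply Subtype.ext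
  have h2 : (p.coeff 0 : D) ∈ Algebra.adjoin K ((A : Set D) ∪ Set.range z) := by
    rw [← Algebra.restrictScalars_adjoin K A]
    exact (p.coeff 0).2
  refine hinj _ h2 ?_
  have h3 := congrArg e hp2
  rw [map_zero, Polynomial.aeval_eq_sum_range, map_sum, Finset.sum_range_succ', Finset.sum_eq_zero, zero_add,
    pow_zero, Algebra.smul_def, mul_one] at h3
  · exact h3
  · intro k _
    rw [Algebra.smul_def, map_mul, map_pow, hy0, zero_pow (Nat.succ_ne_zero k), mul_zero]

theorem ev_clD {A : Subalgebra K R} (hA : S.IsCat A) {f : R} (hf : f ∈ (MM K R).closure (A : Set R)) :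
    ev f ∈ (MM K D).closure (ev '' (A : Set R)) := by
  obtain ⟨W, hW, hfW⟩ := S.exists_st f
  have hWf := hW.fd
  have hC := hA.clS
  have : FiniteDimensional K (W ⊓ Subalgebra.toSubmodule (TG.clS (A : Set R)) : Submodule K R) :=
    Submodule.finiteDimensional_of_le inf_le_left
  obtain ⟨q, hq⟩ := densityD (S := S) ev hA (r := 0) (fun i => i.elim0)
    (W := W ⊓ Subalgebra.toSubmodule (TG.clS (A : Set R)))
    (fun g w hw => ⟨hW.rt g w hw.1, hC.rt g w hw.2⟩)
    (fun w hw => by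
      refine clK_mono Set.subset_union_left ?_
      exact mem_clS.mp hw.2)
  have h1 := hq f ⟨hfW, mem_clS.mpr hf⟩
  rwa [Set.range_eq_empty, Set.union_empty] at h1

theorem ev_relD {B : Subalgebra K R} (hB : S.IsCat B) {r : ℕ} (x : Fin r → R) {C : Subalgebra K R} (hC : S.IsEC C)
    {J : Set R} (hJ : J.Finite) (hJC : J ⊆ C) (hCJ : (C : Set R) ⊆ (MM K R).closure J)
    (h : (C : Set R) ⊆ (MM K R).closure ((B : Set R) ∪ Set.range x)) :
    ∃ q : G, ev '' (C : Set R) ⊆ (MM K D).closure (ev '' (B : Set R) ∪ Set.range fun i => ev (S.rt q (x i))) := by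
  obtain ⟨W₀, hW₀, hJW₀⟩ := S.exists_st_fin hJ
  obtain ⟨W, hWd⟩ : ∃ W, W = W₀ ⊓ Subalgebra.toSubmodule C := ⟨_, rfl⟩
  have hW₀f := hW₀.fd
  have hWf : FiniteDimensional K W := by
    rw [hWd]
    exact Submodule.finiteDimensional_of_le inf_le_left
  have hW : S.IsSt W := by
    rw [hWd]
    refine ⟨by rw [← hWd]; exact hWf, fun g w hw => ⟨hW₀.lt g w hw.1, hC.lt g w hw.2⟩,
      fun g w hw => ⟨hW₀.rt g w hw.1, hC.rt g w hw.2⟩, fun w hw => ⟨hW₀.iv w hw.1, hC.iv w hw.2⟩,
      fun e w hw => ⟨hW₀.cj e w hw.1, hC.cj e w hw.2⟩⟩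
  have hWC : (W : Set R) ⊆ C := by
    rw [hWd]
    exact fun w hw => hw.2
  obtain ⟨q, hq⟩ := densityD (S := S) ev hB x (W := W) hW.rt (hWC.trans h)
  refine ⟨q, ?_⟩
  rintro _ ⟨f, hf, rfl⟩
  have hA : S.IsCat (Algebra.adjoin K (W : Set R)) := (IsEC.of_st hW).toIsCat
  have h1 : f ∈ (MM K R).closure ((Algebra.adjoin K (W : Set R) : Subalgebra K R) : Set R) := by
    refine clK_mono ?_ (hCJ hf)
    intro y hy
    refine Algebra.subset_adjoin ?_
    rw [hWd]
    exact ⟨hJW₀ hy, hJC hy⟩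
  refine clK_le ?_ (ev_clD ev hA h1)
  rintro _ ⟨y, hy, rfl⟩
  exact image_adjoin' ev hq hy

end D

/-- a relative basis -/
theorem exists_x (hp : S.Pts) (B Q : S.XX) (hQ : fn Q) : ∃ x : Fin (wt Q - wt (Q ⊓ B)) → R, (∀ i, x i ∈ Q.1) ∧
    (Q.1 : Set R) ⊆ (MM K R).closure ((B.1 : Set R) ∪ Set.range x) ∧ AlgebraicIndependent B.1 x := by
  classical
  have h0 : fn (Q ⊓ B) := fn_le hQ inf_le_left
  obtain ⟨J₀, hJ₀⟩ := (MM K R).exists_isBasis ((Q ⊓ B : S.XX).1 : Set R)
  have hsub : ((Q ⊓ B : S.XX).1 : Set R) ⊆ Q.1 := SetLike.coe_subset_coe.mpr (inf_le_left : Q ⊓ B ≤ Q)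
  obtain ⟨J, hJ, hJJ⟩ := hJ₀.indep.subset_isBasis_of_subset (hJ₀.subset.trans hsub) (by simp)
  have hJf : J.Finite := by
    rw [← Set.encard_ne_top_iff, hJ.encard_eq_eRk]
    exact hQ
  have hX : (J \ J₀).Finite := hJf.subset Set.sdiff_subset
  have hcard : (J \ J₀).ncard = wt Q - wt (Q ⊓ B) := by
    have h1 := Set.ncard_sdiff_add_ncard_of_subset hJJ hJf
    have h2 : J.ncard = wt Q := by
      unfold wt
      rw [← hJ.encard_eq_eRk]
      rfl
    have h3 : J₀.ncard = wt (Q ⊓ B) := by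
      unfold wt
      rw [← hJ₀.encard_eq_eRk]
      rfl
    omega
  obtain ⟨e⟩ : Nonempty (Fin (wt Q - wt (Q ⊓ B)) ≃ (J \ J₀ : Set R)) := by
    have := hX.fintype
    rw [← hcard]
    exact ⟨(finCongr (by rw [Set.ncard_eq_toFinset_card', Set.toFinset_card])).trans (Fintype.equivFin _).symm⟩
  refine ⟨fun i => (e i : R), fun i => hJ.subset (e i).2.1, ?_, ?_⟩
  · refine hJ.subset_closure.trans (clK_mono ?_)
    intro x hx
    by_cases h : x ∈ J₀
    · left
      have := hJ₀.subset h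
      rw [inf_val] at this
      exact this.2
    · right
      exact ⟨e.symm ⟨x, hx, h⟩, by simp⟩
  · -- independence
    have hQB : S.Inv (S.Fix (Q.1 : Set R) ⊔ S.Fix (B.1 : Set R)) = (Q ⊓ B : S.XX).1 := by
      rw [S.Inv_sup, Inv_Fix hp Q.2.1.toIsCat Q.2.2, Inv_Fix hp B.2.1.toIsCat B.2.2, inf_val]
    have hn1 : (S.Fix (Q.1 : Set R)).Normal := Q.2.1.toIsCat.normal
    have hn2 : (S.Fix (B.1 : Set R)).Normal := B.2.1.toIsCat.normal
    have h1 : AlgebraicIndependent (S.Inv (S.Fix (Q.1 : Set R) ⊔ S.Fix (B.1 : Set R))) (fun i => (e i : R)) := by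
      rw [hQB]
      have h2 : (AlgebraicIndependent.matroid (Q ⊓ B : S.XX).1 R).Indep (J \ J₀) := by
        rw [Matroid.indep_iff_forall_notMem_closure_sdiff (by simp)]
        intro y hy h3
        rw [mem_clA] at h3
        have h4 := (Matroid.indep_iff_forall_notMem_closure_sdiff (by simp)).mp hJ.indep hy.1
        refine h4 (clK_le (Set.union_subset ?_ ?_) h3)
        · refine hJ₀.subset_closure.trans (clK_mono ?_)
          exact Set.subset_sdiff_singleton hJJ hy.2
        · refine Set.Subset.trans ?_ (sub_clK _)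
          exact Set.sdiff_subset_sdiff_left Set.sdiff_subset
      rw [AlgebraicIndependent.matroid_indep_iff] at h2
      exact h2.comp e e.injective
    have h2 := indep_of (S := S) (N₁ := S.Fix (Q.1 : Set R)) (N₂ := S.Fix (B.1 : Set R)) (f := fun i => (e i : R))
      (fun i => by
        rw [Inv_Fix hp Q.2.1.toIsCat Q.2.2]
        exact hJ.subset (e i).2.1) h1
    rw [Inv_Fix hp B.2.1.toIsCat B.2.2] at h2
    exact h2

variable [Algebra K ℂ] (ev : R →ₐ[K] ℂ)

/-- the stability of the kernel -/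
def Stab (B : S.XX) : Prop := ∀ n ∈ S.Fix (B.1 : Set R), ∀ f, ev f = 0 → ev (S.lt n f) = 0

/-- the values on a coset as functions -/
theorem exists_Th (T : Set G) : ∃ Θ : R →ₐ[K] S.DC T, ∀ f (t : T), (Θ f : T → ℂ) t = ev (S.lt (t : G) f) := by
  have hmem : ∀ f : R, (fun t : T => ev (S.lt (t : G) f)) ∈ S.DC T := by
    intro f
    have := S.fin_lt f
    obtain ⟨d, b, h1, h2, h3⟩ := exists_bas (span K (Set.range fun g : G => S.lt g f))
    obtain ⟨c, hc⟩ := coef_lt (S := S) h1 (f := f) fun g => by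
      rw [h3]
      exact subset_span ⟨g, rfl⟩
    have h4 : (fun t : T => ev (S.lt (t : G) f)) = ∑ k, (fun _ : T => ev (b k)) * S.res T (c k) := by
      ext t
      rw [hc, map_sum, Finset.sum_apply]
      refine Finset.sum_congr rfl fun k _ => ?_
      rw [map_smul, Algebra.smul_def, Pi.mul_apply, S.res_apply, mul_comm]
    rw [h4]
    refine sum_mem fun k _ => mul_mem ?_ ?_
    · exact Algebra.subset_adjoin (Or.inl ⟨ev (b k), rfl⟩)
    · exact Algebra.subset_adjoin (Or.inr ⟨c k, rfl⟩)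
  refine ⟨{ toFun := fun f => ⟨fun t : T => ev (S.lt (t : G) f), hmem f⟩
            map_one' := Subtype.ext (funext fun t => by
              change ev (S.lt (t : G) 1) = 1
              rw [map_one, map_one])
            map_mul' := fun a b => Subtype.ext (funext fun t => by
              change ev (S.lt (t : G) (a * b)) = ev (S.lt (t : G) a) * ev (S.lt (t : G) b)
              rw [map_mul, map_mul])
            map_zero' := Subtype.ext (funext fun t => by
              change ev (S.lt (t : G) 0) = 0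
              rw [map_zero, map_zero])
            map_add' := fun a b => Subtype.ext (funext fun t => by
              change ev (S.lt (t : G) (a + b)) = ev (S.lt (t : G) a) + ev (S.lt (t : G) b)
              rw [map_add, map_add])
            commutes' := fun c => Subtype.ext (funext fun t => by
              change ev (S.lt (t : G) (algebraMap K R c)) = algebraMap K ℂ c
              rw [AlgHom.commutes, AlgHom.commutes]) },
    fun f t => rfl⟩

/-- **The relative period conjecture implies that the kernel is stable.** -/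
theorem stab_of_rel (hp : S.Pts) {B : S.XX} (hB : Rel ev B) : Stab ev B := by
  classical
  have hBc : S.IsCat B.1 := B.2.1.toIsCat
  have hn : (S.Fix (B.1 : Set R)).Normal := hBc.normal
  obtain ⟨T, hT⟩ : ∃ T : Set G, T = (S.Fix (B.1 : Set R) : Set G) := ⟨_, rfl⟩
  have h1T : (1 : G) ∈ T := by
    rw [hT]
    exact (S.Fix (B.1 : Set R)).one_mem
  have hirr : S.Irr T := by
    intro f g hfg
    rw [hT] at hfg ⊢
    refine irred (Fix_closed B.1) ?_ hfg
    rw [Inv_Fix hp hBc B.2.2]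
    exact B.2.2
  have hdom : IsDomain (S.DC T) := dom hirr ⟨1, h1T⟩
  obtain ⟨Θ, hΘ⟩ := exists_Th (S := S) ev T
  obtain ⟨e₁, he₁⟩ : ∃ e₁ : S.DC T →ₐ[K] ℂ, ∀ u, e₁ u = (u : T → ℂ) ⟨1, h1T⟩ :=
    ⟨(Pi.evalAlgHom K (fun _ : T => ℂ) ⟨1, h1T⟩).comp (S.DC T).val, fun u => rfl⟩
  have heΘ : ∀ f, e₁ (Θ f) = ev f := fun f => by
    rw [he₁, hΘ, S.lt_one]
  obtain ⟨A, hA⟩ : ∃ A : Subalgebra K (S.DC T), A = B.1.map Θ := ⟨_, rfl⟩
  have hAinj : ∀ a ∈ A, e₁ a = 0 → a = 0 := by
    intro a ha h0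
    rw [hA] at ha
    obtain ⟨b, hb, rfl⟩ := ha
    have hb' : b ∈ B.1 := hb
    have h0' : e₁ (Θ b) = 0 := h0
    rw [heΘ] at h0'
    refine Subtype.ext (funext fun t => ?_)
    change (Θ b : T → ℂ) t = 0
    have ht : (t : G) ∈ S.Fix (B.1 : Set R) := hT.le t.2
    rw [hΘ, ht b hb', h0']
  have hAimg : e₁ '' (A : Set (S.DC T)) = Pe ev B := by
    ext z
    constructor
    · rintro ⟨a, ha, rfl⟩
      rw [hA] at ha
      obtain ⟨b, hb, rfl⟩ := ha
      exact ⟨b, hb, (heΘ b).symm⟩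
    · rintro ⟨b, hb, rfl⟩
      refine ⟨Θ b, ?_, heΘ b⟩
      rw [hA]
      exact ⟨b, hb, rfl⟩
  intro n hnF f hf0
  -- a finite category which contains `f`
  obtain ⟨W, hW, hfW⟩ := S.exists_st f
  obtain ⟨Q, hQd⟩ : ∃ Q : S.XX, Q = mk' (IsEC.of_st hW) := ⟨_, rfl⟩
  have hQ : fn Q := by
    rw [hQd]
    exact fn_mk' hW
  have hfQ : f ∈ Q.1 := by
    rw [hQd]
    exact mem_clS.mpr (sub_clK _ (Algebra.subset_adjoin hfW))
  obtain ⟨w, hw1, hw2⟩ := hB Q hQ
  choose z hz1 hz2 using hw1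
  have hz3 : AlgebraicIndependent (IntermediateField.adjoin ℚ (e₁ '' (A : Set (S.DC T)))) (fun i => e₁ (Θ (z i))) := by
    rw [hAimg]
    have h1 : (fun i => e₁ (Θ (z i))) = w := funext fun i => by rw [heΘ, hz2]
    rw [h1]
    exact hw2
  obtain ⟨hz4, hz5⟩ := inj_adjoin (K := K) (D := S.DC T) e₁ hAinj hz3
  -- the rank of `Θ Q` over `A`
  obtain ⟨J, hJ, hJQ, hQJ⟩ := exists_fin_basis (K := K) hQ
  obtain ⟨x, hx1, hx2, -⟩ := exists_x hp B Q hQ
  obtain ⟨q, hq⟩ := ev_relD (S := S) Θ hBc x Q.2.1 hJ hJQ hQJ hx2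
  have hrank : (AlgebraicIndependent.matroid A (S.DC T)).eRk (Θ '' (Q.1 : Set R)) ≤ (wt Q - wt (Q ⊓ B) : ℕ) := by
    have h1 : Θ '' (Q.1 : Set R) ⊆
        (AlgebraicIndependent.matroid A (S.DC T)).closure (Set.range fun i => Θ (S.rt q (x i))) := by
      intro y hy
      rw [mem_clA, hA]
      exact hq hy
    refine ((AlgebraicIndependent.matroid A (S.DC T)).eRk_mono h1).trans ?_
    rw [Matroid.eRk_closure_eq]
    refine (Matroid.eRk_le_encard _ _).trans ?_
    rw [← Set.image_univ]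
    exact (Set.encard_image_le _ _).trans (by simp)
  have hzero : Θ f = 0 := spec_zero e₁ hz4 hz5 hrank (fun i => ⟨z i, hz1 i, rfl⟩) ⟨f, hfQ, rfl⟩ (by rw [heΘ, hf0])
  have hnT : n ∈ T := by
    rw [hT]
    exact hnF
  have h1 := hΘ f ⟨n, hnT⟩
  rw [hzero] at h1
  exact h1.symm

end Pool.Agent.Q280.TG.Fn
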