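import Pool.Agent.Q280.TG.TA

/-!
# Stability of the kernel implies the relative period conjecture
-/

set_option autoImplicit false
set_option linter.unusedSectionVars false

open Module Submodule Q241.SX

namespace Pool.Agent.Q280.TG.Fn

open Pool.Agent.Q280.MD (MO exists_of_le_eRk_MO mem_MO_iff)

variable {K G E R : Type} [Field K] [Group G] [CommRing R] [Algebra K R] {S : Fn K G E R} [IsDomain R]

/-- Artin's argument, general form -/
theorem artin_gen {N : Subgroup G} [N.Normal] {ι : Type*} (Re : (ι → R) → Prop)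
    (hsmul : ∀ (a : R) (c : ι → R), Re c → Re (fun i => a * c i))
    (hsub : ∀ c c' : ι → R, Re c → Re c' → Re (fun i => c i - c' i))
    (hlt : ∀ m ∈ N, ∀ c : ι → R, Re c → Re (fun i => S.lt m (c i)))
    (hdiv : ∀ (a : R) (c : ι → R), a ≠ 0 → Re (fun i => a * c i) → Re c) (s : Finset ι) :
    ∀ c : ι → R, Re c → (∀ i, i ∉ s → c i = 0) → (∃ i, c i ≠ 0) →
      ∃ d : ι → R, Re d ∧ (∀ i, d i ∈ S.Inv N) ∧ ∃ i, d i ≠ 0 := by
  classical
  induction s using Finset.strongInduction with
  | H s ih =>
    intro c hc hs hne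
    by_cases hz : ∃ j ∈ s, c j = 0
    · obtain ⟨j, hj, hj0⟩ := hz
      refine ih (s.erase j) (Finset.erase_ssubset hj) c hc (fun i hi => ?_) hne
      by_cases hij : i = j
      · rw [hij, hj0]
      · exact hs i fun his => hi (Finset.mem_erase.mpr ⟨hij, his⟩)
    push Not at hz
    obtain ⟨j, hj0⟩ := hne
    have hj : j ∈ s := by_contra fun h => hj0 (hs j h)
    by_cases hq : ∃ m ∈ N, ∃ i ∈ s, c i * S.lt m (c j) ≠ c j * S.lt m (c i)
    · obtain ⟨m, hm, i₀, hi₀, hne⟩ := hq
      refine ih (s.erase j) (Finset.erase_ssubset hj) (fun i => S.lt m (c j) * c i - c j * S.lt m (c i))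
        (hsub _ _ (hsmul _ _ hc) (hsmul _ _ (hlt m hm c hc))) (fun i hi => ?_) ⟨i₀, ?_⟩
      · by_cases hij : i = j
        · rw [hij, mul_comm, sub_self]
        · have h1 := hs i fun his => hi (Finset.mem_erase.mpr ⟨hij, his⟩)
          rw [h1, map_zero, mul_zero, mul_zero, sub_zero]
      · rw [mul_comm]
        exact sub_ne_zero.mpr hne
    · push Not at hq
      have h1 : ∀ i ∈ s, ∃ P ∈ S.Inv N, ∃ Q ∈ S.Inv N, Q ≠ 0 ∧ c i * Q = c j * P := by
        intro i hi
        exact quotient_inv (hz j hj) fun n hn => hq n hn i hi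
      choose! P hP Q hQ hQ0 hPQ using h1
      obtain ⟨d, hd⟩ : ∃ d : ι → R, ∀ i, d i = if i ∈ s then P i * ∏ k ∈ s.erase i, Q k else 0 := ⟨_, fun _ => rfl⟩
      have hdm : ∀ i, c j * d i = (∏ k ∈ s, Q k) * c i := by
        intro i
        by_cases hi : i ∈ s
        · rw [hd, if_pos hi, ← Finset.mul_prod_erase s Q hi]
          linear_combination (-∏ k ∈ s.erase i, Q k) * hPQ i hi
        · rw [hd, if_neg hi, hs i hi, mul_zero, mul_zero]
      refine ⟨d, hdiv (c j) d hj0 ?_, fun i => ?_, j, fun h2 => ?_⟩
      · have h3 : (fun i => c j * d i) = fun i => (∏ k ∈ s, Q k) * c i := funext hdm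
        rw [h3]
        exact hsmul _ _ hc
      · rw [hd]
        by_cases hi : i ∈ s
        · rw [if_pos hi]
          exact mul_mem (hP i hi) (prod_mem fun k hk => hQ k (Finset.mem_of_mem_erase hk))
        · rw [if_neg hi]
          exact zero_mem _
      · have h3 := hdm j
        rw [h2, mul_zero] at h3
        exact mul_ne_zero (Finset.prod_ne_zero_iff.mpr fun k hk => hQ0 k hk) hj0 h3.symm

/-- **Nonvanishing determinants of translates.** -/
theorem casorati {N : Subgroup G} [N.Normal] {ι : Type} [Fintype ι] [DecidableEq ι] {h : ι → R}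
    (hh : ∀ c : ι → R, (∀ i, c i ∈ S.Inv N) → ∑ i, c i * h i = 0 → ∀ i, c i = 0) :
    ∃ n : ι → G, (∀ i, n i ∈ N) ∧ (Matrix.of fun i j => S.lt (n i) (h j)).det ≠ 0 := by
  obtain ⟨F, _, _, _⟩ : ∃ (F : Type) (_ : Field F) (_ : Algebra R F), IsFractionRing R F :=
    ⟨FractionRing R, inferInstance, inferInstance, inferInstance⟩
  have hFi : Function.Injective (algebraMap R F) := IsFractionRing.injective R F
  have h1 : span F (Set.range fun n : N => fun j : ι => algebraMap R F (S.lt (n : G) (h j))) = ⊤ := by
    by_contra hne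
    obtain ⟨f, hf, hf'⟩ := Submodule.exists_le_ker_of_lt_top _ (lt_top_iff_ne_top.mpr hne)
    obtain ⟨γ, hγ⟩ : ∃ γ : ι → F, ∀ w, f w = ∑ i, w i * γ i := by
      refine ⟨fun i => f (Pi.single i 1), fun w => ?_⟩
      conv_lhs => rw [← LinearMap.sum_single_apply (fun _ => F) w, map_sum]
      refine Finset.sum_congr rfl fun i _ => ?_
      have : (Pi.single i (w i) : ι → F) = w i • Pi.single i (1 : F) := by
        ext j
        by_cases h : j = i
        · subst h
          simp
        · simp [Pi.single_eq_of_ne h]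
      rw [this, map_smul, smul_eq_mul]
    obtain ⟨b, hb⟩ := IsLocalization.exist_integer_multiples_of_finite (nonZeroDivisors R) γ
    choose c hc using hb
    have hb0 : (b : R) ≠ 0 := nonZeroDivisors.ne_zero b.2
    have hre : ∀ n ∈ N, ∑ i, c i * S.lt n (h i) = 0 := by
      intro n hn
      apply hFi
      rw [map_sum, map_zero]
      have h2 := hf' (Submodule.subset_span ⟨⟨n, hn⟩, rfl⟩)
      rw [LinearMap.mem_ker, hγ] at h2
      have h3 : ∑ i, algebraMap R F (c i * S.lt n (h i)) =
          algebraMap R F b * ∑ i, algebraMap R F (S.lt n (h i)) * γ i := by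
        rw [Finset.mul_sum]
        refine Finset.sum_congr rfl fun i _ => ?_
        rw [map_mul, hc, Algebra.smul_def]
        ring
      rw [h3, h2, mul_zero]
    have hc0 : ∃ i, c i ≠ 0 := by
      by_contra hcon
      push Not at hcon
      apply hf
      ext w
      have h2 : ∀ i, γ i = 0 := fun i => by
        have h3 := hc i
        rw [hcon, map_zero, Algebra.smul_def] at h3
        exact (mul_eq_zero.mp h3.symm).resolve_left fun h4 => hb0 (hFi (by rw [h4, map_zero]))
      simp [hγ, h2]
    obtain ⟨d, hd1, hd2, i, hd3⟩ := artin_gen (S := S) (N := N) (fun c : ι → R => ∀ n ∈ N, ∑ i, c i * S.lt n (h i) = 0)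
      (fun a c hc n hn => by
        have h2 : ∑ i, a * c i * S.lt n (h i) = a * ∑ i, c i * S.lt n (h i) := by
          rw [Finset.mul_sum]
          exact Finset.sum_congr rfl fun i _ => by ring
        rw [h2, hc n hn, mul_zero])
      (fun c c' hc hc' n hn => by
        have h2 : ∑ i, (c i - c' i) * S.lt n (h i) = ∑ i, c i * S.lt n (h i) - ∑ i, c' i * S.lt n (h i) := by
          rw [← Finset.sum_sub_distrib]
          exact Finset.sum_congr rfl fun i _ => by ring
        rw [h2, hc n hn, hc' n hn, sub_zero])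
      (fun m hm c hc n hn => by
        have h2 := congrArg (S.lt m) (hc (n * m⁻¹) (mul_mem hn (N.inv_mem hm)))
        rw [map_sum, map_zero] at h2
        rw [← h2]
        refine Finset.sum_congr rfl fun i _ => ?_
        rw [map_mul, S.lt_lt, inv_mul_cancel_right])
      (fun a c ha hc n hn => by
        have h2 := hc n hn
        have h3 : ∑ i, a * c i * S.lt n (h i) = a * ∑ i, c i * S.lt n (h i) := by
          rw [Finset.mul_sum]
          exact Finset.sum_congr rfl fun i _ => by ring
        rw [h3] at h2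
        exact (mul_eq_zero.mp h2).resolve_left ha)
      Finset.univ c hre (fun i hi => absurd (Finset.mem_univ i) hi) hc0
    refine hd3 (hh d hd2 ?_ i)
    have h2 := hd1 1 N.one_mem
    simp only [S.lt_one] at h2
    exact h2
  obtain ⟨t, ht1, ht2, ht3⟩ := exists_linearIndependent F
    (Set.range fun n : N => fun j : ι => algebraMap R F (S.lt (n : G) (h j)))
  rw [h1] at ht2
  let B := Basis.mk ht3 (by rw [Subtype.range_coe, ht2])
  have : Fintype t := FiniteDimensional.fintypeBasisIndex B
  have hcard : Fintype.card t = Fintype.card ι := by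
    rw [← finrank_eq_card_basis B, Module.finrank_pi]
  let e : ι ≃ t := (Fintype.equivOfCardEq hcard).symm
  choose q hq using fun j : ι => ht1 (e j).2
  refine ⟨fun i => q i, fun i => (q i).2, fun h0 => ?_⟩
  have h4 : LinearIndependent F (fun j : ι => fun i : ι => algebraMap R F (S.lt (q j : G) (h i))) := by
    have h5 : (fun j : ι => fun i : ι => algebraMap R F (S.lt (q j : G) (h i))) = (fun x : t => (x : ι → F)) ∘ e :=
      funext fun j => hq j
    rw [h5]
    exact ht3.comp _ e.injective
  have h6 := (Matrix.linearIndependent_rows_iff_isUnit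
    (A := Matrix.of fun j i => algebraMap R F (S.lt (q j : G) (h i)))).mp h4
  rw [Matrix.isUnit_iff_isUnit_det, isUnit_iff_ne_zero] at h6
  apply h6
  have h7 : (Matrix.of fun j i => algebraMap R F (S.lt (q j : G) (h i))) =
      (algebraMap R F).mapMatrix (Matrix.of fun i j => S.lt (q i : G) (h j)) := rfl
  rw [h7, ← RingHom.map_det, h0, map_zero]

end Pool.Agent.Q280.TG.Fn
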