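import Pool.Agent.Q280.TG.TB

/-!
# Stability of the kernel implies the relative period conjecture, II
-/

set_option autoImplicit false
set_option linter.unusedSectionVars false

open Module Submodule Q241.SX

namespace Pool.Agent.Q280.TG

open Pool.Agent.Q280.MD (MO exists_of_le_eRk_MO mem_MO_iff)

section Gen

variable {K D : Type} [Field K] [CommRing D] [IsDomain D] [Algebra K D] [Algebra K ℂ]

/-- an embedding of the complex numbers preserves algebraic dependence -/
theorem cl_const (j : ℂ →ₐ[K] D) {X : Set ℂ} {a : ℂ}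
    (ha : a ∈ M.closure X) : j a ∈ (MM K D).closure (j '' X) := by
  have hj : Function.Injective j := (j : ℂ →+* D).injective
  have hrat : ∀ q : ℚ, j (q : ℂ) ∈ (MM K D).closure (j '' X) := by
    intro q
    rw [mem_clK]
    refine ⟨Polynomial.C (q.den : Algebra.adjoin K (j '' X)) * Polynomial.X -
      Polynomial.C ((q.num : ℤ) : Algebra.adjoin K (j '' X)), ?_, ?_⟩
    · intro h0
      have h1 := congrArg (fun p => p.coeff 1) h0
      simp only [Polynomial.coeff_sub, Polynomial.coeff_C_mul, Polynomial.coeff_X_one, mul_one,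
        Polynomial.coeff_zero] at h1
      rw [Polynomial.coeff_C_of_ne_zero one_ne_zero, sub_zero] at h1
      have h2 : algebraMap (Algebra.adjoin K (j '' X)) D (q.den : Algebra.adjoin K (j '' X)) = 0 := by rw [h1, map_zero]
      rw [map_natCast] at h2
      have h3 : j ((q.den : ℕ) : ℂ) = 0 := by rw [map_natCast, h2]
      have h4 : ((q.den : ℕ) : ℂ) = 0 := hj (by rw [h3, map_zero])
      exact q.den_nz (by exact_mod_cast h4)
    · rw [map_sub, map_mul, Polynomial.aeval_C, Polynomial.aeval_X, Polynomial.aeval_C]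
      have h1 : algebraMap (Algebra.adjoin K (j '' X)) D (q.den : Algebra.adjoin K (j '' X)) = j ((q.den : ℕ) : ℂ) := by
        rw [map_natCast, map_natCast]
      have h2 : algebraMap (Algebra.adjoin K (j '' X)) D ((q.num : ℤ) : Algebra.adjoin K (j '' X)) =
          j ((q.num : ℤ) : ℂ) := by
        rw [map_intCast, map_intCast]
      rw [h1, h2, ← map_mul, ← map_sub]
      have h3 : ((q.den : ℕ) : ℂ) * (q : ℂ) - ((q.num : ℤ) : ℂ) = 0 := by
        have h4 : ((q.den : ℕ) : ℚ) * q = ((q.num : ℤ) : ℚ) := Rat.den_mul_eq_num q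
        have h5 : (((q.den : ℕ) : ℚ) * q : ℂ) = (((q.num : ℤ) : ℚ) : ℂ) := by exact_mod_cast congrArg (Rat.cast (K := ℂ)) h4
        push_cast at h5
        rw [h5, sub_self]
      rw [h3, map_zero]
  have hadj : ∀ x ∈ Algebra.adjoin ℚ X, j x ∈ (MM K D).closure (j '' X) := by
    intro x hx
    induction hx using Algebra.adjoin_induction with
    | mem x hx => exact sub_clK _ ⟨x, hx, rfl⟩
    | algebraMap r => exact hrat r
    | add x y _ _ ihx ihy =>
      rw [map_add]
      exact mem_clS.mp (add_mem (mem_clS.mpr ihx) (mem_clS.mpr ihy))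
    | mul x y _ _ ihx ihy =>
      rw [map_mul]
      exact mem_clS.mp (mul_mem (mem_clS.mpr ihx) (mem_clS.mpr ihy))
  rw [mem_cl] at ha
  obtain ⟨p, hp0, hp⟩ := ha
  refine clD_poly (p.map ((j : ℂ →+* D).comp (algebraMap (Algebra.adjoin ℚ X) ℂ))) ?_ (fun i => ?_) ?_
  · refine (Polynomial.map_ne_zero_iff ?_).mpr hp0
    exact hj.comp (FaithfulSMul.algebraMap_injective _ _)
  · rw [Polynomial.coeff_map]
    exact hadj _ (p.coeff i).2
  · rw [Polynomial.eval_map]
    have h5 := Polynomial.hom_eval₂ p (algebraMap (Algebra.adjoin ℚ X) ℂ) (j : ℂ →+* D) a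
    rw [← Polynomial.aeval_def, hp, map_zero] at h5
    exact h5.symm

end Gen

namespace Fn

variable {K G E R : Type} [Field K] [Group G] [CommRing R] [Algebra K R] {S : Fn K G E R} [IsDomain R]
  [Algebra K ℂ] (ev : R →ₐ[K] ℂ)

/-- the points of the group -/
abbrev UU (G : Type) : Type := (Set.univ : Set G)

/-- the right translates as functions, with the coefficients -/
theorem exists_Tr : ∃ Θ : R →ₐ[K] S.DC Set.univ, (∀ f (t : UU G), (Θ f : _ → ℂ) t = ev (S.rt (t : G) f)) ∧
    ∃ j : ℂ →ₐ[K] S.DC Set.univ, (∀ z (t : UU G), (j z : _ → ℂ) t = z) ∧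
    ∃ ρ : R →ₐ[K] S.DC Set.univ, (∀ f (t : UU G), (ρ f : _ → ℂ) t = algebraMap K ℂ (S.v f t)) ∧
    ∀ (C : Subalgebra K R), S.IsCat C → ∀ f ∈ C,
      Θ f ∈ Algebra.adjoin K ((j '' (ev '' (C : Set R))) ∪ Set.range ρ) := by
  have hcoef : ∀ f : R, ∃ (d : ℕ) (b c : Fin d → R), (∀ k, b k ∈ span K (Set.range fun g : G => S.rt g f)) ∧
      (fun t : UU G => ev (S.rt (t : G) f)) =
        ∑ k, (fun _ : UU G => ev (b k)) * S.res Set.univ (c k) := by
    intro f
    obtain ⟨d, b, c, hb, -, h⟩ := S.comul f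
    refine ⟨d, b, c, hb, ?_⟩
    ext t
    rw [h, map_sum, Finset.sum_apply]
    refine Finset.sum_congr rfl fun k _ => ?_
    rw [map_smul, Algebra.smul_def, Pi.mul_apply, S.res_apply, mul_comm]
  have hmem : ∀ f : R, (fun t : UU G => ev (S.rt (t : G) f)) ∈ S.DC Set.univ := by
    intro f
    obtain ⟨d, b, c, hb, h⟩ := hcoef f
    rw [h]
    refine sum_mem fun k _ => mul_mem ?_ ?_
    · exact Algebra.subset_adjoin (Or.inl ⟨ev (b k), rfl⟩)
    · exact Algebra.subset_adjoin (Or.inr ⟨c k, rfl⟩)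
  obtain ⟨Θ, hΘ⟩ : ∃ Θ : R →ₐ[K] S.DC Set.univ, ∀ f, (Θ f : UU G → ℂ) =
      fun t : UU G => ev (S.rt (t : G) f) :=
    ⟨{ toFun := fun f => ⟨fun t : UU G => ev (S.rt (t : G) f), hmem f⟩
       map_one' := Subtype.ext (funext fun t => by
         change ev (S.rt (t : G) 1) = 1
         rw [map_one, map_one])
       map_mul' := fun a b => Subtype.ext (funext fun t => by
         change ev (S.rt (t : G) (a * b)) = ev (S.rt (t : G) a) * ev (S.rt (t : G) b)
         rw [map_mul, map_mul])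
       map_zero' := Subtype.ext (funext fun t => by
         change ev (S.rt (t : G) 0) = 0
         rw [map_zero, map_zero])
       map_add' := fun a b => Subtype.ext (funext fun t => by
         change ev (S.rt (t : G) (a + b)) = ev (S.rt (t : G) a) + ev (S.rt (t : G) b)
         rw [map_add, map_add])
       commutes' := fun c => Subtype.ext (funext fun t => by
         change ev (S.rt (t : G) (algebraMap K R c)) = algebraMap K ℂ c
         rw [AlgHom.commutes, AlgHom.commutes]) }, fun f => rfl⟩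
  obtain ⟨j, hj⟩ : ∃ j : ℂ →ₐ[K] S.DC Set.univ, ∀ z, (j z : UU G → ℂ) = fun _ => z :=
    ⟨{ toFun := fun z => ⟨fun _ => z, Algebra.subset_adjoin (Or.inl ⟨z, rfl⟩)⟩
       map_one' := rfl
       map_mul' := fun a b => rfl
       map_zero' := rfl
       map_add' := fun a b => rfl
       commutes' := fun c => rfl }, fun z => rfl⟩
  obtain ⟨ρ, hρ⟩ : ∃ ρ : R →ₐ[K] S.DC Set.univ, ∀ f, (ρ f : UU G → ℂ) = S.res Set.univ f :=
    ⟨(S.res Set.univ).codRestrict _ fun f => Algebra.subset_adjoin (Or.inr ⟨f, rfl⟩), fun f => rfl⟩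
  refine ⟨Θ, fun f t => congrFun (hΘ f) t, j, fun z t => congrFun (hj z) t, ρ, fun f t => congrFun (hρ f) t, ?_⟩
  intro C hC f hf
  obtain ⟨d, b, c, hb, h⟩ := hcoef f
  have h1 : Θ f = ∑ k, j (ev (b k)) * ρ (c k) := Subtype.ext (by
    rw [hΘ, h, AddSubmonoidClass.coe_finsetSum]
    refine Finset.sum_congr rfl fun k _ => ?_
    change _ = (j (ev (b k)) : UU G → ℂ) * (ρ (c k) : UU G → ℂ)
    rw [hj, hρ])
  rw [h1]
  refine sum_mem fun k _ => mul_mem ?_ ?_
  · exact Algebra.subset_adjoin (Or.inl ⟨_, ⟨b k, hC.span_rt hf (hb k), rfl⟩, rfl⟩)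
  · exact Algebra.subset_adjoin (Or.inr ⟨c k, rfl⟩)

variable [IsAlgClosed K]

/-- **Stability implies the relative period conjecture.** -/
theorem rel_of_stab (hp : S.Pts) {B : S.XX} (hB : Stab ev B) :
    Rel ev B := by
  classical
  intro Q hQ
  have hBc : S.IsCat B.1 := B.2.1.toIsCat
  have hQc : S.IsCat Q.1 := Q.2.1.toIsCat
  have hn : (S.Fix (B.1 : Set R)).Normal := hBc.normal
  have hinvB : S.Inv (S.Fix (B.1 : Set R)) = B.1 := Inv_Fix hp hBc B.2.2
  apply exists_of_le_eRk_MO
  by_contra hcon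
  push Not at hcon
  obtain ⟨Y, hY⟩ := (MO (Pe ev B)).exists_isBasis (Pe ev Q)
  rw [← hY.encard_eq_eRk] at hcon
  obtain ⟨x, hx1, -, hx3⟩ := exists_x hp B Q hQ
  -- the domain of functions on the group
  have hirr : S.Irr Set.univ := by
    intro f g hfg
    have h1 : f * g = 0 := S.ext fun t => by
      rw [map_mul, Pi.mul_apply, map_zero, Pi.zero_apply]
      exact hfg t trivial
    rcases mul_eq_zero.mp h1 with h2 | h2
    · exact Or.inl fun t _ => by rw [h2, map_zero]; rfl
    · exact Or.inr fun t _ => by rw [h2, map_zero]; rfl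
  have hdom : IsDomain (S.DC Set.univ) := dom hirr ⟨1, trivial⟩
  obtain ⟨Θ, hΘ, j, hj, ρ, hρ, hgen⟩ := exists_Tr (S := S) ev
  have hΘi : ∀ f, Θ f = 0 → f = 0 := by
    intro f hf
    by_contra hne
    obtain ⟨q, hq⟩ := S.exists_rt ev hne
    apply hq
    have h1 := hΘ f ⟨q, trivial⟩
    rw [hf] at h1
    exact h1.symm
  obtain ⟨A, hA⟩ : ∃ A : Subalgebra K (S.DC Set.univ),
      A = Algebra.adjoin K ((j '' (ev '' (B.1 : Set R))) ∪ Set.range ρ) := ⟨_, rfl⟩
  -- the values of the elements of `A`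
  have hAv : ∀ a ∈ A, ∀ t : UU G, ∃ b ∈ B.1, (a : UU G → ℂ) t = ev b := by
    intro a ha t
    rw [hA] at ha
    induction ha using Algebra.adjoin_induction with
    | mem a ha =>
      rcases ha with ⟨_, ⟨b, hb, rfl⟩, rfl⟩ | ⟨f, rfl⟩
      · exact ⟨b, hb, hj _ t⟩
      · exact ⟨algebraMap K R (S.v f t), B.1.algebraMap_mem _, by rw [hρ, AlgHom.commutes]⟩
    | algebraMap r => exact ⟨algebraMap K R r, B.1.algebraMap_mem _, by rw [AlgHom.commutes]; rfl⟩
    | add a b _ _ iha ihb =>
      obtain ⟨a', ha1, ha2⟩ := iha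
      obtain ⟨b', hb1, hb2⟩ := ihb
      refine ⟨a' + b', add_mem ha1 hb1, ?_⟩
      change (a : UU G → ℂ) t + (b : UU G → ℂ) t = _
      rw [ha2, hb2, map_add]
    | mul a b _ _ iha ihb =>
      obtain ⟨a', ha1, ha2⟩ := iha
      obtain ⟨b', hb1, hb2⟩ := ihb
      refine ⟨a' * b', mul_mem ha1 hb1, ?_⟩
      change (a : UU G → ℂ) t * (b : UU G → ℂ) t = _
      rw [ha2, hb2, map_mul]
  -- independence over `A`
  have hind : AlgebraicIndependent A (fun i => Θ (x i)) := by
    rw [algebraicIndependent_iff]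
    intro p hp0
    by_contra hpne
    obtain ⟨h, hh⟩ : ∃ h : p.support → R, ∀ m, h m = (m : _ →₀ ℕ).prod fun i k => x i ^ k := ⟨_, fun _ => rfl⟩
    have hlin : ∀ c : p.support → R, (∀ i, c i ∈ S.Inv (S.Fix (B.1 : Set R))) → ∑ i, c i * h i = 0 → ∀ i, c i = 0 := by
      intro c hc h0 i
      have hcB : ∀ i, c i ∈ B.1 := fun i => hinvB.le (hc i)
      obtain ⟨q, hq⟩ : ∃ q : MvPolynomial (Fin (wt Q - wt (Q ⊓ B))) B.1,
          q = ∑ m : p.support, MvPolynomial.monomial (m : _ →₀ ℕ) ⟨c m, hcB m⟩ := ⟨_, rfl⟩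
      have h1 : MvPolynomial.aeval x q = 0 := by
        rw [hq, map_sum, ← h0]
        refine Finset.sum_congr rfl fun m _ => ?_
        rw [MvPolynomial.aeval_monomial, hh]
        rfl
      have h2 := (algebraicIndependent_iff.mp hx3) q h1
      have h3 : q.coeff (i : _ →₀ ℕ) = ⟨c i, hcB i⟩ := by
        rw [hq, MvPolynomial.coeff_sum, Finset.sum_eq_single i]
        · rw [MvPolynomial.coeff_monomial, if_pos rfl]
        · intro m _ hm
          rw [MvPolynomial.coeff_monomial, if_neg fun h => hm (Subtype.ext h)]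
        · intro h4
          exact absurd (Finset.mem_univ i) h4
      rw [h2, MvPolynomial.coeff_zero] at h3
      exact (congrArg Subtype.val h3).symm
    obtain ⟨n, hn1, hn2⟩ := casorati (S := S) (N := S.Fix (B.1 : Set R)) hlin
    obtain ⟨Mx, hMx⟩ : ∃ Mx : Matrix p.support p.support (S.DC Set.univ),
        Mx = Matrix.of fun i k => Θ (S.lt (n i) (h k)) := ⟨_, rfl⟩
    have hdet : Mx.det ≠ 0 := by
      have h1 : Mx.det = Θ (Matrix.of fun i k => S.lt (n i) (h k)).det := by
        rw [AlgHom.map_det, hMx]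
        rfl
      rw [h1]
      exact fun h0 => hn2 (hΘi _ h0)
    obtain ⟨lam, hlam⟩ : ∃ lam : p.support → S.DC Set.univ, ∀ m : p.support,
        lam m = ((p.coeff (m : _ →₀ ℕ) : A) : S.DC Set.univ) := ⟨_, fun _ => rfl⟩
    have hsum : ∑ m : p.support, lam m * Θ (h m) = 0 := by
      rw [← hp0, MvPolynomial.aeval_def, MvPolynomial.eval₂_eq, ← Finset.sum_coe_sort p.support]
      refine Finset.sum_congr rfl fun m _ => ?_
      rw [hlam, hh, Finsupp.prod, map_prod]
      simp only [map_pow]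
      rfl
    have hmul : Mx.mulVec lam = 0 := by
      refine funext fun i => Subtype.ext (funext fun t => ?_)
      -- the relation at the point `t`
      have h1 : ∀ m : p.support, ∃ b ∈ B.1, (lam m : UU G → ℂ) t = ev b := fun m => by
        rw [hlam]
        exact hAv _ (p.coeff (m : _ →₀ ℕ)).2 t
      choose b hb1 hb2 using h1
      have h2 : ev (∑ m, b m * S.rt (t : G) (h m)) = 0 := by
        have h3 := congrFun (congrArg Subtype.val hsum) t
        rw [AddSubmonoidClass.coe_finsetSum, Finset.sum_apply] at h3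
        rw [map_sum, ← Pi.zero_apply (i := t) (M := fun _ => ℂ)]
        refine Eq.trans ?_ h3
        refine Finset.sum_congr rfl fun m _ => ?_
        change _ = (lam m : UU G → ℂ) t * (Θ (h m) : UU G → ℂ) t
        rw [map_mul, hb2, hΘ]
      have h3 := hB (n i) (hn1 i) _ h2
      have h4 : S.lt (n i) (∑ m, b m * S.rt (t : G) (h m)) = ∑ m, b m * S.rt (t : G) (S.lt (n i) (h m)) := by
        rw [map_sum]
        refine Finset.sum_congr rfl fun m _ => ?_
        rw [map_mul, S.lt_rt, hn1 i (b m) (hb1 m)]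
      rw [h4, map_sum] at h3
      change ((∑ k, Mx i k * lam k : S.DC Set.univ) : UU G → ℂ) t = 0
      rw [AddSubmonoidClass.coe_finsetSum, Finset.sum_apply, ← h3]
      refine Finset.sum_congr rfl fun m _ => ?_
      change (Mx i m : UU G → ℂ) t * (lam m : UU G → ℂ) t = _
      rw [map_mul, hb2, hMx]
      change (Θ (S.lt (n i) (h m)) : UU G → ℂ) t * _ = _
      rw [hΘ, mul_comm]
    have hz : lam = 0 := Matrix.eq_zero_of_mulVec_eq_zero hdet hmul
    obtain ⟨m, hm⟩ := MvPolynomial.support_nonempty.mpr hpne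
    have h1 : lam ⟨m, hm⟩ = 0 := by rw [hz]; rfl
    rw [hlam] at h1
    exact MvPolynomial.mem_support_iff.mp hm (Subtype.ext h1)
  -- the rank
  have hcl : ∀ i, Θ (x i) ∈ (AlgebraicIndependent.matroid A (S.DC Set.univ)).closure (j '' Y) := by
    intro i
    rw [mem_clA]
    have h1 := hgen Q.1 hQc (x i) (hx1 i)
    refine (?_ : (Algebra.adjoin K ((j '' (ev '' (Q.1 : Set R))) ∪ Set.range ρ) : Set (S.DC Set.univ)) ⊆
      (MM K (S.DC Set.univ)).closure ((A : Set (S.DC Set.univ)) ∪ j '' Y)) h1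
    refine (adjoin_sub_cl _).trans (clK_le (Set.union_subset ?_ ?_))
    · rintro _ ⟨z, hz, rfl⟩
      have h2 : z ∈ M.closure (Pe ev B ∪ Y) := mem_MO_iff.mp (hY.subset_closure hz)
      refine clK_le ?_ (cl_const (K := K) j h2)
      rintro _ ⟨y, hy | hy, rfl⟩
      · refine sub_clK _ (Or.inl ?_)
        rw [hA]
        exact Algebra.subset_adjoin (Or.inl ⟨y, hy, rfl⟩)
      · exact sub_clK _ (Or.inr ⟨y, hy, rfl⟩)
    · rintro _ ⟨f, rfl⟩
      refine sub_clK _ (Or.inl ?_)
      rw [hA]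
      exact Algebra.subset_adjoin (Or.inr ⟨f, rfl⟩)
  have h1 : (AlgebraicIndependent.matroid A (S.DC Set.univ)).Indep (Set.range fun i => Θ (x i)) := by
    rw [AlgebraicIndependent.matroid_indep_iff]
    exact hind.to_subtype_range
  have h2 : (Set.range fun i => Θ (x i)).encard ≤ Y.encard := by
    refine (h1.encard_le_eRk_of_subset (X := (AlgebraicIndependent.matroid A (S.DC Set.univ)).closure (j '' Y)) ?_).trans ?_
    · rintro _ ⟨i, rfl⟩
      exact hcl i
    · rw [Matroid.eRk_closure_eq]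
      exact (Matroid.eRk_le_encard _ _).trans (Set.encard_image_le _ _)
  have h3 : (Set.range fun i => Θ (x i)).encard = (wt Q - wt (Q ⊓ B) : ℕ) := by
    have h4 : Function.Injective fun i => Θ (x i) := hind.injective
    rw [← Set.image_univ, h4.encard_image, Set.encard_univ]
    simp
  rw [h3] at h2
  exact absurd (h2.trans_lt hcon) (lt_irrefl _)

end Fn

end Pool.Agent.Q280.TG
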