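import Mathlib

/-!
# Families of period matrices with their motivic Galois groups
-/

set_option autoImplicit false

open MvPolynomial

namespace Pool.Agent.Q280.TG.PD

/-- The indices of the entries of the matrices of a family and of their inverses: `⟨i, false, a, b⟩` is the
entry `(a, b)` of the matrix number `i`, and `⟨i, true, a, b⟩` is the entry `(a, b)` of its inverse. -/
abbrev Var {I : Type} (N : I → ℕ) : Type := Σ i, Bool × Fin (N i) × Fin (N i)

/-- The entries of a family of invertible matrices and of their inverses. -/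
def co {I : Type} {N : I → ℕ} {F : Type} [Field F] (x : ∀ i, GL (Fin (N i)) F) : Var N → F
  | ⟨i, false, a, b⟩ => (x i).val a b
  | ⟨i, true, a, b⟩ => (x i)⁻¹.val a b

/-- Largest number of elements of `S` which are algebraically independent over `k`: it is finite and equal to `n`. -/
def TD (k : Type) {E : Type} [CommRing k] [CommRing E] [Algebra k E] (S : Set E) (n : ℕ) : Prop :=
  IsGreatest {m : ℕ | ∃ v : Fin m → E, (∀ i, v i ∈ S) ∧ AlgebraicIndependent k v} n

/-- A family of motives `M i` over `K = ℚ̄` in terms of matrices: the motivic Galois group `Γ` of the family, its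
identity component `G`, the component `G g₀` of the torsor of periods which contains the period matrices `β i`. -/
structure Periods (K : Type) [Field K] [Algebra K ℂ] where
  /-- the indices of the motives -/
  I : Type
  /-- the ranks of the motives -/
  N : I → ℕ
  /-- the `K`-points of the motivic Galois group of the family -/
  Γ : Subgroup (∀ i, GL (Fin (N i)) K)
  /-- the `K`-points of its identity component -/
  G : Subgroup (∀ i, GL (Fin (N i)) K)
  /-- a `K`-point of the component of the torsor of periods which contains `β` -/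
  g₀ : ∀ i, GL (Fin (N i)) K
  /-- the period matrices -/
  β : ∀ i, GL (Fin (N i)) ℂ
  le : G ≤ Γ
  normal : ∀ γ ∈ Γ, ∀ g ∈ G, γ * g * γ⁻¹ ∈ G
  /-- the component `G g₀` is Zariski closed -/
  closed : ∀ z : ∀ i, GL (Fin (N i)) K,
    (∀ P : MvPolynomial (Var N) K, (∀ x ∈ G, eval (co (x * g₀)) P = 0) → eval (co z) P = 0) → z * g₀⁻¹ ∈ G
  /-- the component `G g₀` is irreducible -/
  irred : ∀ P Q : MvPolynomial (Var N) K, (∀ x ∈ G, eval (co (x * g₀)) P * eval (co (x * g₀)) Q = 0) →
    (∀ x ∈ G, eval (co (x * g₀)) P = 0) ∨ ∀ x ∈ G, eval (co (x * g₀)) Q = 0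
  /-- `β` is a complex point of the component `G g₀` -/
  mem : ∀ P : MvPolynomial (Var N) K, (∀ x ∈ G, eval (co (x * g₀)) P = 0) → aeval (co β) P = 0

namespace Periods

variable {K : Type} [Field K] [Algebra K ℂ] (D : Periods K)

/-- The formal period given by a polynomial: a function on `G g₀`, written as a function on `G`. -/
noncomputable def fp (P : MvPolynomial (Var D.N) K) : D.G → K := fun x => eval (co (x.1 * D.g₀)) P

/-- The formal periods which are invariant under a subgroup `H` of `G`. -/
noncomputable def inv (H : Subgroup (∀ i, GL (Fin (D.N i)) K)) : Subalgebra K (D.G → K) where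
  carrier := {f | (∃ P, D.fp P = f) ∧ ∀ n ∈ H, ∀ x y : D.G, y.1 = n * x.1 → f y = f x}
  mul_mem' := by
    rintro _ _ ⟨⟨P, rfl⟩, h1⟩ ⟨⟨Q, rfl⟩, h2⟩
    exact ⟨⟨P * Q, funext fun x => (map_mul (eval (co (x.1 * D.g₀))) P Q)⟩, fun n hn x y h => by
      rw [Pi.mul_apply, Pi.mul_apply, h1 n hn x y h, h2 n hn x y h]⟩
  add_mem' := by
    rintro _ _ ⟨⟨P, rfl⟩, h1⟩ ⟨⟨Q, rfl⟩, h2⟩
    exact ⟨⟨P + Q, funext fun x => (map_add (eval (co (x.1 * D.g₀))) P Q)⟩, fun n hn x y h => by
      rw [Pi.add_apply, Pi.add_apply, h1 n hn x y h, h2 n hn x y h]⟩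
  algebraMap_mem' r := ⟨⟨C r, funext fun _ => eval_C r⟩, fun _ _ _ _ _ => rfl⟩

/-- A category: the algebra of the formal periods which are invariant under a subgroup `H` of `G` which is normalized
by `Γ`, if every formal period which is algebraic over this algebra lies in it (that is, if `H` is connected). It
corresponds to a Tannakian subcategory of the category generated by the family. -/
def IsCategory (C : Subalgebra K (D.G → K)) : Prop :=
  (∃ H ≤ D.G, (∀ γ ∈ D.Γ, ∀ n ∈ H, γ * n * γ⁻¹ ∈ H) ∧ C = D.inv H) ∧
    ∀ P : MvPolynomial (Var D.N) K, IsAlgebraic C (D.fp P) → D.fp P ∈ C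

/-- The periods of a category. -/
def per (C : Subalgebra K (D.G → K)) : Set ℂ := {z | ∃ P : MvPolynomial (Var D.N) K, D.fp P ∈ C ∧ aeval (co D.β) P = z}

end Periods

end Pool.Agent.Q280.TG.PD
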