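import Pool.Agent.Q280.TG.V
import Pool.Agent.Q280.TG.TC

/-!
# The algebra of formal periods as an algebra of functions on the group
-/

set_option autoImplicit false
set_option linter.unusedSectionVars false

open MvPolynomial Module Submodule

namespace Pool.Agent.Q280.TG.PD

section Co

variable {I : Type} {N : I → ℕ} {F : Type} [Field F]

theorem val_mul3 {n : ℕ} (a y b : GL (Fin n) F) (p q : Fin n) :
    (a * y * b).val p q = ∑ r, ∑ s, (a.val p r * b.val s q) * y.val r s := by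
  have h1 : (a * y * b).val = a.val * y.val * b.val := rfl
  rw [h1, Matrix.mul_apply]
  simp only [Matrix.mul_apply, Finset.sum_mul]
  rw [Finset.sum_comm]
  exact Finset.sum_congr rfl fun r _ => Finset.sum_congr rfl fun s _ => by ring

/-- the coordinates of `a y b` and of `a y⁻¹ b` -/
theorem co_lin (a b : ∀ i, GL (Fin (N i)) F) (ε : Bool) (v : Var N) : ∃ c : Bool × Fin (N v.1) × Fin (N v.1) → F,
    ∀ y : ∀ i, GL (Fin (N i)) F, co (a * (if ε then y⁻¹ else y) * b) v = ∑ w, c w * co y ⟨v.1, w⟩ := by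
  classical
  obtain ⟨i, δ, p, q⟩ := v
  obtain ⟨l, m, hlm⟩ : ∃ l m : GL (Fin (N i)) F, ∀ y : ∀ i, GL (Fin (N i)) F,
      co (a * (if ε then y⁻¹ else y) * b) ⟨i, δ, p, q⟩ =
        ∑ r, ∑ s, (l.val p r * m.val s q) * co y ⟨i, xor δ ε, r, s⟩ := by
    cases δ
    · refine ⟨a i, b i, fun y => ?_⟩
      cases ε
      · exact val_mul3 (a i) (y i) (b i) p q
      · exact val_mul3 (a i) (y i)⁻¹ (b i) p q
    · refine ⟨(b i)⁻¹, (a i)⁻¹, fun y => ?_⟩
      cases ε
      · have h1 : co (a * (if false = true then y⁻¹ else y) * b) ⟨i, true, p, q⟩ =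
            ((b i)⁻¹ * (y i)⁻¹ * (a i)⁻¹).val p q := by
          change (((a * y * b) i)⁻¹ : GL (Fin (N i)) F).val p q = _
          have : ((a * y * b) i)⁻¹ = (b i)⁻¹ * (y i)⁻¹ * (a i)⁻¹ := by
            rw [Pi.mul_apply, Pi.mul_apply, mul_inv_rev, mul_inv_rev, mul_assoc]
          rw [this]
        rw [h1]
        exact val_mul3 (b i)⁻¹ (y i)⁻¹ (a i)⁻¹ p q
      · have h1 : co (a * (if true = true then y⁻¹ else y) * b) ⟨i, true, p, q⟩ =
            ((b i)⁻¹ * (y i) * (a i)⁻¹).val p q := by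
          change (((a * y⁻¹ * b) i)⁻¹ : GL (Fin (N i)) F).val p q = _
          have : ((a * y⁻¹ * b) i)⁻¹ = (b i)⁻¹ * (y i) * (a i)⁻¹ := by
            rw [Pi.mul_apply, Pi.mul_apply, mul_inv_rev, mul_inv_rev, Pi.inv_apply, inv_inv, mul_assoc]
          rw [this]
        rw [h1]
        exact val_mul3 (b i)⁻¹ (y i) (a i)⁻¹ p q
  refine ⟨fun w => if w.1 = xor δ ε then l.val p w.2.1 * m.val w.2.2 q else 0, fun y => ?_⟩
  rw [hlm, Fintype.sum_prod_type, Finset.sum_eq_single (xor δ ε)]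
  · simp only [if_true]
    rw [Fintype.sum_prod_type]
  · intro e _ he
    simp only [if_neg he, zero_mul, Finset.sum_const_zero]
  · intro h
    exact absurd (Finset.mem_univ _) h

theorem co_mul_inv (y : ∀ i, GL (Fin (N i)) F) (i : I) (p q : Fin (N i)) :
    ∑ r, co y ⟨i, false, p, r⟩ * co y ⟨i, true, r, q⟩ = if p = q then 1 else 0 := by
  have h1 : ((y i) * (y i)⁻¹ : GL (Fin (N i)) F).val p q = (1 : Matrix (Fin (N i)) (Fin (N i)) F) p q := by
    rw [mul_inv_cancel]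
    rfl
  rw [Matrix.one_apply] at h1
  exact h1

theorem co_inv_mul (y : ∀ i, GL (Fin (N i)) F) (i : I) (p q : Fin (N i)) :
    ∑ r, co y ⟨i, true, p, r⟩ * co y ⟨i, false, r, q⟩ = if p = q then 1 else 0 := by
  have h1 : ((y i)⁻¹ * (y i) : GL (Fin (N i)) F).val p q = (1 : Matrix (Fin (N i)) (Fin (N i)) F) p q := by
    rw [inv_mul_cancel]
    rfl
  rw [Matrix.one_apply] at h1
  exact h1

end Co

namespace Periods

variable {K : Type} [Field K] [Algebra K ℂ] (D : Periods K)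

/-- formal periods, as a homomorphism -/
noncomputable def fpH : MvPolynomial (Var D.N) K →ₐ[K] (D.G → K) where
  toFun := D.fp
  map_one' := funext fun x => map_one (eval (co (x.1 * D.g₀)))
  map_mul' P Q := funext fun x => map_mul (eval (co (x.1 * D.g₀))) P Q
  map_zero' := funext fun x => map_zero (eval (co (x.1 * D.g₀)))
  map_add' P Q := funext fun x => map_add (eval (co (x.1 * D.g₀))) P Q
  commutes' c := funext fun _ => eval_C c

theorem fpH_apply (P : MvPolynomial (Var D.N) K) : D.fpH P = D.fp P := rfl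

/-- the algebra of the formal periods -/
noncomputable abbrev F : Subalgebra K (D.G → K) := D.fpH.range

/-- the entries -/
noncomputable def cf (v : Var D.N) : D.F := ⟨D.fpH (X v), X v, rfl⟩

theorem cf_apply (v : Var D.N) (x : D.G) : (D.cf v : D.G → K) x = co (x.1 * D.g₀) v := by
  change eval (co (x.1 * D.g₀)) (X v) = _
  rw [eval_X]

/-- maps of the group which transform the entries linearly -/
def Lin (τ : D.G → D.G) : Prop := ∃ (a b : ∀ i, GL (Fin (D.N i)) K) (ε : Bool), ∀ x : D.G,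
  (τ x).1 * D.g₀ = a * (if ε then (x.1 * D.g₀)⁻¹ else x.1 * D.g₀) * b

variable {D}

theorem Lin.coef {τ : D.G → D.G} (h : D.Lin τ) (v : Var D.N) : ∃ c : Bool × Fin (D.N v.1) × Fin (D.N v.1) → K,
    ∀ x, (D.cf v : D.G → K) (τ x) = ∑ w, c w * (D.cf ⟨v.1, w⟩ : D.G → K) x := by
  obtain ⟨a, b, ε, h⟩ := h
  obtain ⟨c, hc⟩ := co_lin a b ε v
  refine ⟨c, fun x => ?_⟩
  rw [cf_apply, h, hc]
  exact Finset.sum_congr rfl fun w _ => by rw [cf_apply]

/-- the operator on formal periods -/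
theorem Lin.exists_op {τ : D.G → D.G} (h : D.Lin τ) : ∃ T : D.F →ₐ[K] D.F, ∀ f x, (T f : D.G → K) x = (f : D.G → K) (τ x) := by
  have hmem : ∀ P, (fun x => D.fpH P (τ x)) ∈ D.F := by
    intro P
    induction P using MvPolynomial.induction_on with
    | C c => exact ⟨C c, funext fun x => by
        change eval (co (x.1 * D.g₀)) (C c) = eval (co ((τ x).1 * D.g₀)) (C c)
        rw [eval_C, eval_C]⟩
    | add P Q hP hQ =>
      have h1 : (fun x => D.fpH (P + Q) (τ x)) = (fun x => D.fpH P (τ x)) + fun x => D.fpH Q (τ x) :=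
        funext fun x => by rw [map_add]; rfl
      rw [h1]
      exact add_mem hP hQ
    | mul_X P v hP =>
      obtain ⟨c, hc⟩ := h.coef v
      have h1 : (fun x => D.fpH (P * X v) (τ x)) =
          (fun x => D.fpH P (τ x)) * ∑ w, c w • (D.cf ⟨v.1, w⟩ : D.G → K) := funext fun x => by
        rw [map_mul, Pi.mul_apply, Pi.mul_apply, Finset.sum_apply]
        congr 1
        refine (hc x).trans (Finset.sum_congr rfl fun w _ => ?_)
        rw [Pi.smul_apply, smul_eq_mul]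
      rw [h1]
      exact mul_mem hP (sum_mem fun w _ => Subalgebra.smul_mem _ (D.cf ⟨v.1, w⟩).2 _)
  refine ⟨{ toFun := fun f => ⟨fun x => (f : D.G → K) (τ x), by
              obtain ⟨f, P, rfl⟩ := f
              exact hmem P⟩
            map_one' := rfl
            map_mul' := fun _ _ => rfl
            map_zero' := rfl
            map_add' := fun _ _ => rfl
            commutes' := fun _ => rfl }, fun f x => rfl⟩

/-- the span of the entries of one matrix -/
noncomputable def V₁ (D : Periods K) (i : D.I) : Submodule K D.F :=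
  span K (Set.range fun w : Bool × Fin (D.N i) × Fin (D.N i) => D.cf ⟨i, w⟩)

/-- polynomials of bounded degree in the entries of finitely many matrices -/
noncomputable def U₁ (D : Periods K) (s : Finset D.I) (d : ℕ) : Submodule K D.F := (1 ⊔ s.sup D.V₁) ^ d

theorem op_U {τ : D.G → D.G} (h : D.Lin τ) {T : D.F →ₐ[K] D.F}
    (hT : ∀ f x, (T f : D.G → K) x = (f : D.G → K) (τ x)) (s : Finset D.I) (d : ℕ) :
    ∀ f ∈ D.U₁ s d, T f ∈ D.U₁ s d := by
  have h1 : ∀ i, (D.V₁ i).map T.toLinearMap ≤ D.V₁ i := by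
    intro i
    rw [V₁, Submodule.map_span, span_le]
    rintro _ ⟨_, ⟨w, rfl⟩, rfl⟩
    obtain ⟨c, hc⟩ := h.coef ⟨i, w⟩
    have h2 : T (D.cf ⟨i, w⟩) = ∑ u, c u • D.cf ⟨i, u⟩ := Subtype.ext (funext fun x => by
      rw [hT, hc, AddSubmonoidClass.coe_finsetSum, Finset.sum_apply]
      rfl)
    change T (D.cf ⟨i, w⟩) ∈ _
    rw [h2]
    exact sum_mem fun u _ => smul_mem _ _ (subset_span ⟨u, rfl⟩)
  have h2 : (1 ⊔ s.sup D.V₁).map T.toLinearMap ≤ 1 ⊔ s.sup D.V₁ := by
    rw [Submodule.map_sup]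
    refine sup_le_sup ?_ ?_
    · rintro _ ⟨y, hy, rfl⟩
      obtain ⟨c, rfl⟩ := Submodule.mem_one.mp hy
      exact Submodule.mem_one.mpr ⟨c, (AlgHom.commutes T c).symm⟩
    · rw [Finset.sup_eq_iSup, Submodule.map_iSup]
      refine iSup_mono fun i => ?_
      rw [Submodule.map_iSup]
      exact iSup_mono fun _ => h1 i
  have h3 : (D.U₁ s d).map T.toLinearMap ≤ D.U₁ s d := by
    unfold U₁
    rw [Submodule.map_pow]
    exact pow_le_pow_left' h2 d
  intro f hf
  exact h3 ⟨f, hf, rfl⟩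

theorem U_mono {s t : Finset D.I} {d e : ℕ} (hst : s ⊆ t) (hde : d ≤ e) : D.U₁ s d ≤ D.U₁ t e := by
  unfold U₁
  refine (pow_le_pow_left' (sup_le_sup le_rfl (Finset.sup_mono hst)) d).trans ?_
  exact pow_le_pow_right' le_sup_left hde

theorem U_fd (s : Finset D.I) (d : ℕ) : FiniteDimensional K (D.U₁ s d) := by
  have h1 : ∀ i, (D.V₁ i).FG := fun i => Submodule.fg_span (Set.finite_range _)
  have h2 : (1 ⊔ s.sup D.V₁ : Submodule K D.F).FG := by
    refine Submodule.FG.sup ?_ ?_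
    · rw [Submodule.one_eq_span]
      exact Submodule.fg_span_singleton _
    · exact Submodule.fg_finset_sup s _ fun i _ => h1 i
  exact Module.Finite.iff_fg.mpr (h2.pow d)

theorem exists_U (f : D.F) : ∃ (s : Finset D.I) (d : ℕ), f ∈ D.U₁ s d := by
  classical
  have key : ∀ P, ∃ (s : Finset D.I) (d : ℕ), (⟨D.fpH P, P, rfl⟩ : D.F) ∈ D.U₁ s d := by
    intro P
    induction P using MvPolynomial.induction_on with
    | C c =>
      refine ⟨∅, 0, ?_⟩
      unfold U₁
      rw [pow_zero]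
      exact Submodule.mem_one.mpr ⟨c, Subtype.ext (AlgHom.commutes D.fpH c).symm⟩
    | add P Q hP hQ =>
      obtain ⟨s, d, h1⟩ := hP
      obtain ⟨t, e, h2⟩ := hQ
      refine ⟨s ∪ t, max d e, ?_⟩
      have h3 : (⟨D.fpH (P + Q), P + Q, rfl⟩ : D.F) = ⟨D.fpH P, P, rfl⟩ + ⟨D.fpH Q, Q, rfl⟩ :=
        Subtype.ext (map_add D.fpH P Q)
      rw [h3]
      exact add_mem (U_mono Finset.subset_union_left (le_max_left _ _) h1)
        (U_mono Finset.subset_union_right (le_max_right _ _) h2)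
    | mul_X P v hP =>
      obtain ⟨s, d, h1⟩ := hP
      refine ⟨s ∪ {v.1}, d + 1, ?_⟩
      have h3 : (⟨D.fpH (P * X v), P * X v, rfl⟩ : D.F) = ⟨D.fpH P, P, rfl⟩ * D.cf v :=
        Subtype.ext (map_mul D.fpH P (X v))
      rw [h3]
      unfold U₁
      rw [pow_succ]
      refine Submodule.mul_mem_mul (U_mono (e := d) Finset.subset_union_left le_rfl h1) ?_
      refine (le_sup_right : _ ≤ 1 ⊔ (s ∪ {v.1}).sup D.V₁) ?_
      refine (Finset.le_sup (f := D.V₁) (Finset.mem_union_right s (Finset.mem_singleton_self v.1))) ?_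
      exact subset_span ⟨v.2, rfl⟩
  obtain ⟨f, P, rfl⟩ := f
  exact key P

/-! ### The operators -/

variable (D)

/-- left translation -/
def tl (g : D.G) : D.G → D.G := fun x => g * x
/-- right translation -/
def tr (g : D.G) : D.G → D.G := fun x => x * g
/-- inversion -/
def ti : D.G → D.G := fun x => x⁻¹
/-- conjugation -/
def tc (γ : D.Γ) : D.G → D.G := fun x => ⟨γ.1 * x.1 * γ.1⁻¹, D.normal γ.1 γ.2 x.1 x.2⟩

theorem lin_tl (g : D.G) : D.Lin (D.tl g) := ⟨g.1, 1, false, fun x => by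
  change (g.1 * x.1) * D.g₀ = g.1 * (x.1 * D.g₀) * 1
  rw [mul_one, mul_assoc]⟩

theorem lin_tr (g : D.G) : D.Lin (D.tr g) := ⟨1, D.g₀⁻¹ * g.1 * D.g₀, false, fun x => by
  change (x.1 * g.1) * D.g₀ = 1 * (x.1 * D.g₀) * (D.g₀⁻¹ * g.1 * D.g₀)
  group⟩

theorem lin_ti : D.Lin D.ti := ⟨D.g₀, D.g₀, true, fun x => by
  change x.1⁻¹ * D.g₀ = D.g₀ * (x.1 * D.g₀)⁻¹ * D.g₀
  group⟩

theorem lin_tc (γ : D.Γ) : D.Lin (D.tc γ) := ⟨γ.1, D.g₀⁻¹ * γ.1⁻¹ * D.g₀, false, fun x => by
  change (γ.1 * x.1 * γ.1⁻¹) * D.g₀ = γ.1 * (x.1 * D.g₀) * (D.g₀⁻¹ * γ.1⁻¹ * D.g₀)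
  group⟩

/-- the algebra of formal periods as an algebra of functions on the group -/
noncomputable def fnn : Fn K D.G D.Γ D.F where
  v := D.F.val
  inj := Subtype.val_injective
  lt g := (D.lin_tl g).exists_op.choose
  rt g := (D.lin_tr g).exists_op.choose
  iv := (D.lin_ti).exists_op.choose
  cj γ := (D.lin_tc γ).exists_op.choose
  v_lt g := (D.lin_tl g).exists_op.choose_spec
  v_rt g := (D.lin_tr g).exists_op.choose_spec
  v_iv := (D.lin_ti).exists_op.choose_spec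
  cj_inj γ f h hfh := Subtype.ext (funext fun x => by
    have h1 := (D.lin_tc γ).exists_op.choose_spec
    obtain ⟨y, hy⟩ : ∃ y, D.tc γ y = x := ⟨D.tc γ⁻¹ x, Subtype.ext (by
      change γ.1 * (γ.1⁻¹ * x.1 * γ.1⁻¹⁻¹) * γ.1⁻¹ = x.1
      group)⟩
    rw [← hy, ← h1, ← h1, hfh])
  fin f := by
    obtain ⟨s, d, h⟩ := exists_U f
    exact ⟨D.U₁ s d, U_fd s d, h, fun g => op_U (D.lin_tl g) (D.lin_tl g).exists_op.choose_spec s d,
      fun g => op_U (D.lin_tr g) (D.lin_tr g).exists_op.choose_spec s d,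
      op_U D.lin_ti D.lin_ti.exists_op.choose_spec s d,
      fun γ => op_U (D.lin_tc γ) (D.lin_tc γ).exists_op.choose_spec s d⟩

theorem v_cj (γ : D.Γ) (f : D.F) (x : D.G) : (D.fnn.cj γ f : D.G → K) x = (f : D.G → K) (D.tc γ x) :=
  (D.lin_tc γ).exists_op.choose_spec f x

instance : IsDomain D.F := by
  have h1 : Nontrivial D.F := ⟨⟨0, 1, fun h => zero_ne_one (congrFun (congrArg Subtype.val h) (1 : D.G))⟩⟩
  have h2 : NoZeroDivisors D.F := ⟨fun {f h} hfh => by
    obtain ⟨f, P, rfl⟩ := f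
    obtain ⟨h, Q, rfl⟩ := h
    rcases D.irred P Q (fun x hx => congrFun (congrArg Subtype.val hfh) (⟨x, hx⟩ : D.G)) with h3 | h3
    · exact Or.inl (Subtype.ext (funext fun x => h3 x.1 x.2))
    · exact Or.inr (Subtype.ext (funext fun x => h3 x.1 x.2))⟩
  exact NoZeroDivisors.to_isDomain _

/-- the homomorphisms are the points -/
theorem pts : D.fnn.Pts := by
  intro φ
  have h1 : ∀ i, (Matrix.of fun p q => φ (D.cf ⟨i, false, p, q⟩)) * (Matrix.of fun p q => φ (D.cf ⟨i, true, p, q⟩)) =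
      (1 : Matrix (Fin (D.N i)) (Fin (D.N i)) K) := by
    intro i
    ext p q
    rw [Matrix.mul_apply, Matrix.one_apply]
    have h2 : ∑ r, D.cf ⟨i, false, p, r⟩ * D.cf ⟨i, true, r, q⟩ = if p = q then 1 else 0 :=
      Subtype.ext (funext fun x => by
        rw [AddSubmonoidClass.coe_finsetSum, Finset.sum_apply]
        have h3 := co_mul_inv (x.1 * D.g₀) i p q
        refine Eq.trans (Finset.sum_congr rfl fun r _ => ?_) (h3.trans ?_)
        · rw [← cf_apply, ← cf_apply]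
          rfl
        · split_ifs <;> rfl)
    have h3 := congrArg φ h2
    rw [map_sum] at h3
    simp only [map_mul] at h3
    refine h3.trans ?_
    split_ifs
    · exact map_one φ
    · exact map_zero φ
  obtain ⟨z, hz⟩ : ∃ z : ∀ i, GL (Fin (D.N i)) K, ∀ v, co z v = φ (D.cf v) :=
    ⟨fun i => ⟨Matrix.of fun p q => φ (D.cf ⟨i, false, p, q⟩), Matrix.of fun p q => φ (D.cf ⟨i, true, p, q⟩), h1 i,
      mul_eq_one_comm.mp (h1 i)⟩, by
      rintro ⟨i, δ, p, q⟩
      cases δ <;> rfl⟩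
  have h2 : ∀ P, eval (co z) P = φ ⟨D.fpH P, P, rfl⟩ := by
    intro P
    obtain ⟨ψ, hψ⟩ : ∃ ψ : MvPolynomial (Var D.N) K →ₐ[K] K, ∀ P, ψ P = φ ⟨D.fpH P, P, rfl⟩ :=
      ⟨φ.comp D.fpH.rangeRestrict, fun P => rfl⟩
    rw [← hψ, ← MvPolynomial.coe_aeval_eq_eval]
    have h3 : MvPolynomial.aeval (co z) = ψ := MvPolynomial.algHom_ext fun v => by
      rw [MvPolynomial.aeval_X, hz, hψ]
      rfl
    rw [h3]
    rfl
  have h3 : z * D.g₀⁻¹ ∈ D.G := D.closed z fun P hP => by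
    rw [h2]
    have h4 : (⟨D.fpH P, P, rfl⟩ : D.F) = 0 := Subtype.ext (funext fun x => hP x.1 x.2)
    rw [h4, map_zero]
  refine ⟨⟨z * D.g₀⁻¹, h3⟩, ?_⟩
  rintro ⟨_, P, rfl⟩
  change φ ⟨D.fpH P, P, rfl⟩ = eval (co (z * D.g₀⁻¹ * D.g₀)) P
  rw [inv_mul_cancel_right, h2]

end Periods

end Pool.Agent.Q280.TG.PD
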