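import Pool.Agent.Q280.TG.VA

/-!
# Categories as elements of the lattice
-/

set_option autoImplicit false
set_option linter.unusedSectionVars false

open MvPolynomial Module Submodule Q241.SX

namespace Pool.Agent.Q280.TG.PD

open Pool.Agent.Q280.TG
open Pool.Agent.Q280.MD (MO)

section TDL

variable {k E : Type} [Field k] [CommRing E] [IsDomain E] [Algebra k E]

theorem le_eRk_iff' {S : Set E} {n : ℕ} : ((n : ℕ) : ℕ∞) ≤ (MM k E).eRk S ↔
    ∃ v : Fin n → E, (∀ i, v i ∈ S) ∧ AlgebraicIndependent k v := by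
  constructor
  · intro h
    obtain ⟨I, hI, hind, hcard⟩ := (MM k E).le_eRk_iff.mp h
    have hfin : I.Finite := Set.finite_of_encard_eq_coe hcard
    have : Fintype I := hfin.fintype
    have hc : Fintype.card I = n := by
      have h1 : I.encard = Fintype.card I := by
        rw [← Set.coe_fintypeCard]
      rw [hcard] at h1
      exact_mod_cast h1.symm
    let e : Fin n ≃ I := (finCongr hc.symm).trans (Fintype.equivFin I).symm
    refine ⟨fun i => (e i : E), fun i => hI (e i).2, ?_⟩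
    rw [AlgebraicIndependent.matroid_indep_iff] at hind
    have h2 : AlgebraicIndependent k (fun x : I => (x : E)) := hind
    exact h2.comp e e.injective
  · rintro ⟨v, h1, h2⟩
    refine (MM k E).le_eRk_iff.mpr ⟨Set.range v, ?_, ?_, ?_⟩
    · rintro _ ⟨i, rfl⟩
      exact h1 i
    · rw [AlgebraicIndependent.matroid_indep_iff]
      exact h2.to_subtype_range
    · have h4 : Function.Injective v := h2.injective
      rw [← Set.image_univ, h4.encard_image, Set.encard_univ]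
      simp

theorem td_iff {S : Set E} {n : ℕ} : TD k S n ↔ (MM k E).eRk S = n := by
  unfold TD
  constructor
  · rintro ⟨h1, h2⟩
    apply le_antisymm
    · by_contra hcon
      push Not at hcon
      have h3 : ((n + 1 : ℕ) : ℕ∞) ≤ (MM k E).eRk S := by
        rw [Nat.cast_add, Nat.cast_one]
        exact Order.add_one_le_of_lt hcon
      have h4 := h2 (le_eRk_iff'.mp h3)
      omega
    · exact le_eRk_iff'.mpr h1
  · intro h
    refine ⟨le_eRk_iff'.mp h.ge, fun m hm => ?_⟩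
    have h1 := le_eRk_iff'.mpr hm
    rw [h] at h1
    exact_mod_cast h1

end TDL

namespace Periods

variable {K : Type} [Field K] [Algebra K ℂ] (D : Periods K)

/-- evaluation of formal periods -/
theorem exists_ev : ∃ ev : D.F →ₐ[K] ℂ, ∀ P, ev ⟨D.fpH P, P, rfl⟩ = aeval (co D.β) P := by
  have hs : Function.Surjective D.fpH.rangeRestrict := AlgHom.rangeRestrict_surjective _
  refine ⟨AlgHom.liftOfSurjective D.fpH.rangeRestrict hs (aeval (co D.β)) (fun P hP => D.mem P fun x hx => ?_),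
    fun P => AlgHom.liftOfSurjective_apply D.fpH.rangeRestrict hs (aeval (co D.β)) _ P⟩
  have h1 : D.fpH.rangeRestrict P = 0 := hP
  exact congrFun (congrArg Subtype.val h1) (⟨x, hx⟩ : D.G)

noncomputable def ev : D.F →ₐ[K] ℂ := D.exists_ev.choose

theorem ev_apply (P : MvPolynomial (Var D.N) K) : D.ev ⟨D.fpH P, P, rfl⟩ = aeval (co D.β) P := D.exists_ev.choose_spec P

/-- a subalgebra of the algebra of formal periods as an algebra of functions -/
noncomputable def im (A : Subalgebra K D.F) : Subalgebra K (D.G → K) := A.map D.F.val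

variable {D}

theorem mem_im {A : Subalgebra K D.F} {f : D.G → K} : f ∈ D.im A ↔ ∃ h : f ∈ D.F, (⟨f, h⟩ : D.F) ∈ A := by
  constructor
  · rintro ⟨a, ha, rfl⟩
    exact ⟨a.2, ha⟩
  · rintro ⟨h, ha⟩
    exact ⟨⟨f, h⟩, ha, rfl⟩

theorem fp_mem_im {A : Subalgebra K D.F} {P : MvPolynomial (Var D.N) K} :
    D.fp P ∈ D.im A ↔ (⟨D.fpH P, P, rfl⟩ : D.F) ∈ A := by
  rw [mem_im]
  exact ⟨fun ⟨_, h⟩ => h, fun h => ⟨⟨P, rfl⟩, h⟩⟩

theorem im_le {A B : Subalgebra K D.F} : D.im A ≤ D.im B ↔ A ≤ B := by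
  constructor
  · intro h a ha
    obtain ⟨_, h2⟩ := mem_im.mp (h (mem_im.mpr ⟨a.2, ha⟩))
    exact h2
  · exact fun h => Subalgebra.map_mono h

theorem im_inj {A B : Subalgebra K D.F} (h : D.im A = D.im B) : A = B :=
  le_antisymm (im_le.mp h.le) (im_le.mp h.ge)

theorem im_inf (A B : Subalgebra K D.F) : D.im (A ⊓ B) = D.im A ⊓ D.im B := by
  ext f
  constructor
  · intro hf
    obtain ⟨h1, h2⟩ := mem_im.mp hf
    exact ⟨mem_im.mpr ⟨h1, h2.1⟩, mem_im.mpr ⟨h1, h2.2⟩⟩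
  · rintro ⟨h1, h2⟩
    obtain ⟨h3, h4⟩ := mem_im.mp h1
    obtain ⟨_, h5⟩ := mem_im.mp h2
    exact mem_im.mpr ⟨h3, h4, h5⟩

theorem im_bot : D.im ⊥ = ⊥ := Algebra.map_bot _

theorem isAlg_iff {A : Subalgebra K D.F} {f : D.F} : IsAlgebraic (D.im A) (f : D.G → K) ↔ IsAlgebraic A f := by
  obtain ⟨e, he⟩ : ∃ e : A ≃ₐ[K] D.im A, ∀ a, ((e a : D.im A) : D.G → K) = ((a : D.F) : D.G → K) :=
    ⟨A.equivMapOfInjective D.F.val Subtype.val_injective, fun a => rfl⟩
  have key : ∀ p : Polynomial A, ((Polynomial.aeval f p : D.F) : D.G → K) =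
      Polynomial.aeval (f : D.G → K) (p.map (e : A →+* D.im A)) := by
    intro p
    rw [Polynomial.aeval_def, Polynomial.aeval_def, Polynomial.eval₂_map]
    have h1 := Polynomial.hom_eval₂ p (algebraMap A D.F) (D.F.val : D.F →+* (D.G → K)) f
    refine h1.trans ?_
    have h2 : (D.F.val : D.F →+* (D.G → K)).comp (algebraMap A D.F) =
        (algebraMap (D.im A) (D.G → K)).comp (e : A →+* D.im A) := RingHom.ext fun a => (he a).symm
    rw [h2]
    rfl
  constructor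
  · rintro ⟨q, hq0, hq⟩
    refine ⟨q.map (e.symm : D.im A →+* A), ?_, ?_⟩
    · exact (Polynomial.map_ne_zero_iff e.symm.injective).mpr hq0
    · apply Subtype.ext
      rw [key, Polynomial.map_map]
      have h1 : (e : A →+* D.im A).comp (e.symm : D.im A →+* A) = RingHom.id _ := RingHom.ext fun x => e.apply_symm_apply x
      rw [h1, Polynomial.map_id, hq]
      rfl
  · rintro ⟨p, hp0, hp⟩
    refine ⟨p.map (e : A →+* D.im A), ?_, ?_⟩
    · exact (Polynomial.map_ne_zero_iff e.injective).mpr hp0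
    · rw [← key, hp]
      rfl

variable (D) in
theorem td_im (A : Subalgebra K D.F) (n : ℕ) : TD K (D.im A : Set (D.G → K)) n ↔ (MM K D.F).eRk (A : Set D.F) = n := by
  rw [← td_iff]
  have h1 : ∀ m : ℕ, (∃ v : Fin m → (D.G → K), (∀ i, v i ∈ (D.im A : Set (D.G → K))) ∧ AlgebraicIndependent K v) ↔
      ∃ v : Fin m → D.F, (∀ i, v i ∈ (A : Set D.F)) ∧ AlgebraicIndependent K v := by
    intro m
    constructor
    · rintro ⟨v, h2, h3⟩
      choose h4 h5 using fun i => mem_im.mp (h2 i)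
      refine ⟨fun i => ⟨v i, h4 i⟩, h5, ?_⟩
      exact (D.F.val.algebraicIndependent_iff Subtype.val_injective).mp h3
    · rintro ⟨v, h2, h3⟩
      refine ⟨fun i => (v i : D.G → K), fun i => mem_im.mpr ⟨(v i).2, h2 i⟩, ?_⟩
      exact (D.F.val.algebraicIndependent_iff Subtype.val_injective).mpr h3
  unfold TD
  simp only [h1]

theorem Fix_im (A : Subalgebra K D.F) : ∀ n : D.G, n ∈ D.fnn.Fix (A : Set D.F) ↔
    ∀ f ∈ A, ∀ x, (f : D.G → K) (n * x) = (f : D.G → K) x := by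
  intro n
  constructor
  · intro h f hf x
    have h1 := congrFun (congrArg Subtype.val (h f hf)) x
    rw [← h1]
    exact (D.fnn.v_lt n f x).symm
  · intro h f hf
    exact D.fnn.ext fun x => (D.fnn.v_lt n f x).trans (h f hf x)

variable [IsAlgClosed K]

/-- elements of the lattice are categories -/
theorem isCategory_im (a : D.fnn.XX) : D.IsCategory (D.im a.1) := by
  refine ⟨⟨(D.fnn.Fix (a.1 : Set D.F)).map D.G.subtype, ?_, ?_, ?_⟩, ?_⟩
  · rintro _ ⟨n, _, rfl⟩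
    exact n.2
  · rintro γ hγ _ ⟨n, hn, rfl⟩
    refine ⟨⟨γ * n.1 * γ⁻¹, D.normal γ hγ n.1 n.2⟩, ?_, rfl⟩
    change _ ∈ D.fnn.Fix (a.1 : Set D.F)
    rw [Fix_im]
    intro f hf x
    have h1 := (Fix_im a.1 n).mp hn _ (a.2.1.cj ⟨γ, hγ⟩ f hf)
    obtain ⟨y, hy⟩ : ∃ y, D.tc ⟨γ, hγ⟩ y = x := ⟨D.tc ⟨γ, hγ⟩⁻¹ x, Subtype.ext (by
      change γ * (γ⁻¹ * x.1 * γ⁻¹⁻¹) * γ⁻¹ = x.1
      group)⟩
    have h2 := h1 y
    rw [D.v_cj, D.v_cj, hy] at h2
    have h3 : (⟨γ * n.1 * γ⁻¹, D.normal γ hγ n.1 n.2⟩ : D.G) * x = D.tc ⟨γ, hγ⟩ (n * y) := by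
      rw [← hy]
      apply Subtype.ext
      change γ * n.1 * γ⁻¹ * (γ * y.1 * γ⁻¹) = γ * (n.1 * y.1) * γ⁻¹
      group
    exact (congrArg (f : D.G → K) h3).trans h2
  · have h1 := Fn.Inv_Fix D.pts a.2.1.toIsCat a.2.2
    ext f
    rw [mem_im]
    constructor
    · rintro ⟨hf, hfa⟩
      refine ⟨hf, ?_⟩
      rintro _ ⟨n, hn, rfl⟩ x y hxy
      have h2 : y = n * x := Subtype.ext hxy
      rw [h2]
      exact (Fix_im a.1 n).mp hn ⟨f, hf⟩ hfa x
    · rintro ⟨hf, hfi⟩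
      refine ⟨hf, ?_⟩
      rw [← h1]
      intro n hn
      refine D.fnn.ext fun x => (D.fnn.v_lt n _ x).trans ?_
      exact hfi n.1 ⟨n, hn, rfl⟩ x (n * x) rfl
  · intro P hP
    rw [fp_mem_im]
    exact a.2.2 (mem_clA'.mpr (isAlg_iff.mp hP))

/-- categories are elements of the lattice -/
theorem exists_of_isCategory {C : Subalgebra K (D.G → K)} (hC : D.IsCategory C) : ∃ a : D.fnn.XX, D.im a.1 = C := by
  obtain ⟨⟨H, hHG, hHn, rfl⟩, halg⟩ := hC
  have hn : (H.subgroupOf D.G).Normal := ⟨fun n hn g => hHn g.1 (D.le g.2) n.1 hn⟩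
  have him : D.im (D.fnn.Inv (H.subgroupOf D.G)) = D.inv H := by
    ext f
    rw [mem_im]
    constructor
    · rintro ⟨hf, hfa⟩
      refine ⟨hf, fun n hn x y hxy => ?_⟩
      have h1 := congrFun (congrArg Subtype.val (hfa ⟨n, hHG hn⟩ hn)) x
      have h2 : y = ⟨n, hHG hn⟩ * x := Subtype.ext hxy
      rw [h2]
      refine Eq.trans ?_ h1
      exact (D.fnn.v_lt ⟨n, hHG hn⟩ ⟨f, hf⟩ x).symm
    · rintro ⟨hf, hfi⟩
      refine ⟨hf, fun n hn => D.fnn.ext fun x => (D.fnn.v_lt n _ x).trans ?_⟩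
      exact hfi n.1 hn x (n * x) rfl
  refine ⟨⟨D.fnn.Inv (H.subgroupOf D.G), ⟨Fn.Inv_cat _, fun γ f hf n hn => ?_⟩, ?_⟩, him⟩
  · refine D.fnn.ext fun x => (D.fnn.v_lt n _ x).trans ?_
    change (D.fnn.cj γ f : D.G → K) (n * x) = (D.fnn.cj γ f : D.G → K) x
    rw [D.v_cj, D.v_cj]
    have h1 : D.tc γ (n * x) = ⟨γ.1 * n.1 * γ.1⁻¹, D.normal γ.1 γ.2 n.1 n.2⟩ * D.tc γ x := Subtype.ext (by
      change γ.1 * (n.1 * x.1) * γ.1⁻¹ = γ.1 * n.1 * γ.1⁻¹ * (γ.1 * x.1 * γ.1⁻¹)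
      group)
    rw [h1]
    have h2 := hf ⟨γ.1 * n.1 * γ.1⁻¹, D.normal γ.1 γ.2 n.1 n.2⟩ (hHn γ.1 γ.2 n.1 hn)
    have h3 := congrFun (congrArg Subtype.val h2) (D.tc γ x)
    rw [← h3]
    exact (D.fnn.v_lt _ f (D.tc γ x)).symm
  · rintro ⟨_, P, rfl⟩ hP
    have h1 := halg P
    rw [← him, fp_mem_im] at h1
    exact h1 (isAlg_iff.mpr (mem_clA'.mp hP))

theorem per_im (a : D.fnn.XX) : D.per (D.im a.1) = Fn.Pe D.ev a := by
  ext z
  constructor
  · rintro ⟨P, hP, rfl⟩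
    exact ⟨_, fp_mem_im.mp hP, D.ev_apply P⟩
  · rintro ⟨⟨_, P, rfl⟩, hP, rfl⟩
    exact ⟨P, fp_mem_im.mpr hP, (D.ev_apply P).symm⟩

theorem bot_val : (⊥ : D.fnn.XX).1 = ⊥ := by
  apply le_antisymm
  · intro f hf
    have h1 := Fn.bot_coe (S := D.fnn) hf
    rw [mem_clK, Algebra.adjoin_empty] at h1
    have h2 : IsIntegral K f := by
      have h3 : IsAlgebraic K f := by
        have h4 : f ∈ (MM K D.F).closure ((⊥ : Subalgebra K D.F) : Set D.F) := mem_clA'.mpr h1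
        obtain ⟨p, hp0, hp⟩ := h1
        obtain ⟨e, he⟩ : ∃ e : (⊥ : Subalgebra K D.F) ≃ₐ[K] K, True := ⟨Algebra.botEquiv K D.F, trivial⟩
        refine ⟨p.map (e : (⊥ : Subalgebra K D.F) →+* K), (Polynomial.map_ne_zero_iff e.injective).mpr hp0, ?_⟩
        rw [Polynomial.aeval_def, Polynomial.eval₂_map]
        have h5 : (algebraMap K D.F).comp (e : (⊥ : Subalgebra K D.F) →+* K) = algebraMap (⊥ : Subalgebra K D.F) D.F := by
          refine RingHom.ext fun y => ?_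
          obtain ⟨c, rfl⟩ := e.symm.surjective y
          change algebraMap K D.F (e (e.symm c)) = ((e.symm c : (⊥ : Subalgebra K D.F)) : D.F)
          rw [AlgEquiv.apply_symm_apply]
          have h6 : e.symm c = algebraMap K (⊥ : Subalgebra K D.F) c := by
            have := e.symm.commutes c
            exact this
          rw [h6]
          rfl
        rw [h5]
        exact hp
      exact h3.isIntegral
    have h3 := IsAlgClosed.algebraMap_bijective_of_isIntegral (k := K) (K := integralClosure K D.F)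
    obtain ⟨c, hc⟩ := h3.2 ⟨f, h2⟩
    exact Algebra.mem_bot.mpr ⟨c, congrArg Subtype.val hc⟩
  · exact bot_le

theorem im_bot' : D.im (⊥ : D.fnn.XX).1 = ⊥ := by
  rw [bot_val, im_bot]

theorem td_cat {a : D.fnn.XX} {n : ℕ} : TD K (D.im a.1 : Set (D.G → K)) n ↔ Fn.fn a ∧ Fn.wt a = n := by
  rw [td_im]
  constructor
  · intro h
    refine ⟨?_, ?_⟩
    · unfold Fn.fn
      rw [h]
      exact ENat.natCast_ne_top n
    · unfold Fn.wt
      rw [h]
      rfl
  · rintro ⟨h1, rfl⟩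
    exact (Fn.coe_wt h1).symm

variable (halg : ∀ c : K, IsAlgebraic ℚ (algebraMap K ℂ c))

include halg in
theorem td_per {a : D.fnn.XX} (ha : Fn.fn a) {n : ℕ} : TD ℚ (D.per (D.im a.1)) n ↔ Fn.rk D.ev a = n := by
  rw [per_im, td_iff]
  constructor
  · intro h
    unfold Fn.rk
    rw [h]
    rfl
  · rintro rfl
    exact (Fn.coe_rk D.ev halg ha).symm

include halg in
theorem td_rel {B Q : D.fnn.XX} (hQ : Fn.fn Q) :
    (TD (IntermediateField.adjoin ℚ (D.per (D.im B.1))) (D.per (D.im Q.1)) (Fn.wt Q - Fn.wt (Q ⊓ B))) ↔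
      ∃ v : Fin (Fn.wt Q - Fn.wt (Q ⊓ B)) → ℂ, (∀ k, v k ∈ Fn.Pe D.ev Q) ∧
        AlgebraicIndependent (IntermediateField.adjoin ℚ (Fn.Pe D.ev B)) v := by
  rw [per_im, per_im]
  constructor
  · exact fun h => h.1
  · exact fun h => ⟨h, fun m hm => by
      obtain ⟨v, h1, h2⟩ := hm
      exact Fn.le_of_indep D.ev halg hQ v h1 h2⟩

end Periods

end Pool.Agent.Q280.TG.PD
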