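import Pool.Agent.Q280.TG.VB

/-!
# The categories generated by finite sums
-/

set_option autoImplicit false
set_option linter.unusedSectionVars false

open MvPolynomial Module Submodule Q241.SX

namespace Pool.Agent.Q280.TG.PD

open Pool.Agent.Q280.TG
open Pool.Agent.Q280.MD (MO)

namespace Periods

variable {K : Type} [Field K] [Algebra K ℂ] (D : Periods K)

theorem U_st (s : Finset D.I) (d : ℕ) : D.fnn.IsSt (D.U₁ s d) :=
  ⟨U_fd s d, fun g => op_U (D.lin_tl g) (D.lin_tl g).exists_op.choose_spec s d,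
    fun g => op_U (D.lin_tr g) (D.lin_tr g).exists_op.choose_spec s d,
    op_U D.lin_ti D.lin_ti.exists_op.choose_spec s d,
    fun γ => op_U (D.lin_tc γ) (D.lin_tc γ).exists_op.choose_spec s d⟩

/-- the entries of finitely many matrices -/
def ent (s : Finset D.I) : Set D.F := {f | ∃ v : Var D.N, v.1 ∈ s ∧ D.cf v = f}

variable {D}

theorem adjoin_U (s : Finset D.I) : Algebra.adjoin K (D.U₁ s 1 : Set D.F) = Algebra.adjoin K (D.ent s) := by
  apply le_antisymm
  · refine Algebra.adjoin_le ?_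
    have h1 : D.U₁ s 1 ≤ Subalgebra.toSubmodule (Algebra.adjoin K (D.ent s)) := by
      unfold U₁
      rw [pow_one]
      refine sup_le ?_ (Finset.sup_le fun i hi => ?_)
      · intro x hx
        obtain ⟨c, rfl⟩ := Submodule.mem_one.mp hx
        exact Subalgebra.algebraMap_mem _ c
      · refine span_le.mpr ?_
        rintro _ ⟨w, rfl⟩
        exact Algebra.subset_adjoin ⟨⟨i, w⟩, hi, rfl⟩
    exact h1
  · refine Algebra.adjoin_mono ?_
    rintro _ ⟨⟨i, w⟩, hi, rfl⟩
    unfold U₁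
    rw [pow_one]
    exact (le_sup_right : _ ≤ 1 ⊔ s.sup D.V₁) (Finset.le_sup (f := D.V₁) hi (subset_span ⟨w, rfl⟩))

theorem U_sub (s : Finset D.I) (d : ℕ) : (D.U₁ s d : Set D.F) ⊆ Algebra.adjoin K (D.ent s) := by
  have h1 : D.U₁ s 1 ≤ Subalgebra.toSubmodule (Algebra.adjoin K (D.ent s)) := by
    rw [← adjoin_U]
    exact Algebra.subset_adjoin
  have h2 : D.U₁ s d ≤ Subalgebra.toSubmodule (Algebra.adjoin K (D.ent s)) := by
    have h3 : D.U₁ s d = (D.U₁ s 1) ^ d := by
      unfold U₁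
      rw [pow_one]
    rw [h3]
    induction d with
    | zero =>
      rw [pow_zero]
      intro x hx
      obtain ⟨c, rfl⟩ := Submodule.mem_one.mp hx
      exact Subalgebra.algebraMap_mem _ c
    | succ d ih =>
      rw [pow_succ]
      refine Submodule.mul_le.mpr fun a ha b hb => ?_
      have h4 : a ∈ Algebra.adjoin K (D.ent s) := ih (by unfold U₁; rw [pow_one]) ha
      exact (Algebra.adjoin K (D.ent s)).mul_mem h4 (h1 hb)
  exact h2

theorem exists_ent {J : Set D.F} (hJ : J.Finite) : ∃ s : Finset D.I, J ⊆ Algebra.adjoin K (D.ent s) := by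
  classical
  induction J, hJ using Set.Finite.induction_on with
  | empty => exact ⟨∅, Set.empty_subset _⟩
  | @insert y J _ _ ih =>
    obtain ⟨s, hs⟩ := ih
    obtain ⟨t, d, ht⟩ := exists_U y
    have hm : ∀ {a b : Finset D.I}, a ⊆ b → Algebra.adjoin K (D.ent a) ≤ Algebra.adjoin K (D.ent b) := fun h =>
      Algebra.adjoin_mono fun f ⟨v, h1, h2⟩ => ⟨v, h h1, h2⟩
    refine ⟨s ∪ t, Set.insert_subset_iff.mpr ⟨?_, ?_⟩⟩
    · exact hm Finset.subset_union_right (U_sub t d ht)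
    · exact hs.trans (hm Finset.subset_union_left)

theorem ev_ent (s : Finset D.I) : D.ev '' (D.ent s) = {z | ∃ v : Var D.N, v.1 ∈ s ∧ co D.β v = z} := by
  ext z
  constructor
  · rintro ⟨_, ⟨v, hv, rfl⟩, rfl⟩
    refine ⟨v, hv, ?_⟩
    have h1 := D.ev_apply (X v)
    rw [aeval_X] at h1
    exact h1.symm
  · rintro ⟨v, hv, rfl⟩
    refine ⟨D.cf v, ⟨v, hv, rfl⟩, ?_⟩
    have h1 := D.ev_apply (X v)
    rw [aeval_X] at h1
    exact h1

theorem td_set (S : Set D.F) (n : ℕ) : TD K (Subtype.val '' S : Set (D.G → K)) n ↔ (MM K D.F).eRk S = n := by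
  rw [← td_iff]
  have h1 : ∀ m : ℕ, (∃ v : Fin m → (D.G → K), (∀ i, v i ∈ (Subtype.val '' S : Set (D.G → K))) ∧ AlgebraicIndependent K v) ↔
      ∃ v : Fin m → D.F, (∀ i, v i ∈ S) ∧ AlgebraicIndependent K v := by
    intro m
    constructor
    · rintro ⟨v, h2, h3⟩
      choose w h4 h5 using h2
      refine ⟨w, h4, ?_⟩
      have h6 : (fun i => ((w i : D.F) : D.G → K)) = v := funext h5
      rw [← h6] at h3
      exact (D.F.val.algebraicIndependent_iff Subtype.val_injective).mp h3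
    · rintro ⟨v, h2, h3⟩
      refine ⟨fun i => (v i : D.G → K), fun i => ⟨v i, h2 i, rfl⟩, ?_⟩
      exact (D.F.val.algebraicIndependent_iff Subtype.val_injective).mpr h3
  unfold TD
  simp only [h1]

theorem val_ent (s : Finset D.I) : (Subtype.val '' D.ent s : Set (D.G → K)) = {f | ∃ v : Var D.N, v.1 ∈ s ∧ D.fp (X v) = f} := by
  ext f
  constructor
  · rintro ⟨_, ⟨v, hv, rfl⟩, rfl⟩
    exact ⟨v, hv, rfl⟩
  · rintro ⟨v, hv, rfl⟩
    exact ⟨D.cf v, ⟨v, hv, rfl⟩, rfl⟩

variable [IsAlgClosed K]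

variable (D) in
/-- the category generated by finitely many of the motives -/
noncomputable def cat (s : Finset D.I) : D.fnn.XX := Fn.mk' (Fn.IsEC.of_st (D.U_st s 1))

theorem coe_cat (s : Finset D.I) : ((D.cat s).1 : Set D.F) = (MM K D.F).closure (D.ent s) := by
  unfold cat
  rw [Fn.coe_mk', adjoin_U]
  exact subset_antisymm (clK_le (adjoin_sub_cl _)) (clK_mono Algebra.subset_adjoin)

theorem fn_cat (s : Finset D.I) : Fn.fn (D.cat s) := Fn.fn_mk' (D.U_st s 1)

theorem wt_cat (s : Finset D.I) {n : ℕ} :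
    TD K {f : D.G → K | ∃ v : Var D.N, v.1 ∈ s ∧ D.fp (X v) = f} n ↔ Fn.wt (D.cat s) = n := by
  rw [← val_ent, td_set]
  have h1 : (MM K D.F).eRk ((D.cat s).1 : Set D.F) = (MM K D.F).eRk (D.ent s) := by
    rw [coe_cat, (MM K D.F).eRk_closure_eq]
  rw [← h1]
  constructor
  · intro h
    unfold Fn.wt
    rw [h]
    rfl
  · rintro rfl
    exact (Fn.coe_wt (fn_cat s)).symm

/-- every category of finite dimension is contained in one generated by finitely many of the motives -/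
theorem le_cat {Q : D.fnn.XX} (hQ : Fn.fn Q) : ∃ s, Q ≤ D.cat s := by
  obtain ⟨J, hJ, hJQ, hQJ⟩ := Fn.exists_fin_basis hQ
  obtain ⟨s, hs⟩ := exists_ent hJ
  refine ⟨s, ?_⟩
  intro x hx
  rw [← SetLike.mem_coe, coe_cat]
  refine clK_le ?_ (hQJ hx)
  exact hs.trans (adjoin_sub_cl _)

variable (halg : ∀ c : K, IsAlgebraic ℚ (algebraMap K ℂ c))

include halg in
theorem rk_cat (s : Finset D.I) {n : ℕ} :
    TD ℚ {z : ℂ | ∃ v : Var D.N, v.1 ∈ s ∧ co D.β v = z} n ↔ Fn.rk D.ev (D.cat s) = n := by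
  rw [← ev_ent, td_iff]
  have h1 : M.eRk (Fn.Pe D.ev (D.cat s)) = M.eRk (D.ev '' D.ent s) := by
    apply le_antisymm
    · have h2 := Fn.Pe_mk' D.ev halg (Fn.IsEC.of_st (D.U_st s 1)) (adjoin_U s)
      refine (M.eRk_mono h2).trans ?_
      rw [M.eRk_closure_eq]
    · refine M.eRk_mono (Set.image_mono ?_)
      rw [coe_cat]
      exact sub_clK _
  have h2 : (MM ℚ ℂ).eRk (D.ev '' D.ent s) = M.eRk (Fn.Pe D.ev (D.cat s)) := h1.symm
  rw [h2]
  constructor
  · intro h
    unfold Fn.rk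
    rw [h]
    rfl
  · rintro rfl
    exact (Fn.coe_rk D.ev halg (fn_cat s)).symm

end Periods

end Pool.Agent.Q280.TG.PD
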