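import Mathlib

/-!
# Families of period matrices with their motivic Galois groups: definitions for the statements
-/

set_option autoImplicit false

open MvPolynomial

namespace Pool.Agent.Q280.TG.W

/-- Families of invertible matrices. -/
def GLs {I : Type} (N : I → ℕ) (F : Type) [Field F] : Type := ∀ i, GL (Fin (N i)) F

instance {I : Type} (N : I → ℕ) (F : Type) [Field F] : Group (GLs N F) := Pi.group

/-- The indices of the entries of the matrices of a family and of their inverses: `⟨i, false, a, b⟩` is the
entry `(a, b)` of the matrix number `i`, and `⟨i, true, a, b⟩` is the entry `(a, b)` of its inverse. -/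
def Var {I : Type} (N : I → ℕ) : Type := Σ i, Bool × Fin (N i) × Fin (N i)

/-- The entries of a family of invertible matrices and of their inverses. -/
def co {I : Type} {N : I → ℕ} {F : Type} [Field F] (x : GLs N F) : Var N → F
  | ⟨i, false, a, b⟩ => (x i).val a b
  | ⟨i, true, a, b⟩ => (x i)⁻¹.val a b

/-- The polynomial `P` vanishes on `G g₀`. -/
def Zero {I : Type} {N : I → ℕ} {K : Type} [Field K] (G : Subgroup (GLs N K)) (g₀ : GLs N K)
    (P : MvPolynomial (Var N) K) : Prop := ∀ x ∈ G, eval (co (x * g₀)) P = 0

/-- Largest number of elements of `S` which are algebraically independent over `k`: it is finite and equal to `n`. -/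
def TD (k : Type) {E : Type} [CommRing k] [CommRing E] [Algebra k E] (S : Set E) (n : ℕ) : Prop :=
  IsGreatest {m : ℕ | ∃ v : Fin m → E, (∀ i, v i ∈ S) ∧ AlgebraicIndependent k v} n

/-- A family of motives `M i` over `K = ℚ̄` in terms of matrices: the motivic Galois group `Γ` of the family, its
identity component `G`, the component `G g₀` of the torsor of periods which contains the period matrices `β i`. -/
structure Periods (K : Type) [Field K] [Algebra K ℂ] where
  /-- the indices of the motives -/
  I : Type
  /-- the ranks of the motives -/
  N : I → ℕ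
  /-- the `K`-points of the motivic Galois group of the family -/
  Γ : Subgroup (GLs N K)
  /-- the `K`-points of its identity component -/
  G : Subgroup (GLs N K)
  /-- a `K`-point of the component of the torsor of periods which contains `β` -/
  g₀ : GLs N K
  /-- the period matrices -/
  β : GLs N ℂ
  le : G ≤ Γ
  normal : ∀ γ ∈ Γ, ∀ g ∈ G, γ * g * γ⁻¹ ∈ G
  /-- the component `G g₀` is Zariski closed -/
  closed : ∀ z, (∀ P, Zero G g₀ P → eval (co z) P = 0) → z * g₀⁻¹ ∈ G
  /-- the component `G g₀` is irreducible -/
  irred : ∀ P Q, Zero G g₀ (P * Q) → Zero G g₀ P ∨ Zero G g₀ Q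
  /-- `β` is a complex point of the component `G g₀` -/
  mem : ∀ P, Zero G g₀ P → aeval (co β) P = 0

namespace Periods

variable {K : Type} [Field K] [Algebra K ℂ] (D : Periods K)

/-- Functions on `G g₀`, written as functions on `G`. -/
def Fun : Type := D.G → K

noncomputable instance : CommRing D.Fun := Pi.commRing
noncomputable instance : Algebra K D.Fun := Pi.algebra D.G fun _ => K

/-- The formal period given by a polynomial: a function on `G g₀`, written as a function on `G`. -/
noncomputable def fp (P : MvPolynomial (Var D.N) K) : D.Fun := fun x => eval (co (x.1 * D.g₀)) P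

/-- The function `f` is invariant under the subgroup `H`. -/
def Invariant (H : Subgroup (GLs D.N K)) (f : D.Fun) : Prop := ∀ n ∈ H, ∀ x y : D.G, y.1 = n * x.1 → f y = f x

/-- A category: the set `C` of the formal periods which are invariant under a subgroup `H` of `G` which is normalized
by `Γ`, if every formal period which is algebraic over `C` lies in `C` (that is, if `H` is connected). It
corresponds to a Tannakian subcategory of the category generated by the family. -/
def IsCategory (C : Set D.Fun) : Prop :=
  (∃ H ≤ D.G, (∀ γ ∈ D.Γ, ∀ n ∈ H, γ * n * γ⁻¹ ∈ H) ∧ ∀ f, f ∈ C ↔ (∃ P, D.fp P = f) ∧ D.Invariant H f) ∧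
    ∀ P, IsAlgebraic (Algebra.adjoin K C) (D.fp P) → D.fp P ∈ C

/-- The periods of a category. -/
def per (C : Set D.Fun) : Set ℂ := {z | ∃ P, D.fp P ∈ C ∧ aeval (co D.β) P = z}

end Periods

end Pool.Agent.Q280.TG.W
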