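import Pool.Agent.Q280.TG.W
import Pool.Agent.Q280.TG.VC

/-!
# Translation of the definitions for the statements
-/

set_option autoImplicit false

open MvPolynomial

namespace Pool.Agent.Q280.TG.W

theorem co_eq {I : Type} {N : I → ℕ} {F : Type} [Field F] (x : GLs N F) :
    (co x : Var N → F) = (PD.co (N := N) (F := F) x : PD.Var N → F) := by
  funext v
  obtain ⟨i, b, p, q⟩ := v
  cases b <;> rfl

theorem eval_eq {I : Type} {N : I → ℕ} {F : Type} [Field F] (x : GLs N F) (P : MvPolynomial (Var N) F) :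
    eval (co x) P = @eval F (PD.Var N) _ (PD.co (N := N) (F := F) x) P :=
  congrArg (fun y => @eval F (Var N) _ y P) (co_eq x)

theorem aeval_eq {I : Type} {N : I → ℕ} {K F : Type} [Field K] [Field F] [Algebra K F] (x : GLs N F)
    (P : MvPolynomial (Var N) K) : aeval (co x) P = @aeval K F (PD.Var N) _ _ _ (PD.co (N := N) (F := F) x) P :=
  congrArg (fun y => @aeval K F (Var N) _ _ _ y P) (co_eq x)

theorem zero_iff {I : Type} {N : I → ℕ} {K : Type} [Field K] (G : Subgroup (GLs N K)) (g₀ : GLs N K)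
    (P : MvPolynomial (Var N) K) :
    Zero G g₀ P ↔ ∀ x ∈ G, @eval K (PD.Var N) _ (PD.co (N := N) (F := K) (x * g₀ : GLs N K)) P = 0 :=
  forall_congr' fun x => forall_congr' fun _ => by
    rw [← eval_eq]

namespace Periods

variable {K : Type} [Field K] [Algebra K ℂ] (D : Periods K)

/-- the translation -/
def toPD : PD.Periods K where
  I := D.I
  N := D.N
  Γ := D.Γ
  G := D.G
  g₀ := D.g₀
  β := D.β
  le := D.le
  normal := D.normal
  closed := fun z hz => D.closed z fun P hP => (eval_eq (N := D.N) z P).trans (hz P ((zero_iff _ _ _).mp hP))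
  irred := fun P Q hPQ => by
    have h2 := D.irred P Q ((zero_iff _ _ _).mpr fun x hx =>
      (map_mul (@eval K (PD.Var D.N) _ (PD.co (N := D.N) (F := K) (x * D.g₀ : GLs D.N K))) P Q).trans (hPQ x hx))
    exact h2.imp (zero_iff _ _ _).mp (zero_iff _ _ _).mp
  mem := fun P hP => (aeval_eq (N := D.N) D.β P).symm.trans (D.mem P ((zero_iff _ _ _).mpr hP))

theorem fp_eq (P : MvPolynomial (Var D.N) K) : D.fp P = D.toPD.fp P := funext fun x =>
  eval_eq (N := D.N) (x.1 * D.g₀ : GLs D.N K) P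

/-- the same subalgebra -/
def sub (A : Subalgebra K (D.toPD.G → K)) : Subalgebra K D.Fun := A

/-- the set of a subalgebra -/
def st (A : Subalgebra K (D.toPD.G → K)) : Set D.Fun := D.sub A

theorem adjoin_st (A : Subalgebra K (D.toPD.G → K)) : Algebra.adjoin K (D.st A) = D.sub A := Algebra.adjoin_eq (D.sub A)

theorem mem_st {A : Subalgebra K (D.toPD.G → K)} {P : MvPolynomial (Var D.N) K} : D.fp P ∈ D.st A ↔ D.toPD.fp P ∈ A :=
  iff_of_eq (congrArg (fun f : D.Fun => f ∈ D.st A) (D.fp_eq P))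

theorem alg_iff {A : Subalgebra K (D.toPD.G → K)} {P : MvPolynomial (Var D.N) K} :
    IsAlgebraic (Algebra.adjoin K (D.st A)) (D.fp P) ↔ IsAlgebraic A (D.toPD.fp P) := by
  rw [adjoin_st]
  exact iff_of_eq (congrArg (fun f : D.Fun => IsAlgebraic (D.sub A) f) (D.fp_eq P))

theorem inv_iff (H : Subgroup (GLs D.N K)) (f : D.Fun) :
    ((∃ P, D.fp P = f) ∧ D.Invariant H f) ↔ f ∈ D.st (D.toPD.inv H) := by
  constructor
  · rintro ⟨⟨P, hP⟩, h⟩
    exact ⟨⟨P, (D.fp_eq P).symm.trans hP⟩, h⟩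
  · rintro ⟨⟨P, hP⟩, h⟩
    exact ⟨⟨P, (D.fp_eq P).trans hP⟩, h⟩

theorem isCategory_st {A : Subalgebra K (D.toPD.G → K)} : D.IsCategory (D.st A) ↔ D.toPD.IsCategory A := by
  constructor
  · rintro ⟨⟨H, h1, h2, h3⟩, h4⟩
    have h5 : A = D.toPD.inv H := SetLike.coe_injective (Set.ext fun f => (h3 f).trans (D.inv_iff H f))
    exact ⟨⟨H, h1, h2, h5⟩, fun P hP => D.mem_st.mp (h4 P (D.alg_iff.mpr hP))⟩
  · rintro ⟨⟨H, h1, h2, h3⟩, h4⟩
    refine ⟨⟨H, h1, h2, fun f => ?_⟩, fun P hP => D.mem_st.mpr (h4 P (D.alg_iff.mp hP))⟩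
    exact (iff_of_eq (congrArg (fun A => f ∈ D.st A) h3)).trans (D.inv_iff H f).symm

theorem exists_st {C : Set D.Fun} (hC : D.IsCategory C) : ∃ A : Subalgebra K (D.toPD.G → K), D.st A = C := by
  obtain ⟨⟨H, h1, h2, h3⟩, h4⟩ := hC
  exact ⟨D.toPD.inv H, (Set.ext fun f => (h3 f).trans (D.inv_iff H f)).symm⟩

theorem per_eq (A : Subalgebra K (D.toPD.G → K)) : D.per (D.st A) = D.toPD.per A := by
  ext z
  constructor
  · rintro ⟨P, h1, h2⟩
    exact ⟨P, D.mem_st.mp h1, (aeval_eq (N := D.N) D.β P).symm.trans h2⟩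
  · rintro ⟨P, h1, h2⟩
    exact ⟨P, D.mem_st.mpr h1, (aeval_eq (N := D.N) D.β P).trans h2⟩

theorem td_eq (S : Set D.Fun) (n : ℕ) : TD K S n ↔ PD.TD K (S : Set (D.toPD.G → K)) n := Iff.rfl

theorem td_eq' {k E : Type} [CommRing k] [CommRing E] [Algebra k E] (S : Set E) (n : ℕ) : TD k S n ↔ PD.TD k S n := Iff.rfl

end Periods

end Pool.Agent.Q280.TG.W
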