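import Pool.Agent.Q280.TG.WB

/-!
# Categories and the lattice
-/

set_option autoImplicit false
set_option linter.unusedSectionVars false

open MvPolynomial

namespace Pool.Agent.Q280.TG.W.Periods

open Pool.Agent.Q280.TG

variable {K : Type} [Field K] [Algebra K ℂ] (D : Periods K) [IsAlgClosed K]

/-- the lattice of categories -/
abbrev Lat : Type := D.toPD.fnn.XX

/-- the evaluation -/
noncomputable abbrev evp := D.toPD.ev

variable {D}

/-- the category given by an element of the lattice -/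
def S (a : D.Lat) : Set D.Fun := D.st (D.toPD.im a.1)

theorem isCategory_S (a : D.Lat) : D.IsCategory (S a) := D.isCategory_st.mpr (PD.Periods.isCategory_im a)

theorem exists_S {C : Set D.Fun} (hC : D.IsCategory C) : ∃ a : D.Lat, S a = C := by
  obtain ⟨A, rfl⟩ := D.exists_st hC
  obtain ⟨a, ha⟩ := PD.Periods.exists_of_isCategory (D.isCategory_st.mp hC)
  exact ⟨a, congrArg D.st ha⟩

theorem S_le {a b : D.Lat} : S a ⊆ S b ↔ a ≤ b := (PD.Periods.im_le (D := D.toPD) (A := a.1) (B := b.1))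

theorem S_inj {a b : D.Lat} (h : S a = S b) : a = b := le_antisymm (S_le.mp h.subset) (S_le.mp h.superset)

theorem S_lt {a b : D.Lat} : S a ⊂ S b ↔ a < b := by
  rw [ssubset_iff_subset_not_subset, lt_iff_le_not_ge, S_le, S_le]

theorem S_inf (a b : D.Lat) : S a ∩ S b = S (a ⊓ b) := by
  have h1 : D.toPD.im (a ⊓ b).1 = D.toPD.im a.1 ⊓ D.toPD.im b.1 := by
    rw [Fn.inf_val, PD.Periods.im_inf]
  exact (congrArg D.st h1).symm

theorem td_S {a : D.Lat} {n : ℕ} : TD K (S a) n ↔ Fn.fn a ∧ Fn.wt a = n := PD.Periods.td_cat (D := D.toPD)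

theorem per_S (a : D.Lat) : D.per (S a) = Fn.Pe D.evp a := (D.per_eq _).trans (PD.Periods.per_im a)

theorem S_bot {B : D.Lat} : (∀ f ∈ S B, ∃ c, f = D.fp (C c)) ↔ B = ⊥ := by
  have h0 : ∀ c : K, D.fp (C c) = fun _ => c := fun c => funext fun x => eval_C c
  constructor
  · intro h
    refine le_antisymm ?_ bot_le
    refine PD.Periods.im_le.mp ?_
    rw [PD.Periods.im_bot']
    intro f hf
    obtain ⟨c, hc⟩ := h f hf
    rw [h0] at hc
    exact Algebra.mem_bot.mpr ⟨c, hc.symm⟩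
  · rintro rfl f hf
    have h1 : f ∈ D.toPD.im (⊥ : D.Lat).1 := hf
    rw [PD.Periods.im_bot'] at h1
    obtain ⟨c, hc⟩ := (Algebra.mem_bot (R := K) (A := D.toPD.G → K)).mp h1
    refine ⟨c, ?_⟩
    rw [h0]
    exact hc.symm

/-- the category generated by finitely many of the motives -/
noncomputable def ca (s : Finset D.I) : D.Lat := D.toPD.cat s

theorem fn_ca (s : Finset D.I) : Fn.fn (ca (D := D) s) := PD.Periods.fn_cat (D := D.toPD) s

theorem le_ca {Q : D.Lat} (hQ : Fn.fn Q) : ∃ s : Finset D.I, Q ≤ ca s := PD.Periods.le_cat (D := D.toPD) hQ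

theorem wt_ca (s : Finset D.I) {n : ℕ} :
    TD K {f : D.Fun | ∃ v : Var D.N, v.1 ∈ s ∧ D.fp (X v) = f} n ↔ Fn.wt (ca (D := D) s) = n := by
  have h1 := PD.Periods.wt_cat (D := D.toPD) s (n := n)
  have h2 : ({f : D.Fun | ∃ v : Var D.N, v.1 ∈ s ∧ D.fp (X v) = f} : Set D.Fun) =
      {f : D.toPD.G → K | ∃ v : PD.Var D.toPD.N, v.1 ∈ s ∧ D.toPD.fp (X v) = f} := by
    ext f
    constructor
    · rintro ⟨v, hv, h⟩
      exact ⟨v, hv, (D.fp_eq (X v)).symm.trans h⟩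
    · rintro ⟨v, hv, h⟩
      exact ⟨v, hv, (D.fp_eq (X v)).trans h⟩
  rw [h2]
  exact h1

theorem ext_rk (s : Finset D.I) : {z : ℂ | ∃ v : Var D.N, v.1 ∈ s ∧ co D.β v = z} =
    {z : ℂ | ∃ v : PD.Var D.toPD.N, v.1 ∈ s ∧ PD.co D.toPD.β v = z} := by
  ext z
  constructor
  · rintro ⟨v, hv, h⟩
    exact ⟨v, hv, (congrFun (co_eq D.β) v).symm.trans h⟩
  · rintro ⟨v, hv, h⟩
    exact ⟨v, hv, (congrFun (co_eq D.β) v).trans h⟩

variable (halg : ∀ c : K, IsAlgebraic ℚ (algebraMap K ℂ c))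

include halg

theorem td_per {a : D.Lat} (ha : Fn.fn a) {n : ℕ} : TD ℚ (D.per (S a)) n ↔ Fn.rk D.evp a = n := by
  have h1 := PD.Periods.td_per (D := D.toPD) halg ha (n := n)
  rw [PD.Periods.per_im] at h1
  rw [per_S]
  exact h1

theorem td_rel {B Q : D.Lat} (hQ : Fn.fn Q) :
    (TD (IntermediateField.adjoin ℚ (D.per (S B))) (D.per (S Q)) (Fn.wt Q - Fn.wt (Q ⊓ B))) ↔
      ∃ v : Fin (Fn.wt Q - Fn.wt (Q ⊓ B)) → ℂ, (∀ k, v k ∈ Fn.Pe D.evp Q) ∧
        AlgebraicIndependent (IntermediateField.adjoin ℚ (Fn.Pe D.evp B)) v := by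
  have h1 := PD.Periods.td_rel (D := D.toPD) halg (B := B) hQ
  rw [PD.Periods.per_im, PD.Periods.per_im] at h1
  rw [per_S, per_S]
  exact h1

theorem rk_ca (s : Finset D.I) {n : ℕ} :
    TD ℚ {z : ℂ | ∃ v : Var D.N, v.1 ∈ s ∧ co D.β v = z} n ↔ Fn.rk D.evp (ca (D := D) s) = n := by
  rw [ext_rk]
  exact PD.Periods.rk_cat (D := D.toPD) halg s

end Pool.Agent.Q280.TG.W.Periods
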