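import Pool.Agent.Q280.TG.WC

/-!
# Generation of the relations
-/

set_option autoImplicit false
set_option linter.unusedSectionVars false

open MvPolynomial Q241.SX

namespace Pool.Agent.Q280.TG

namespace Fn

variable {K G E R : Type} [Field K] [Group G] [CommRing R] [Algebra K R] {S : Fn K G E R} [IsAlgClosed K] [IsDomain R]
  [Algebra K ℂ] (ev : R →ₐ[K] ℂ)

/-- the kernel is generated by its part in `B` -/
def Gen (B : S.XX) : Prop := ∀ f, ev f = 0 → f ∈ Ideal.span {y : R | y ∈ B.1 ∧ ev y = 0}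

theorem stab_of_gen {B : S.XX} (h : Gen ev B) : Stab ev B := by
  intro n hn f hf
  have h1 := h f hf
  obtain ⟨θ, hθ⟩ : ∃ θ : R →+* ℂ, ∀ y, θ y = ev (S.lt n y) := ⟨(ev : R →+* ℂ).comp (S.lt n : R →+* R), fun _ => rfl⟩
  have h2 : Ideal.span {y : R | y ∈ B.1 ∧ ev y = 0} ≤ RingHom.ker θ := by
    refine Ideal.span_le.mpr ?_
    rintro y ⟨hy, hy0⟩
    change θ y = 0
    rw [hθ]
    have h3 : S.lt n y = y := hn y hy
    rw [h3, hy0]
  have h3 : θ f = 0 := h2 h1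
  rw [← hθ]
  exact h3

theorem gen_of_stab (hp : S.Pts) {B : S.XX} (h : Stab ev B) : Gen ev B := by
  intro f hf
  have hBc : S.IsCat B.1 := B.2.1.toIsCat
  have hn : (S.Fix (B.1 : Set R)).Normal := hBc.normal
  have hinvB : S.Inv (S.Fix (B.1 : Set R)) = B.1 := Inv_Fix hp hBc B.2.2
  have h1 := descent (S := S) hp (N := S.Fix (B.1 : Set R)) (J := RingHom.ker (ev : R →+* ℂ)) (fun n hn f hf => h n hn f hf)
  have h2 : f ∈ RingHom.ker (ev : R →+* ℂ) := hf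
  rw [h1] at h2
  refine Ideal.span_mono ?_ h2
  rintro y ⟨h3, h4⟩
  rw [hinvB] at h4
  exact ⟨h4, h3⟩

theorem gen_iff_rel (hp : S.Pts) (B : S.XX) : Gen ev B ↔ Rel ev B :=
  ⟨fun h => rel_of_stab ev hp (stab_of_gen ev h), fun h => gen_of_stab ev hp (stab_of_rel ev hp h)⟩

variable (halg : ∀ c : K, IsAlgebraic ℚ (algebraMap K ℂ c)) (hp : S.Pts)

include halg hp

/-- the categories with the largest defect -/
theorem max_iff {a : S.XX} (ha : fn a) : (∀ Q : S.XX, fn Q → df ev Q ≤ df ev a) ↔ Rel ev a := by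
  constructor
  · intro h
    have hm : IsModularLattice S.XX := isModular hp
    refine family ev halg hp fun V hV => ?_
    have h1 := (sys ev halg hp).sm.sm hV ha
    have h2 := h (V ⊔ a) (fn_sup hV ha)
    have h3 : df ev V + df ev a ≤ df ev (V ⊓ a) + df ev (V ⊔ a) := h1
    omega
  · intro h Q hQ
    exact (conc ev halg hp h Q hQ).trans (df_mono ev halg ha inf_le_right)

end Fn

namespace PD.Periods

variable {K : Type} [Field K] [Algebra K ℂ] {D : Periods K}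

theorem mem_cat [IsAlgClosed K] (s : Finset D.I) (P : MvPolynomial (Var D.N) K) : D.fp P ∈ D.im (D.cat s).1 ↔
    IsAlgebraic (Algebra.adjoin K {f : D.G → K | ∃ v : Var D.N, v.1 ∈ s ∧ D.fp (X v) = f}) (D.fp P) := by
  rw [fp_mem_im, ← SetLike.mem_coe, coe_cat, mem_clK, ← isAlg_iff, ← val_ent]
  have h1 : D.im (Algebra.adjoin K (D.ent s)) = Algebra.adjoin K (Subtype.val '' D.ent s : Set (D.G → K)) :=
    AlgHom.map_adjoin D.F.val (D.ent s)
  rw [h1]
  exact Iff.rfl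

theorem fpH_sum {n : ℕ} (Q T : Fin n → MvPolynomial (Var D.N) K) :
    (⟨D.fpH (∑ j, T j * Q j), ∑ j, T j * Q j, rfl⟩ : D.F) = ∑ j, (⟨D.fpH (T j), T j, rfl⟩ : D.F) • ⟨D.fpH (Q j), Q j, rfl⟩ := by
  apply Subtype.ext
  rw [AddSubmonoidClass.coe_finsetSum]
  change D.fpH (∑ j, T j * Q j) = ∑ j, D.fpH (T j) * D.fpH (Q j)
  rw [map_sum]
  exact Finset.sum_congr rfl fun j _ => map_mul _ _ _

theorem cq_iff [IsAlgClosed K] (a : D.fnn.XX) : (∀ P : MvPolynomial (Var D.N) K, aeval (co D.β) P = 0 →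
    ∃ (n : ℕ) (Q T : Fin n → MvPolynomial (Var D.N) K), (∀ j, D.fp (Q j) ∈ D.im a.1 ∧ aeval (co D.β) (Q j) = 0) ∧
      D.fp P = D.fp (∑ j, T j * Q j)) ↔ Fn.Gen D.ev a := by
  constructor
  · rintro h ⟨_, P, rfl⟩ hP
    obtain ⟨n, Q, T, h1, h2⟩ := h P ((D.ev_apply P).symm.trans hP)
    have h3 : (⟨D.fpH P, P, rfl⟩ : D.F) = ⟨D.fpH (∑ j, T j * Q j), ∑ j, T j * Q j, rfl⟩ := Subtype.ext h2
    change (⟨D.fpH P, P, rfl⟩ : D.F) ∈ _
    rw [h3, fpH_sum]
    refine sum_mem fun j _ => Submodule.smul_mem _ _ (Ideal.subset_span ⟨fp_mem_im.mp (h1 j).1, ?_⟩)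
    rw [D.ev_apply]
    exact (h1 j).2
  · intro h P hP
    have h1 := h ⟨D.fpH P, P, rfl⟩ ((D.ev_apply P).trans hP)
    obtain ⟨n, c, g, hg⟩ := Submodule.mem_span_set'.mp h1
    have h2 : ∀ j, ∃ Q : MvPolynomial (Var D.N) K, (⟨D.fpH Q, Q, rfl⟩ : D.F) = g j := fun j => by
      obtain ⟨Q, hQ⟩ := (g j : D.F).2
      exact ⟨Q, Subtype.ext hQ⟩
    have h3 : ∀ j, ∃ T : MvPolynomial (Var D.N) K, (⟨D.fpH T, T, rfl⟩ : D.F) = c j := fun j => by
      obtain ⟨Q, hQ⟩ := (c j : D.F).2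
      exact ⟨Q, Subtype.ext hQ⟩
    choose Q hQ using h2
    choose T hT using h3
    refine ⟨n, Q, T, fun j => ?_, ?_⟩
    · have h4 := (g j).2
      rw [← hQ j] at h4
      exact ⟨fp_mem_im.mpr h4.1, (D.ev_apply (Q j)).symm.trans h4.2⟩
    · have h5 := fpH_sum Q T
      simp only [hQ, hT] at h5
      rw [hg] at h5
      exact (congrArg Subtype.val h5).symm

end PD.Periods

namespace W.Periods

variable {K : Type} [Field K] [Algebra K ℂ] {D : Periods K} [IsAlgClosed K]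

theorem mem_ca (s : Finset D.I) (P : MvPolynomial (Var D.N) K) : D.fp P ∈ S (ca (D := D) s) ↔
    IsAlgebraic (Algebra.adjoin K {f : D.Fun | ∃ v : Var D.N, v.1 ∈ s ∧ D.fp (X v) = f}) (D.fp P) := by
  have h1 := PD.Periods.mem_cat (D := D.toPD) s P
  have h2 : ({f : D.Fun | ∃ v : Var D.N, v.1 ∈ s ∧ D.fp (X v) = f} : Set D.Fun) =
      {f : D.toPD.G → K | ∃ v : PD.Var D.toPD.N, v.1 ∈ s ∧ D.toPD.fp (X v) = f} := by
    ext f
    constructor
    · rintro ⟨v, hv, h⟩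
      exact ⟨v, hv, (D.fp_eq (X v)).symm.trans h⟩
    · rintro ⟨v, hv, h⟩
      exact ⟨v, hv, (D.fp_eq (X v)).trans h⟩
  rw [h2]
  have h3 : D.fp P ∈ S (ca (D := D) s) ↔ D.toPD.fp P ∈ D.toPD.im (D.toPD.cat s).1 := D.mem_st
  refine h3.trans (h1.trans ?_)
  exact iff_of_eq (congrArg (fun f : D.Fun => IsAlgebraic (Algebra.adjoin K
    ({f : D.toPD.G → K | ∃ v : PD.Var D.toPD.N, v.1 ∈ s ∧ D.toPD.fp (X v) = f} : Set D.Fun)) f) (D.fp_eq P).symm)

/-- The relation `P(β) = 0` is a consequence of the relations in `C`. -/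
def Cq (D : Periods K) (C : Set D.Fun) (P : MvPolynomial (Var D.N) K) : Prop :=
  ∃ (n : ℕ) (Q S : Fin n → MvPolynomial (Var D.N) K), (∀ j, D.fp (Q j) ∈ C ∧ aeval (co D.β) (Q j) = 0) ∧
    D.fp P = D.fp (∑ j, S j * Q j)

theorem cq_iff (a : D.Lat) : (∀ P, aeval (co D.β) P = 0 → Cq D (S a) P) ↔ Fn.Gen D.evp a := by
  rw [← PD.Periods.cq_iff]
  refine forall_congr' fun P => imp_congr ?_ ?_
  · rw [aeval_eq]
    exact Iff.rfl
  · refine exists_congr fun n => exists_congr fun Q => exists_congr fun T => and_congr (forall_congr' fun j => and_congr ?_ ?_) ?_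
    · exact D.mem_st
    · rw [aeval_eq]
      exact Iff.rfl
    · rw [fp_eq, fp_eq]
      exact Iff.rfl

end W.Periods

end Pool.Agent.Q280.TG
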