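import Pool.Agent.Q280.TG.WD

/-!
# The action of the group on the period matrices
-/

set_option autoImplicit false
set_option linter.unusedSectionVars false

open MvPolynomial Q241.SX

namespace Pool.Agent.Q280.TG

namespace PD.Periods

variable {K : Type} [Field K] [Algebra K ℂ] {D : Periods K}

/-- the matrices `n β` -/
noncomputable def act (D : Periods K) (n : ∀ i, GL (Fin (D.N i)) K) : ∀ i, GL (Fin (D.N i)) ℂ := fun i =>
  Matrix.GeneralLinearGroup.map (algebraMap K ℂ) (n i) * D.β i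

theorem ev_cf (v : Var D.N) : D.ev (D.cf v) = co D.β v := by
  have h1 := D.ev_apply (X v)
  rw [aeval_X] at h1
  exact h1

theorem co_act (n : D.G) (v : Var D.N) : co (D.act n.1) v = D.ev (D.fnn.lt n (D.cf v)) := by
  obtain ⟨i, b, p, q⟩ := v
  cases b
  · have h1 : D.fnn.lt n (D.cf ⟨i, false, p, q⟩) = ∑ r, (n.1 i).val p r • D.cf ⟨i, false, r, q⟩ := by
      refine Subtype.ext (funext fun x => ?_)
      rw [AddSubmonoidClass.coe_finsetSum, Finset.sum_apply]
      refine (D.fnn.v_lt n (D.cf ⟨i, false, p, q⟩) x).trans ?_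
      change (D.cf ⟨i, false, p, q⟩ : D.G → K) (n * x) = _
      rw [cf_apply]
      change ((n.1 i * x.1 i) * D.g₀ i : GL (Fin (D.N i)) K).val p q = _
      rw [mul_assoc, Units.val_mul, Matrix.mul_apply]
      exact Finset.sum_congr rfl fun r _ => by
        change _ = (n.1 i).val p r • (D.cf ⟨i, false, r, q⟩ : D.G → K) x
        rw [cf_apply]
        rfl
    rw [h1, map_sum]
    have h2 : co (D.act n.1) ⟨i, false, p, q⟩ = (Matrix.GeneralLinearGroup.map (algebraMap K ℂ) (n.1 i) * D.β i).val p q := rfl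
    rw [h2, Units.val_mul, Matrix.mul_apply]
    refine Finset.sum_congr rfl fun r _ => ?_
    rw [map_smul, ev_cf, Algebra.smul_def]
    rfl
  · have h1 : D.fnn.lt n (D.cf ⟨i, true, p, q⟩) = ∑ r, ((n.1 i)⁻¹).val r q • D.cf ⟨i, true, p, r⟩ := by
      refine Subtype.ext (funext fun x => ?_)
      rw [AddSubmonoidClass.coe_finsetSum, Finset.sum_apply]
      refine (D.fnn.v_lt n (D.cf ⟨i, true, p, q⟩) x).trans ?_
      change (D.cf ⟨i, true, p, q⟩ : D.G → K) (n * x) = _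
      rw [cf_apply]
      change (((n.1 i * x.1 i) * D.g₀ i)⁻¹ : GL (Fin (D.N i)) K).val p q = _
      rw [mul_assoc, mul_inv_rev, Units.val_mul, Matrix.mul_apply]
      exact Finset.sum_congr rfl fun r _ => by
        change _ = ((n.1 i)⁻¹).val r q • (D.cf ⟨i, true, p, r⟩ : D.G → K) x
        rw [cf_apply, smul_eq_mul, mul_comm]
        rfl
    rw [h1, map_sum]
    have h2 : co (D.act n.1) ⟨i, true, p, q⟩ =
        ((Matrix.GeneralLinearGroup.map (algebraMap K ℂ) (n.1 i) * D.β i)⁻¹).val p q := rfl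
    rw [h2, mul_inv_rev, Units.val_mul, Matrix.mul_apply]
    refine Finset.sum_congr rfl fun r _ => ?_
    rw [map_smul, ev_cf, Algebra.smul_def, mul_comm, ← map_inv]
    rfl

theorem ev_lt (n : D.G) (P : MvPolynomial (Var D.N) K) :
    D.ev (D.fnn.lt n ⟨D.fpH P, P, rfl⟩) = aeval (co (D.act n.1)) P := by
  obtain ⟨φ, hφ⟩ : ∃ φ : MvPolynomial (Var D.N) K →ₐ[K] ℂ, ∀ P, φ P = D.ev (D.fnn.lt n ⟨D.fpH P, P, rfl⟩) :=
    ⟨(D.ev.comp (D.fnn.lt n)).comp D.fpH.rangeRestrict, fun P => rfl⟩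
  rw [← hφ]
  congr 1
  refine MvPolynomial.algHom_ext fun v => ?_
  rw [hφ, aeval_X, co_act]
  rfl

variable [IsAlgClosed K]

theorem stab_iff (B : D.fnn.XX) : Fn.Stab D.ev B ↔ ∀ n : D.G, (∀ f ∈ D.im B.1, ∀ x : D.G, f (n * x) = f x) →
    ∀ P : MvPolynomial (Var D.N) K, aeval (co D.β) P = 0 → aeval (co (D.act n.1)) P = 0 := by
  constructor
  · intro h n hn P hP
    rw [← ev_lt]
    refine h n ?_ _ ((D.ev_apply P).trans hP)
    rw [Fix_im]
    intro f hf x
    exact hn f (mem_im.mpr ⟨f.2, hf⟩) x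
  · rintro h n hn ⟨_, P, rfl⟩ hf
    have h1 := h n (fun f hf x => by
      obtain ⟨h2, h3⟩ := mem_im.mp hf
      exact (Fix_im B.1 n).mp hn ⟨f, h2⟩ h3 x) P ((D.ev_apply P).symm.trans hf)
    exact (ev_lt n P).trans h1

theorem gen_bot : Fn.Gen D.ev (⊥ : D.fnn.XX) ↔ ∀ P : MvPolynomial (Var D.N) K, aeval (co D.β) P = 0 → D.fp P = 0 := by
  constructor
  · intro h P hP
    have h1 := h ⟨D.fpH P, P, rfl⟩ ((D.ev_apply P).trans hP)
    have h2 : Ideal.span {y : D.F | y ∈ (⊥ : D.fnn.XX).1 ∧ D.ev y = 0} ≤ ⊥ := by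
      refine Ideal.span_le.mpr ?_
      rintro y ⟨hy, hy0⟩
      rw [bot_val] at hy
      obtain ⟨c, rfl⟩ := Algebra.mem_bot.mp hy
      rw [AlgHom.commutes] at hy0
      have h3 : c = 0 := (map_eq_zero_iff _ (algebraMap K ℂ).injective).mp hy0
      rw [h3, map_zero]
      exact zero_mem _
    have h3 : (⟨D.fpH P, P, rfl⟩ : D.F) = 0 := h2 h1
    exact congrArg Subtype.val h3
  · rintro h ⟨_, P, rfl⟩ hf
    have h1 := h P ((D.ev_apply P).symm.trans hf)
    have h2 : (⟨D.fpH P, P, rfl⟩ : D.F) = 0 := Subtype.ext h1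
    change (⟨D.fpH P, P, rfl⟩ : D.F) ∈ _
    rw [h2]
    exact zero_mem _

end PD.Periods

namespace W.Periods

variable {K : Type} [Field K] [Algebra K ℂ] {D : Periods K} [IsAlgClosed K]

theorem av_eq (P : MvPolynomial (Var D.N) K) : aeval (co D.β) P = 0 ↔ aeval (PD.co D.toPD.β) P = 0 :=
  iff_of_eq (congrArg (fun z : ℂ => z = 0) (aeval_eq D.β P))

theorem gen_bot : Fn.Gen D.evp (⊥ : D.Lat) ↔ ∀ P : MvPolynomial (Var D.N) K, aeval (co D.β) P = 0 → D.fp P = 0 :=
  PD.Periods.gen_bot.trans (forall_congr' fun P => imp_congr (av_eq P).symm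
    (iff_of_eq (congrArg (fun f : D.Fun => f = 0) (D.fp_eq P).symm)))

/-- the matrices `n β` -/
noncomputable def shift (D : Periods K) (n : GLs D.N K) : GLs D.N ℂ := fun i =>
  Matrix.GeneralLinearGroup.map (algebraMap K ℂ) (n i) * D.β i

theorem stab_iff (B : D.Lat) : (∀ n : D.G, (∀ f ∈ S B, ∀ x : D.G, f (n * x) = f x) →
    ∀ P : MvPolynomial (Var D.N) K, aeval (co D.β) P = 0 → aeval (co (shift D n.1)) P = 0) ↔ Fn.Stab D.evp B := by
  rw [PD.Periods.stab_iff]
  constructor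
  · intro h n hn P hP
    have h1 := h n hn P ((av_eq P).mpr hP)
    exact (aeval_eq (shift D n.1) P).symm.trans h1
  · intro h n hn P hP
    have h1 := h n hn P ((av_eq P).mp hP)
    exact (aeval_eq (shift D n.1) P).trans h1

end W.Periods

end Pool.Agent.Q280.TG
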